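import Pool.Agent.Lib_helper36.PB.Dvec

/-!
# The loops over the cells and over the picks
-/

namespace Pool.Agent.PB36

variable {b : ℕ}

/-- the pattern of a cell -/
def pt (c : ℕ) : ℕ := c &&& 63

/-- field of `NV` -/
def nvf (c : ℕ) : ℕ := nc c * ((c >>> 12) &&& 268374015)

/-- positive part of the potential -/
def yp (c : ℕ) : ℕ := (c >>> 12) &&& 4095

/-- negative part of the potential -/
def ym (c : ℕ) : ℕ := (c >>> 28) &&& 4095

theorem and_shr (x M j K : ℕ) (h : (M >>> j) &&& K = K) :
    ((x &&& M) >>> j) &&& K = (x >>> j) &&& K := by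
  rw [Nat.shiftRight_and_distrib, Nat.and_assoc, h]

/-- what is known of the chunks -/
structure Chunk (w c : ℕ) : Prop where
  lt : c < 2 ^ 44
  b6 : bt 6 c = 0
  b7 : bt 7 c = 0
  pos : 1 ≤ nc c
  ltw : nc c < 2 ^ w

theorem chunk_of {w x : ℕ} (h1 : 1 ≤ (x >>> 8) &&& 15) (h2 : ((x >>> 8) &&& 15) >>> w = 0) :
    Chunk w (x &&& 1099259969343) := by
  have h3 : nc (x &&& 1099259969343) = (x >>> 8) &&& 15 := and_shr _ _ _ _ (by decide)
  refine ⟨lt_of_le_of_lt Nat.and_le_right (by norm_num), ?_, ?_, ?_, ?_⟩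
  · rw [bt, Nat.shiftRight_and_distrib, Nat.and_assoc]
    have : (1099259969343 >>> 6) &&& 1 = 0 := by decide
    rw [this, Nat.and_zero]
  · rw [bt, Nat.shiftRight_and_distrib, Nat.and_assoc]
    have : (1099259969343 >>> 7) &&& 1 = 0 := by decide
    rw [this, Nat.and_zero]
  · rw [h3]; exact h1
  · rw [h3]
    rw [Nat.shiftRight_eq_div_pow] at h2
    exact (Nat.div_eq_zero_iff_lt (by positivity)).1 h2

theorem cellL_spec {w : ℕ} {fin : ℕ → ℕ → ℕ → Bool} (C x lo : ℕ) (cs0 : List ℕ)
    (h : cellL b w fin C x (b * cs0.length) lo (pk b id cs0) (pk b nvf cs0)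
      (cs0.map fun c => nc c <<< (w * pt c)).sum = true) :
    ∃ cs : List ℕ, cs.length = C ∧ (∀ c ∈ cs, Chunk w c) ∧ (∀ c ∈ cs, lo ≤ pt c) ∧
      cs.Pairwise (fun c c' => pt c < pt c') ∧
      fin (pk b id (cs0 ++ cs)) (pk b nvf (cs0 ++ cs))
        ((cs0 ++ cs).map fun c => nc c <<< (w * pt c)).sum = true := by
  induction C generalizing x lo cs0 with
  | zero => exact ⟨[], rfl, by simp, by simp, by simp, by simpa [cellL] using h⟩
  | succ C ih =>
    have h0 : cellL b w fin (C + 1) x (b * cs0.length) lo (pk b id cs0) (pk b nvf cs0)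
      (cs0.map fun c => nc c <<< (w * pt c)).sum =
      andB (Nat.ble lo (x &&& 63)) (andB (Nat.ble 1 ((x >>> 8) &&& 15))
        (andB (Nat.beq (((x >>> 8) &&& 15) >>> w) 0)
        (cellL b w fin C (x >>> 44) (b * cs0.length + b) ((x &&& 63) + 1)
          (pk b id cs0 + (x &&& 1099259969343) <<< (b * cs0.length))
          (pk b nvf cs0 + (((x >>> 8) &&& 15) * ((x >>> 12) &&& 268374015)) <<< (b * cs0.length))
          ((cs0.map fun c => nc c <<< (w * pt c)).sum +
            ((x >>> 8) &&& 15) <<< (w * (x &&& 63)))))) := rfl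
    rw [h0, andB_eq, andB_eq, andB_eq, nble, nble, nbeq] at h
    obtain ⟨h1, h2, h3, h4⟩ := h
    set ch := x &&& 1099259969343 with hch
    have e1 : nc ch = (x >>> 8) &&& 15 := and_shr _ _ _ _ (by decide)
    have e2 : pt ch = x &&& 63 := by
      have := and_shr x 1099259969343 0 63 (by decide)
      simpa [pt] using this
    have e3 : (ch >>> 12) &&& 268374015 = (x >>> 12) &&& 268374015 := and_shr _ _ _ _ (by decide)
    have e4 : nvf ch = ((x >>> 8) &&& 15) * ((x >>> 12) &&& 268374015) := by rw [nvf, e1, e3]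
    have hck : Chunk w ch := chunk_of h2 h3
    have a1 : pk b id cs0 + ch <<< (b * cs0.length) = pk b id (cs0 ++ [ch]) := by
      rw [pk_append, Nat.shiftLeft_eq]; simp [pk, mul_comm]
    have a2 : pk b nvf cs0 + (nvf ch) <<< (b * cs0.length) = pk b nvf (cs0 ++ [ch]) := by
      rw [pk_append, Nat.shiftLeft_eq]; simp [pk, mul_comm]
    have a3 : (cs0.map fun c => nc c <<< (w * pt c)).sum + (nc ch) <<< (w * pt ch) =
        ((cs0 ++ [ch]).map fun c => nc c <<< (w * pt c)).sum := by simp
    have a4 : b * cs0.length + b = b * (cs0 ++ [ch]).length := by simp [mul_add]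
    rw [← e4, ← e1, ← e2, a1, a2, a3, a4] at h4
    obtain ⟨cs, c1, c2, c3, c4, c5⟩ := ih _ _ _ h4
    rw [← e2] at h1
    refine ⟨ch :: cs, by simp [c1], ?_, ?_, ?_, ?_⟩
    · intro c hc
      rcases List.mem_cons.1 hc with rfl | hc
      · exact hck
      · exact c2 c hc
    · intro c hc
      rcases List.mem_cons.1 hc with rfl | hc
      · exact h1
      · exact h1.trans ((Nat.le_succ _).trans (c3 c hc))
    · rw [List.pairwise_cons]
      exact ⟨fun c hc => c3 c hc, c4⟩
    · have e5 : cs0 ++ [ch] ++ cs = cs0 ++ ch :: cs := by simp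
      rw [e5] at c5
      exact c5

/-- separation of the picks -/
theorem sepI_spec {A M n x : ℕ} (h : sepI A M n x = true) : ∀ j < n, M ≠ (x >>> j) &&& A := by
  induction n generalizing x with
  | zero => intro j hj; omega
  | succ n ih =>
    have h0 : sepI A M (n + 1) x = andB (notB (Nat.beq M (x &&& A))) (sepI A M n (x >>> 1)) := rfl
    rw [h0, andB_eq, notB_eq, nbne] at h
    intro j hj
    cases j with
    | zero => simpa using h.1
    | succ j =>
      have := ih h.2 j (by omega)
      rwa [← Nat.shiftRight_add, add_comm 1 j] at this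

theorem sepL_spec {A n x : ℕ} (h : sepL A n x = true) :
    (∀ i < n, (x >>> i) &&& A ≠ 0) ∧
    ∀ i < n, ∀ j < n, i < j → (x >>> i) &&& A ≠ (x >>> j) &&& A := by
  induction n generalizing x with
  | zero => exact ⟨fun i hi => by omega, fun i hi => by omega⟩
  | succ n ih =>
    have h0 : sepL A (n + 1) x = andB (notB (Nat.beq (x &&& A) 0))
      (andB (sepI A (x &&& A) n (x >>> 1)) (sepL A n (x >>> 1))) := rfl
    rw [h0, andB_eq, andB_eq, notB_eq, nbne] at h
    obtain ⟨h1, h2, h3⟩ := h
    obtain ⟨h4, h5⟩ := ih h3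
    have h6 := sepI_spec h2
    constructor
    · intro i hi
      cases i with
      | zero => simpa using h1
      | succ i =>
        have := h4 i (by omega)
        rwa [← Nat.shiftRight_add, add_comm 1 i] at this
    · intro i hi j hj hij
      cases j with
      | zero => omega
      | succ j =>
        cases i with
        | zero =>
          have := h6 j (by omega)
          rwa [← Nat.shiftRight_add, add_comm 1 j] at this
        | succ i =>
          have := h5 i (by omega) j (by omega) (by omega)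
          rwa [← Nat.shiftRight_add, ← Nat.shiftRight_add, add_comm 1 j, add_comm 1 i] at this

/-- the entry `i` of the list of indices `x` -/
def en (x i : ℕ) : ℕ := (x >>> (3 * i)) &&& 7

theorem en_succ (x i : ℕ) : en (x >>> 3) i = en x (i + 1) := by
  rw [en, en, ← Nat.shiftRight_add]
  congr 2
  ring

theorem gath_spec {lv n x sh acc : ℕ} (hacc : acc < 2 ^ sh) :
    (∀ j, (gath lv n x sh acc).testBit (sh + j) = (decide (j < n) && lv.testBit (en x j))) ∧
    ∀ j < sh, (gath lv n x sh acc).testBit j = acc.testBit j := by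
  induction n generalizing x sh acc with
  | zero =>
    refine ⟨fun j => ?_, fun j _ => rfl⟩
    have h0 : gath lv 0 x sh acc = acc := rfl
    rw [h0]
    simp only [Nat.not_lt_zero, decide_false, Bool.false_and]
    exact Nat.testBit_lt_two_pow (hacc.trans_le (Nat.pow_le_pow_right (by norm_num) (by omega)))
  | succ n ih =>
    have h0 : gath lv (n + 1) x sh acc = gath lv n (x >>> 3) (sh + 1)
      (acc + ((lv >>> (x &&& 7)) &&& 1) <<< sh) := rfl
    have h1 : (lv >>> (x &&& 7)) &&& 1 ≤ 1 := Nat.and_le_right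
    have h2 : acc + ((lv >>> (x &&& 7)) &&& 1) <<< sh =
        2 ^ sh * ((lv >>> (x &&& 7)) &&& 1) + acc := by
      rw [Nat.shiftLeft_eq]; ring
    have h3 : acc + ((lv >>> (x &&& 7)) &&& 1) <<< sh < 2 ^ (sh + 1) := by
      rw [h2, pow_succ]
      have : 2 ^ sh * ((lv >>> (x &&& 7)) &&& 1) ≤ 2 ^ sh * 1 := Nat.mul_le_mul_left _ h1
      omega
    obtain ⟨h4, h5⟩ := ih (x := x >>> 3) h3
    rw [h0]
    constructor
    · intro j
      cases j with
      | zero =>
        rw [add_zero, h5 sh (by omega), h2, Nat.testBit_two_pow_mul_add _ hacc,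
          if_neg (lt_irrefl _), Nat.sub_self]
        simp [en]
      | succ j =>
        have h6 := h4 j
        rw [show sh + (j + 1) = sh + 1 + j by ring, h6, en_succ]
        simp
    · intro j hj
      rw [h5 j (by omega), h2, Nat.testBit_two_pow_mul_add _ hacc, if_pos hj]

end Pool.Agent.PB36
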