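import Pool.Agent.Lib_helper36.PB.NL

/-!
# The kernel checker for the certificates (property `B(4)`)

Everything is computed with `Nat` operations and recursors only. Vectors are numbers with fields
of `b` bits.
-/

namespace Pool.Agent.PB36

/-- conjunction -/
noncomputable def andB (x y : Bool) : Bool := @Bool.rec (fun _ => Bool) false y x

/-- negation -/
noncomputable def notB (x : Bool) : Bool := @Bool.rec (fun _ => Bool) true false x

/-- `∑_{j ≤ n} x 2^(s j)` -/
noncomputable def repN (s x n : Nat) : Nat :=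
  @Nat.rec (fun _ => Nat) x (fun _ ih => Nat.add x (Nat.shiftLeft ih s)) n

/-- Horner form of `∑_{j ≤ n} (L + (j u + (n-j) d) O) 2^(s j)` -/
noncomputable def horG (s O L u d n : Nat) : Nat :=
  @Nat.rec (fun _ => Nat → Nat → Nat)
    (fun nj acc => Nat.add (Nat.shiftLeft acc s) (Nat.add L (Nat.mul (Nat.mul nj d) O)))
    (fun j ih nj acc => ih (Nat.succ nj) (Nat.add (Nat.shiftLeft acc s)
      (Nat.add L (Nat.mul (Nat.add (Nat.mul (Nat.succ j) u) (Nat.mul nj d)) O)))) n 0 0

/-- the same, quicker for `n = 1` -/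
noncomputable def horW (s O L u d n : Nat) : Nat :=
  @Bool.rec (fun _ => Nat) (horG s O L u d n)
    (Nat.add (Nat.shiftLeft (Nat.add L (Nat.mul u O)) s) (Nat.add L (Nat.mul d O)))
    (Nat.beq n 1)

/-- the pass over `C` cells; `nv`, `U`, `D` vectors of stride `b` -/
noncomputable def passW (b FM : Nat) (fin : Nat → Nat → Nat → Nat → Nat → Bool)
    (C nv U D s O L : Nat) : Bool :=
  @Nat.rec (fun _ => Nat → Nat → Nat → Nat → Nat → Nat → Bool)
    (fun nv U D _ O L => fin nv U D O L)
    (fun _ ih nv U D s O L =>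
      (fun n => ih (Nat.shiftRight nv b) (Nat.shiftRight U b) (Nat.shiftRight D b)
        (Nat.mul s (Nat.succ n)) (repN s O n)
        (horW s O L (Nat.land U FM) (Nat.land D FM) n)) (Nat.land nv 15)) C nv U D s O L

/-- loop over the values `x + j (u - d)`, `j ≤ n` -/
noncomputable def valL (f : Nat → Bool) (u d n x : Nat) : Bool :=
  @Nat.rec (fun _ => Nat → Bool) (fun x => f x)
    (fun _ ih x => andB (f x) (ih (Nat.add (Nat.sub x d) u))) n x

/-- loop over the traces of the last `r` cells -/
noncomputable def treeL (b FM : Nat) (f : Nat → Bool) (r nv U D x : Nat) : Bool :=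
  @Nat.rec (fun _ => Nat → Nat → Nat → Nat → Bool) (fun _ _ _ x => f x)
    (fun _ ih nv U D x => (fun n u d =>
      valL (ih (Nat.shiftRight nv b) (Nat.shiftRight U b) (Nat.shiftRight D b)) u d n
        (Nat.add x (Nat.mul n d)))
      (Nat.land nv 15) (Nat.land U FM) (Nat.land D FM)) r nv U D x

/-- in each field of `L + x O` some item is passed; `AO` top bits of the items and of the
field, `T` top bits of the fields, `MO` masks -/
noncomputable def finB (AO T MO O L x : Nat) : Bool :=
  Nat.beq (Nat.land (Nat.sub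
      (Nat.land (Nat.sub AO (Nat.land (Nat.add L (Nat.mul x O)) MO)) AO) O) T) T

/-- the loop over the cells: chunk = pattern (6 bits, then two bits `0`), `n` (4 bits),
`y+` (12 bits, then four bits `0`), `y-` (12 bits, then four bits `0`) -/
noncomputable def cellL (b w : Nat) (fin : Nat → Nat → Nat → Bool)
    (C x off lo RV NV pr : Nat) : Bool :=
  @Nat.rec (fun _ => Nat → Nat → Nat → Nat → Nat → Nat → Bool)
    (fun _ _ _ RV NV pr => fin RV NV pr)
    (fun _ ih x off lo RV NV pr =>
      (fun P n =>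
        andB (Nat.ble lo P) (andB (Nat.ble 1 n) (andB (Nat.beq (Nat.shiftRight n w) 0)
          (ih (Nat.shiftRight x 44) (Nat.add off b) (Nat.succ P)
            (Nat.add RV (Nat.shiftLeft (Nat.land x 1099259969343) off))
            (Nat.add NV (Nat.shiftLeft
              (Nat.mul n (Nat.land (Nat.shiftRight x 12) 268374015)) off))
            (Nat.add pr (Nat.shiftLeft n (Nat.mul w P)))))))
        (Nat.land x 63) (Nat.land (Nat.shiftRight x 8) 15))
    C x off lo RV NV pr

/-- vector of `∏_i (2^(e_i))^[cell in pick x_i]`, `e_0 = e`, `e_(i+1) = 2 e_i` -/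
noncomputable def dvec (RV ALL FM n x e D : Nat) : Nat :=
  @Nat.rec (fun _ => Nat → Nat → Nat → Nat) (fun _ _ D => D)
    (fun _ ih x e D =>
      (fun X => ih (Nat.shiftRight x 3) (Nat.mul 2 e)
        (Nat.add (Nat.sub D X) (Nat.shiftLeft X e)))
      (Nat.land D (Nat.mul (Nat.land (Nat.shiftRight RV (Nat.land x 7)) ALL) FM)))
    n x e D

/-- number of the picks `x_i` which contain the cell -/
noncomputable def covV (RV ALL n x H : Nat) : Nat :=
  @Nat.rec (fun _ => Nat → Nat → Nat) (fun _ H => H)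
    (fun _ ih x H => ih (Nat.shiftRight x 3)
      (Nat.add H (Nat.land (Nat.shiftRight RV (Nat.land x 7)) ALL)))
    n x H

/-- selection of an entry -/
noncomputable def getNL (l : NL) (i : Nat) : Nat :=
  @NL.rec (fun _ => Nat → Nat) (fun _ => 0)
    (fun x _ ih i => @Nat.rec (fun _ => Nat) x (fun j _ => ih j) i) l i

/-- the header (16 bits) and profile of record `id` -/
noncomputable def getR (db : NL) (id : Nat) : Nat :=
  Nat.land (Nat.shiftRight (getNL db (Nat.shiftRight id 10)) (Nat.mul 144 (Nat.land id 1023)))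
    22300745198530623141535718272648361505980415

/-- gather the levels: bit `i` is the bit `x_i` of `lv` -/
noncomputable def gath (lv n x sh acc : Nat) : Nat :=
  @Nat.rec (fun _ => Nat → Nat → Nat → Nat) (fun _ _ acc => acc)
    (fun _ ih x sh acc => ih (Nat.shiftRight x 3) (Nat.succ sh)
      (Nat.add acc (Nat.shiftLeft (Nat.land (Nat.shiftRight lv (Nat.land x 7)) 1) sh))) n x sh acc

/-- `n` masks starting with that of `x` are different from `M` -/
noncomputable def sepI (ALL M n x : Nat) : Bool :=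
  @Nat.rec (fun _ => Nat → Bool) (fun _ => true)
    (fun _ ih x => andB (notB (Nat.beq M (Nat.land x ALL))) (ih (Nat.shiftRight x 1))) n x

/-- the picks of the record are nonempty and different -/
noncomputable def sepL (ALL n x : Nat) : Bool :=
  @Nat.rec (fun _ => Nat → Bool) (fun _ => true)
    (fun r ih x => andB (notB (Nat.beq (Nat.land x ALL) 0))
      (andB (sepI ALL (Nat.land x ALL) r (Nat.shiftRight x 1)) (ih (Nat.shiftRight x 1)))) n x

/-- static check of a reference: `h` header of the record referred to, `n` number of its picks,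
`x` the map, `j` the position of the new type -/
noncomputable def refStat (rooted lv h n x j : Nat) : Bool :=
  andB (Nat.beq (Nat.land (Nat.shiftRight x (Nat.mul 3 j)) 7) 7)
  (andB (Nat.ble (Nat.succ j) n)
  (andB (@Bool.rec (fun _ => Bool)
      (Nat.beq (Nat.shiftRight h 7) (Nat.land (Nat.shiftRight h 7) (gath lv n x 0 0)))
      true (Nat.beq (Nat.shiftRight h 7) 0))
  (andB (Nat.ble (Nat.land h 1) rooted)
    (Nat.beq (Nat.mul (Nat.land h 1) (Nat.land x 7)) 0))))

/-- addition of an item of width `w1 + 1` -/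
noncomputable def addI (b : Nat) (ih : Nat → Nat → Nat → Nat → Nat → Nat → Nat → Bool)
    (it off U D K TM TP w1 u d k t : Nat) : Bool :=
  andB (Nat.ble (Nat.add (Nat.succ off) w1) b)
    (ih it (Nat.add (Nat.succ off) w1) (Nat.add U (Nat.shiftLeft u off))
      (Nat.add D (Nat.shiftLeft d off)) (Nat.add K (Nat.shiftLeft k off))
      (Nat.add TM (Nat.shiftLeft t off)) (Nat.add TP (Nat.shiftLeft 1 (Nat.add off w1))))

/-- second step for a reference -/
noncomputable def refStep2 (rooted lv RV ALL FM b s0 u0 d0 k0 t0 : Nat)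
    (ih : Nat → Nat → Nat → Nat → Nat → Nat → Nat → Bool)
    (off U D K TM TP j x h prof n w w1 : Nat) : Bool :=
  andB (refStat rooted lv h n x j)
    (andB (Nat.beq (Nat.shiftRight prof w1) 0)
      (addI b ih (Nat.shiftRight x (Nat.mul 3 n)) off U D K TM TP (Nat.add w1 s0)
        (Nat.add u0 (Nat.shiftLeft (dvec RV ALL FM n x w ALL) (Nat.add s0 (Nat.shiftLeft w j))))
        (Nat.add d0 (Nat.shiftLeft (dvec RV ALL FM n x w ALL) s0))
        (Nat.add k0 (Nat.shiftLeft (Nat.sub (Nat.shiftLeft 1 w1) prof) s0))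
        (Nat.add t0 (Nat.shiftLeft (Nat.pred (Nat.shiftLeft 1 w1)) s0))))

/-- step for a reference; `s0 u0 d0 k0 t0` is a second test in the lower bits, `p` header and
profile of the record referred to -/
noncomputable def refStep (id rooted lv RV ALL FM b s0 u0 d0 k0 t0 : Nat)
    (ih : Nat → Nat → Nat → Nat → Nat → Nat → Nat → Bool)
    (it off U D K TM TP rid p : Nat) : Bool :=
  andB (Nat.ble (Nat.succ rid) id)
    (refStep2 rooted lv RV ALL FM b s0 u0 d0 k0 t0 ih off U D K TM TP
      (Nat.land (Nat.shiftRight it 16) 7) (Nat.shiftRight it 19)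
      (Nat.land p 65535) (Nat.shiftRight p 16)
      (Nat.land (Nat.shiftRight p 1) 7) (Nat.land (Nat.shiftRight p 4) 7)
      (Nat.add (Nat.sub (Nat.shiftLeft (Nat.land (Nat.shiftRight p 4) 7)
          (Nat.land (Nat.shiftRight p 1) 7)) (Nat.land (Nat.shiftRight p 4) 7)) 4))

/-- rule 3: cover numbers `h ≤ 3`; `B0`, `B1` their bits, `B3 = [h = 3]` -/
noncomputable def rule3I (ALL b : Nat) (ih : Nat → Nat → Nat → Nat → Nat → Nat → Nat → Bool)
    (it off U D K TM TP B0 B1 B3 : Nat) : Bool :=
  addI b ih it off U D K TM TP 11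
    (Nat.add (Nat.mul 2 B3) (Nat.shiftLeft (Nat.sub B1 B3) 6))
    (Nat.add (Nat.sub (Nat.add ALL B3) (Nat.add B0 B1)) (Nat.shiftLeft B3 6)) 926 1056

/-- rule 2 -/
noncomputable def rule2I (ALL b : Nat) (ih : Nat → Nat → Nat → Nat → Nat → Nat → Nat → Bool)
    (it off U D K TM TP B0 B1 B3 : Nat) : Bool :=
  addI b ih it off U D K TM TP 5 B3 (Nat.sub (Nat.add ALL B3) (Nat.add B0 B1)) 15 16

/-- rule 4 -/
noncomputable def rule4I (ALL b : Nat) (ih : Nat → Nat → Nat → Nat → Nat → Nat → Nat → Bool)
    (it off U D K TM TP B0 B1 B3 : Nat) : Bool :=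
  addI b ih it off U D K TM TP 12
    (Nat.add (Nat.mul 3 B1) (Nat.shiftLeft (Nat.sub B0 B3) 7))
    (Nat.add (Nat.add (Nat.sub (Nat.add ALL B3) (Nat.add B0 B1)) (Nat.mul 3 B3))
      (Nat.shiftLeft (Nat.sub B1 B3) 7)) 1469 2112

/-- step for the rules 3 (kind 0), 2 (kind 1), 4 (kind 2) -/
noncomputable def ruleStep (ALL b : Nat)
    (ih : Nat → Nat → Nat → Nat → Nat → Nat → Nat → Bool)
    (it off U D K TM TP t n H : Nat) : Bool :=
  andB (Nat.beq (Nat.land H (Nat.mul ALL 4)) 0)
    (@Nat.rec (fun _ => Nat → Nat → Nat → Bool)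
      (rule3I ALL b ih (Nat.shiftRight it (Nat.add 6 (Nat.mul 3 n))) off U D K TM TP)
      (fun t _ => @Nat.rec (fun _ => Nat → Nat → Nat → Bool)
        (rule2I ALL b ih (Nat.shiftRight it (Nat.add 6 (Nat.mul 3 n))) off U D K TM TP)
        (fun _ _ =>
          rule4I ALL b ih (Nat.shiftRight it (Nat.add 6 (Nat.mul 3 n))) off U D K TM TP) t) t
      (Nat.land H ALL) (Nat.land (Nat.shiftRight H 1) ALL)
      (Nat.land (Nat.land H (Nat.shiftRight H 1)) ALL))

/-- step for the kinds 3 (disjoint from a pick), 4 (size at most 2), 5 (equal to a pick) -/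
noncomputable def pickStep (k RV ALL b : Nat)
    (ih : Nat → Nat → Nat → Nat → Nat → Nat → Nat → Bool)
    (it off U D K TM TP t l : Nat) : Bool :=
  andB (Nat.ble (Nat.succ l) k)
    (@Nat.rec (fun _ => Bool)
      (addI b ih (Nat.shiftRight it 6) off U D K TM TP 5
        (Nat.land (Nat.shiftRight RV l) ALL) 0 15 16)
      (fun t _ => @Nat.rec (fun _ => Bool)
        (addI b ih (Nat.shiftRight it 6) off U D K TM TP 5 ALL 0 13 16)
        (fun _ _ => addI b ih (Nat.shiftRight it 6) off U D K TM TP 5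
          (Nat.sub ALL (Nat.land (Nat.shiftRight RV l) ALL))
          (Nat.land (Nat.shiftRight RV l) ALL) 15 16)
        t) t)

/-- the loop over the items -/
noncomputable def itemL (db : NL) (id rooted k lv RV ALL FM b s0 u0 d0 k0 t0 : Nat)
    (fin : Nat → Nat → Nat → Nat → Nat → Nat → Nat → Bool)
    (n it off U D K TM TP : Nat) : Bool :=
  @Nat.rec (fun _ => Nat → Nat → Nat → Nat → Nat → Nat → Nat → Bool)
    (fun it off U D K TM TP => fin it off U D K TM TP)
    (fun _ ih it off U D K TM TP =>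
      (fun t => @Bool.rec (fun _ => Bool)
        (@Bool.rec (fun _ => Bool)
          (@Bool.rec (fun _ => Bool)
            (refStep id rooted (Nat.lor lv (Nat.shiftLeft rooted 7)) RV ALL FM b
              s0 u0 d0 k0 t0 ih it off U D K TM TP (Nat.land (Nat.shiftRight it 3) 8191)
              (getR db (Nat.land (Nat.shiftRight it 3) 8191)))
            (refStep id rooted lv RV ALL FM b 0 0 0 0 0 ih it off U D K TM TP
              (Nat.land (Nat.shiftRight it 3) 8191)
              (getR db (Nat.land (Nat.shiftRight it 3) 8191)))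
            (Nat.beq t 6))
          (pickStep k RV ALL b ih it off U D K TM TP (Nat.sub t 3)
            (Nat.land (Nat.shiftRight it 3) 7))
          (Nat.ble t 5))
        (ruleStep ALL b ih it off U D K TM TP t (Nat.land (Nat.shiftRight it 3) 7)
          (covV RV ALL (Nat.land (Nat.shiftRight it 3) 7) (Nat.shiftRight it 6) 0))
        (Nat.ble t 2)) (Nat.land it 7))
    n it off U D K TM TP

/-- balance of the picks `j = 1, 2, ...` of a rooted record -/
noncomputable def balL (RV NV ALL FM z lv : Nat) (n j P N st : Nat) : Bool :=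
  @Nat.rec (fun _ => Nat → Nat → Nat → Nat → Bool)
    (fun _ P N st => Nat.ble (Nat.add N (Nat.sub 1 st)) P)
    (fun _ ih j P N st =>
      (fun S =>
        (fun vp vm => @Bool.rec (fun _ => Bool)
          (ih (Nat.succ j) (Nat.add P (Nat.mul 2 vp)) (Nat.add N (Nat.mul 2 vm)) st)
          (ih (Nat.succ j) (Nat.add P (Nat.mul (Nat.land (Nat.shiftRight lv j) 1) (Nat.sub vp vm))) N
            (@Bool.rec (fun _ => Nat) 1 st (Nat.beq vp vm)))
          (Nat.ble vm vp))
        (Nat.land S 65535) (Nat.add z (Nat.shiftRight S 16)))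
      (Nat.mod (Nat.land NV (Nat.mul (Nat.land (Nat.shiftRight RV j) ALL) FM)) FM))
    n j P N st

/-- unrooted: all picks have value at least `0`, one positive (or `st`) -/
noncomputable def balU (RV NV ALL FM z : Nat) (n j st : Nat) : Bool :=
  @Nat.rec (fun _ => Nat → Nat → Bool)
    (fun _ st => Nat.ble 1 st)
    (fun _ ih j st =>
      (fun S =>
        (fun vp vm => andB (Nat.ble vm vp)
          (ih (Nat.succ j) (@Bool.rec (fun _ => Nat) 1 st (Nat.beq vp vm))))
        (Nat.land S 65535) (Nat.add z (Nat.shiftRight S 16)))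
      (Nat.mod (Nat.land NV (Nat.mul (Nat.land (Nat.shiftRight RV j) ALL) FM)) FM))
    n j st

/-- the last check: all traces pass -/
noncomputable def lastB (b FM C r nv U D K TM TP : Nat) : Bool :=
  passW b FM (fun nv U D O L =>
      treeL b FM (finB (Nat.mul (Nat.add TP (Nat.shiftLeft 1 (Nat.pred b))) O)
        (Nat.shiftLeft O (Nat.pred b)) (Nat.mul TM O) O L) r nv U D 0)
    (Nat.sub C r) nv U D b 1 K

/-- the balance of a record -/
noncomputable def balB (m rooted k lv z mu RV NV ALL FM sp sm : Nat) : Bool :=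
  @Bool.rec (fun _ => Bool)
    ((fun S0 => balL RV NV ALL FM z lv (Nat.pred k) 1
        (Nat.mul 2 (Nat.land S0 65535))
        (Nat.add (Nat.mul 2 (Nat.add z (Nat.shiftRight S0 16)))
          (Nat.mul 2 (Nat.mul mu (Nat.sub m k))))
        (@Bool.rec (fun _ => Nat) 1 0 (Nat.beq sp (Nat.add sm (Nat.mul 2 z)))))
      (Nat.mod (Nat.land NV (Nat.mul (Nat.land RV ALL) FM)) FM))
    (andB (Nat.beq mu 0) (balU RV NV ALL FM z k 0
        (@Bool.rec (fun _ => Nat) 1 0 (Nat.beq sp (Nat.add sm (Nat.mul 2 z))))))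
    (Nat.beq rooted 0)

/-- the checks of a record after the loop over the cells -/
noncomputable def chkC (m : Nat) (db : NL) (id rooted k lv prof C b z mu nI w1 r items
    FM ALL RV NV pr sp sm h Yp Ym : Nat) : Bool :=
  andB (Nat.beq pr prof)
  (andB (Nat.beq (Nat.mod (Nat.land (Nat.shiftRight RV 8) (Nat.mul ALL 15)) FM) m)
  (andB (sepL ALL k RV)
  (andB (Nat.ble (Nat.add (Nat.add sp sm) (Nat.add (Nat.mul 2 mu) z)) (Nat.pred h))
  (andB (Nat.ble sp (Nat.add sm (Nat.mul 2 z)))
  (andB (balB m rooted k lv z mu RV NV ALL FM sp sm)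
  (andB (Nat.ble (Nat.succ (Nat.succ w1)) b)
  (itemL db id rooted k lv RV ALL FM b (Nat.succ w1) Ym Yp
      (Nat.sub (Nat.add (Nat.pred h) z) (Nat.add sp (Nat.mul 2 mu))) h
      (fun _ off U D K TM TP => andB (Nat.ble (Nat.succ off) b)
        (lastB b FM C r (Nat.shiftRight RV 8) U D K TM TP))
      nI items (Nat.succ w1) Ym Yp (Nat.sub (Nat.add (Nat.pred h) z) (Nat.add sp mu))
      h (Nat.shiftLeft 1 w1))))))))

/-- all checks of the record after decoding -/
noncomputable def chkB (m : Nat) (db : NL) (id rooted k w lv prof C b z mu nI w1 r cells items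
    FM ALL : Nat) : Bool :=
  cellL b w (fun RV NV pr =>
    chkC m db id rooted k lv prof C b z mu nI w1 r items FM ALL RV NV pr
      (Nat.land (Nat.mod NV FM) 65535) (Nat.shiftRight (Nat.mod NV FM) 16)
      (Nat.shiftLeft 1 (Nat.pred w1))
      (Nat.land (Nat.shiftRight RV 12) (Nat.mul ALL 4095))
      (Nat.land (Nat.shiftRight RV 28) (Nat.mul ALL 4095)))
  C cells 0 0 0 0 0

/-- decoding of a record -/
noncomputable def chkR (m : Nat) (db : NL) (id d : Nat) : Bool :=
  (fun p C b =>
    (fun h FM =>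
      andB (andB (Nat.ble 45 b) (Nat.ble (Nat.land (Nat.shiftRight d 37) 15) C))
      (chkB m db id (Nat.land h 1) (Nat.land (Nat.shiftRight h 1) 7)
        (Nat.land (Nat.shiftRight h 4) 7)
        (Nat.shiftRight h 7) (Nat.shiftRight p 16) C b
        (Nat.land (Nat.shiftRight d 17) 1023) (Nat.land (Nat.shiftRight d 27) 1023)
        (Nat.land (Nat.shiftRight d 45) 255)
        (Nat.succ (Nat.land (Nat.shiftRight d 53) 31)) (Nat.land (Nat.shiftRight d 37) 15)
        (Nat.shiftRight d 58) (Nat.shiftRight d (Nat.add 58 (Nat.mul 44 C))) FM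
        (Nat.div (Nat.pred (Nat.shiftLeft 1 (Nat.mul b C))) FM)))
    (Nat.land p 65535) (Nat.pred (Nat.shiftLeft 1 b)))
  (getR db id) (Nat.land d 15) (Nat.land (Nat.shiftRight d 4) 8191)

/-- check of a list of consecutive records -/
noncomputable def chkL (m : Nat) (db : NL) (l : NL) (id : Nat) : Bool :=
  @NL.rec (fun _ => Nat → Bool) (fun _ => true)
    (fun d _ ih id => andB (chkR m db id d) (ih (Nat.succ id))) l id

end Pool.Agent.PB36
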