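import Pool.Agent.Lib_helper36.PB.Cell

/-!
# Configurations of types and their profiles
-/

namespace Pool.Agent.PB36

open Finset

/-- numbers given by bits -/
def bits (f : ℕ → Bool) (n : ℕ) : ℕ := ∑ i ∈ range n, if f i then 2 ^ i else 0

theorem bits_lt (f : ℕ → Bool) (n : ℕ) : bits f n < 2 ^ n := by
  induction n with
  | zero => simp [bits]
  | succ n ih =>
    have : bits f (n + 1) = bits f n + if f n then 2 ^ n else 0 := by
      rw [bits, sum_range_succ]; rfl
    rw [this, pow_succ]
    split_ifs <;> omega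

theorem testBit_bits (f : ℕ → Bool) (n j : ℕ) : (bits f n).testBit j = (decide (j < n) && f j) := by
  induction n with
  | zero => simp [bits]
  | succ n ih =>
    have h1 : bits f (n + 1) = 2 ^ n * (if f n then 1 else 0) + bits f n := by
      rw [bits, sum_range_succ, add_comm, ← bits]
      split_ifs <;> simp
    rw [h1, Nat.testBit_two_pow_mul_add _ (bits_lt f n)]
    by_cases hj : j < n
    · rw [if_pos hj, ih]
      simp [hj, hj.trans (Nat.lt_succ_self n)]
    · rw [if_neg hj]
      by_cases hjn : j = n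
      · subst hjn
        rw [Nat.sub_self]
        cases f j <;> simp
      · have h2 : ¬ j < n + 1 := by omega
        obtain ⟨q, hq⟩ : ∃ q, j - n = q + 1 := ⟨j - n - 1, by omega⟩
        rw [hq]
        simp only [h2, decide_false, Bool.false_and]
        cases f n <;> simp [Nat.testBit_succ]

variable {m : ℕ}

/-- pattern of a point -/
def pat (X : ℕ → Finset (Fin m)) (e : Fin m) : ℕ := bits (fun i => decide (e ∈ X i)) 8

/-- the profile -/
def prf (w : ℕ) (X : ℕ → Finset (Fin m)) : ℕ := ∑ e, 2 ^ (w * pat X e)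

theorem testBit_pat (X : ℕ → Finset (Fin m)) (e : Fin m) {j : ℕ} (hj : j < 8) :
    (pat X e).testBit j = decide (e ∈ X j) := by
  rw [pat, testBit_bits]; simp [hj]

theorem pat_lt (X : ℕ → Finset (Fin m)) (e : Fin m) : pat X e < 256 := bits_lt _ 8

/-- uniqueness of the digits when their sum is known -/
theorem digits_unique {B : ℕ} (hB : 2 ≤ B) (N : ℕ) : ∀ a r : ℕ → ℕ, (∀ p, r p < B) →
    ∑ p ∈ range N, a p * B ^ p = ∑ p ∈ range N, r p * B ^ p →
    ∑ p ∈ range N, r p ≤ ∑ p ∈ range N, a p ∧
      (∑ p ∈ range N, a p ≤ ∑ p ∈ range N, r p → ∀ p < N, a p = r p) := by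
  induction N with
  | zero => intro a r _ _; simp
  | succ N ih =>
    intro a r hr h
    rw [sum_range_succ', sum_range_succ'] at h
    simp only [pow_zero, mul_one, pow_succ] at h
    have h1 : ∑ p ∈ range N, a (p + 1) * (B ^ p * B) = B * ∑ p ∈ range N, a (p + 1) * B ^ p := by
      rw [mul_sum]; exact sum_congr rfl fun p _ => by ring
    have h2 : ∑ p ∈ range N, r (p + 1) * (B ^ p * B) = B * ∑ p ∈ range N, r (p + 1) * B ^ p := by
      rw [mul_sum]; exact sum_congr rfl fun p _ => by ring
    rw [h1, h2] at h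
    have h3 : a 0 % B = r 0 := by
      have := congrArg (· % B) h
      simpa [Nat.mul_add_mod, Nat.mod_eq_of_lt (hr 0)] using this
    obtain ⟨c, hc⟩ : ∃ c, a 0 = r 0 + B * c := ⟨a 0 / B, by rw [← h3, Nat.mod_add_div]⟩
    have h4 : (∑ p ∈ range N, a (p + 1) * B ^ p) + c = ∑ p ∈ range N, r (p + 1) * B ^ p := by
      have h5 : B * ((∑ p ∈ range N, a (p + 1) * B ^ p) + c) =
          B * ∑ p ∈ range N, r (p + 1) * B ^ p := by
        rw [mul_add]; omega
      exact Nat.eq_of_mul_eq_mul_left (by omega) h5
    rw [sum_range_succ' a, sum_range_succ' r]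
    rcases Nat.eq_zero_or_pos N with rfl | hN
    · simp only [range_zero, sum_empty, zero_add] at h4 ⊢
      subst h4
      refine ⟨by omega, fun _ p hp => ?_⟩
      obtain rfl : p = 0 := by omega
      omega
    · obtain ⟨M, rfl⟩ : ∃ M, N = M + 1 := ⟨N - 1, by omega⟩
      set a' : ℕ → ℕ := fun p => a (p + 1) + if p = 0 then c else 0 with ha'
      have h5 : ∑ p ∈ range (M + 1), a' p * B ^ p =
          (∑ p ∈ range (M + 1), a (p + 1) * B ^ p) + c := by
        have : ∀ p, a' p * B ^ p = a (p + 1) * B ^ p + if p = 0 then c else 0 := by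
          intro p
          simp only [ha']
          split_ifs with hp
          · subst hp; simp
          · simp
        simp only [this, sum_add_distrib, sum_ite_eq', mem_range, Nat.zero_lt_succ, if_true]
      have h6 : ∑ p ∈ range (M + 1), a' p = (∑ p ∈ range (M + 1), a (p + 1)) + c := by
        simp only [ha', sum_add_distrib, sum_ite_eq', mem_range, Nat.zero_lt_succ, if_true]
      obtain ⟨h7, h8⟩ := ih a' (fun p => r (p + 1)) (fun p => hr _) (h5.trans h4)
      rw [h6] at h7 h8
      have h9 : c ≤ B * c := Nat.le_mul_of_pos_left _ (by omega)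
      refine ⟨by omega, fun hle => ?_⟩
      have h10 : 2 * c ≤ B * c := Nat.mul_le_mul_right _ hB
      have hc0 : c = 0 := by omega
      subst hc0
      have h11 := h8 (by omega)
      intro p hp
      cases p with
      | zero => omega
      | succ p =>
        have := h11 p (by omega)
        simpa [ha'] using this

/-- a configuration which has the cells `cs` -/
structure Cells (X : ℕ → Finset (Fin m)) (cs : List ℕ) (cell : Fin m → ℕ) : Prop where
  mem : ∀ e, cell e ∈ cs
  pat : ∀ e, pat X e = pt (cell e)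
  cnt : ∀ c ∈ cs, (univ.filter fun e => cell e = c).card = nc c
  nodup : cs.Nodup
  pos : ∀ c ∈ cs, ∃ e, cell e = c

/-- digits of the profile of the record -/
def rdig (cs : List ℕ) (p : ℕ) : ℕ := (cs.map fun c => if pt c = p then nc c else 0).sum

theorem rdig_sum {N : ℕ} (cs : List ℕ) (g : ℕ → ℕ) (h : ∀ c ∈ cs, pt c < N) :
    ∑ p ∈ range N, rdig cs p * g p = (cs.map fun c => nc c * g (pt c)).sum := by
  induction cs with
  | nil => simp [rdig]
  | cons c cs ih =>
    have h1 : ∀ p, rdig (c :: cs) p = (if pt c = p then nc c else 0) + rdig cs p := fun p => by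
      simp [rdig]
    simp only [h1, add_mul, sum_add_distrib, List.map_cons, List.sum_cons]
    rw [ih fun c hc => h c (by simp [hc])]
    congr 1
    have h2 : ∀ p, (if pt c = p then nc c else 0) * g p = if pt c = p then nc c * g (pt c) else 0 := by
      intro p
      split_ifs with hp
      · rw [hp]
      · simp
    simp only [h2, sum_ite_eq, mem_range]
    rw [if_pos (h c (by simp))]

theorem rdig_eq {cs : List ℕ} (hp : cs.Pairwise fun c c' => pt c < pt c') :
    (∀ c ∈ cs, rdig cs (pt c) = nc c) ∧ ∀ p, (∀ c ∈ cs, pt c ≠ p) → rdig cs p = 0 := by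
  induction cs with
  | nil => exact ⟨by simp, by simp [rdig]⟩
  | cons c cs ih =>
    rw [List.pairwise_cons] at hp
    obtain ⟨h1, h2⟩ := ih hp.2
    have h3 : ∀ p, rdig (c :: cs) p = (if pt c = p then nc c else 0) + rdig cs p := fun p => by
      simp [rdig]
    constructor
    · intro c' hc'
      rcases List.mem_cons.1 hc' with rfl | hc'
      · rw [h3, if_pos rfl, h2 _ fun c'' hc'' => (hp.1 c'' hc'').ne', add_zero]
      · rw [h3, if_neg (hp.1 c' hc').ne, h1 c' hc', zero_add]
    · intro p hp'
      rw [h3, if_neg (hp' c (by simp)), h2 p fun c' hc' => hp' c' (by simp [hc']), zero_add]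

theorem pw_inj {cs : List ℕ} (hp : cs.Pairwise fun c c' => pt c < pt c') :
    ∀ c ∈ cs, ∀ c' ∈ cs, pt c = pt c' → c = c' := by
  induction cs with
  | nil => simp
  | cons d cs ih =>
    rw [List.pairwise_cons] at hp
    intro c hc c' hc' h
    rcases List.mem_cons.1 hc with h1 | h1 <;> rcases List.mem_cons.1 hc' with h2 | h2
    · rw [h1, h2]
    · exact absurd h (h1 ▸ (hp.1 c' h2).ne)
    · exact absurd h (h2 ▸ (hp.1 c h1).ne')
    · exact ih hp.2 c h1 c' h2 h

theorem pw_nodup {cs : List ℕ} (hp : cs.Pairwise fun c c' => pt c < pt c') : cs.Nodup :=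
  hp.imp fun h he => by rw [he] at h; exact lt_irrefl _ h

theorem count_pat {N : ℕ} {w : ℕ} {X : ℕ → Finset (Fin m)} (hN : ∀ e, pat X e < N) :
    ∑ p ∈ range N, (univ.filter fun e : Fin m => pat X e = p).card = m ∧
    ∑ p ∈ range N, (univ.filter fun e : Fin m => pat X e = p).card * (2 ^ w) ^ p = prf w X := by
  constructor
  · have h1 := card_eq_sum_card_fiberwise (f := pat X) (s := (univ : Finset (Fin m)))
      (t := range N) (fun e _ => by
        simp only [coe_range, Set.mem_Iio]; exact hN e)
    rw [card_univ, Fintype.card_fin] at h1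
    exact h1.symm
  · rw [prf, ← sum_fiberwise_of_maps_to (s := (univ : Finset (Fin m))) (t := range N) (g := pat X)
      (fun e _ => mem_range.2 (hN e))]
    refine sum_congr rfl fun p _ => ?_
    rw [sum_congr rfl (g := fun _ => (2 ^ w) ^ p), sum_const, smul_eq_mul]
    intro e he
    rw [(mem_filter.1 he).2, pow_mul]

theorem exists_cells {w : ℕ} {X : ℕ → Finset (Fin m)} {cs : List ℕ} (hck : ∀ c ∈ cs, Chunk w c)
    (hp : cs.Pairwise fun c c' => pt c < pt c') (hm : (cs.map nc).sum = m)
    (h : prf w X = (cs.map fun c => nc c <<< (w * pt c)).sum) : ∃ cell, Cells X cs cell := by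
  obtain ⟨N, hN⟩ : ∃ N, N = 256 := ⟨_, rfl⟩
  have hpt : ∀ c, pt c < N := fun c => by
    rw [hN]; exact lt_of_le_of_lt Nat.and_le_right (by norm_num)
  have hpN : ∀ e, pat X e < N := fun e => by rw [hN]; exact pat_lt X e
  clear hN
  obtain ⟨hr1, hr2⟩ := rdig_eq hp
  obtain ⟨ha1, ha2⟩ := count_pat (w := w) hpN
  have hr3 : ∑ p ∈ range N, rdig cs p = m := by
    have := rdig_sum cs (fun _ => 1) fun c _ => hpt c
    simpa [hm] using this
  have hr4 : ∑ p ∈ range N, rdig cs p * (2 ^ w) ^ p = prf w X := by
    rw [rdig_sum cs (fun p => (2 ^ w) ^ p) fun c _ => hpt c, h]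
    congr 1
    refine List.map_congr_left fun c _ => ?_
    rw [Nat.shiftLeft_eq, pow_mul]
  by_cases hm0 : m = 0
  · subst hm0
    have hcs : cs = [] := by
      cases cs with
      | nil => rfl
      | cons c cs =>
        have h1 := (hck c (by simp)).pos
        rw [List.map_cons, List.sum_cons] at hm
        omega
    subst hcs
    exact ⟨fun e => e.elim0, fun e => e.elim0, fun e => e.elim0, by simp, by simp, by simp⟩
  have hne : ∃ c, c ∈ cs := by
    cases cs with
    | nil => simp at hm; omega
    | cons c cs => exact ⟨c, by simp⟩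
  have hw : 2 ≤ 2 ^ w := by
    obtain ⟨c, hc⟩ := hne
    have h2 := (hck c hc).pos
    have h3 := (hck c hc).ltw
    omega
  have hlt : ∀ p, rdig cs p < 2 ^ w := by
    intro p
    by_cases hex : ∃ c ∈ cs, pt c = p
    · obtain ⟨c, hc, rfl⟩ := hex
      rw [hr1 c hc]; exact (hck c hc).ltw
    · push Not at hex
      rw [hr2 p hex]; positivity
  have hdig := (digits_unique hw N _ (rdig cs) hlt (ha2.trans hr4.symm)).2 (by rw [ha1, hr3])
  have hex : ∀ e : Fin m, ∃ c ∈ cs, pt c = pat X e := by
    intro e
    by_contra hcon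
    push Not at hcon
    have h1 := hdig (pat X e) (hpN e)
    rw [hr2 _ hcon] at h1
    have h2 : e ∈ univ.filter fun e' : Fin m => pat X e' = pat X e := by simp
    rw [card_eq_zero.1 h1] at h2
    simp at h2
  choose cell hcell hpat using hex
  have hinj := pw_inj hp
  have hcnt : ∀ c ∈ cs, (univ.filter fun e => cell e = c).card = nc c := by
    intro c hc
    rw [← hr1 c hc, ← hdig _ (hpt c)]
    congr 1
    ext e
    simp only [mem_filter, mem_univ, true_and]
    constructor
    · rintro rfl; exact (hpat e).symm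
    · intro he
      exact hinj _ (hcell e) _ hc ((hpat e).trans he)
  refine ⟨cell, hcell, fun e => (hpat e).symm, hcnt, pw_nodup hp, fun c hc => ?_⟩
  have h1 := (hck c hc).pos
  rw [← hcnt c hc] at h1
  obtain ⟨e, he⟩ := card_pos.1 h1
  exact ⟨e, (mem_filter.1 he).2⟩

variable {X : ℕ → Finset (Fin m)} {cs : List ℕ} {cell : Fin m → ℕ}

/-- bits of the chunk and membership -/
theorem Cells.bt_eq (hC : Cells X cs cell) {w : ℕ} (hck : ∀ c ∈ cs, Chunk w c)
    (h67 : ∀ e, e ∉ X 6 ∧ e ∉ X 7) {j : ℕ} (hj : j < 8) (e : Fin m) :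
    bt j (cell e) = if e ∈ X j then 1 else 0 := by
  have h0 : ∀ x y : ℕ, (x >>> y) &&& 1 = if x.testBit y then 1 else 0 := by
    intro x y
    rw [Nat.and_one_is_mod, Nat.testBit_eq_decide_div_mod_eq, Nat.shiftRight_eq_div_pow]
    have := Nat.mod_two_eq_zero_or_one (x / 2 ^ y)
    rcases this with h | h <;> simp [h]
  by_cases h6 : j < 6
  · have h1 : (cell e).testBit j = decide (e ∈ X j) := by
      rw [← testBit_pat X e hj, hC.pat e, pt, show (63 : ℕ) = 2 ^ 6 - 1 by norm_num,
        Nat.testBit_and, Nat.testBit_two_pow_sub_one]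
      simp [h6]
    rw [bt, h0, h1]
    simp
  · have h2 := hck _ (hC.mem e)
    rcases (by omega : j = 6 ∨ j = 7) with rfl | rfl
    · rw [h2.b6, if_neg (h67 e).1]
    · rw [h2.b7, if_neg (h67 e).2]

/-- the trace of a type -/
def trc (cs : List ℕ) (cell : Fin m → ℕ) (T : Finset (Fin m)) : List ℕ :=
  cs.map fun c => (T.filter fun e => cell e = c).card

theorem adm_map {cs : List ℕ} {g : ℕ → ℕ} (h : ∀ c ∈ cs, g c ≤ nc c) : adm cs (cs.map g) := by
  induction cs with
  | nil => trivial
  | cons c cs ih => exact ⟨h c (by simp), ih fun c hc => h c (by simp [hc])⟩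

theorem ev_map {cs : List ℕ} {g u d : ℕ → ℕ} :
    ev u d cs (cs.map g) = (cs.map fun c => g c * u c + (nc c - g c) * d c).sum := by
  induction cs with
  | nil => rfl
  | cons c cs ih => rw [List.map_cons, ev, ih, List.map_cons, List.sum_cons]

theorem Cells.adm_trc (hC : Cells X cs cell) (T : Finset (Fin m)) : adm cs (trc cs cell T) := by
  refine adm_map fun c hc => ?_
  rw [← hC.cnt c hc]
  exact card_le_card (filter_subset_filter _ (subset_univ T))

theorem Cells.sum_eq (hC : Cells X cs cell) (F : Fin m → ℕ) :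
    ∑ e, F e = (cs.map fun c => ∑ e ∈ univ.filter (fun e => cell e = c), F e).sum := by
  rw [← sum_fiberwise_of_maps_to (s := (univ : Finset (Fin m))) (t := cs.toFinset) (g := cell)
    (fun e _ => List.mem_toFinset.2 (hC.mem e)), List.sum_toFinset _ hC.nodup]

theorem Cells.ev_trc (hC : Cells X cs cell) (T : Finset (Fin m)) (u d : ℕ → ℕ) :
    ev u d cs (trc cs cell T) = ∑ e, if e ∈ T then u (cell e) else d (cell e) := by
  rw [trc, ev_map, hC.sum_eq]
  congr 1
  refine List.map_congr_left fun c hc => ?_
  rw [← sum_filter_add_sum_filter_not _ (fun e => e ∈ T)]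
  congr 1
  · rw [sum_congr rfl (g := fun _ => u c), sum_const, smul_eq_mul]
    · congr 1
      congr 1
      ext e
      simp only [mem_filter, mem_univ, true_and]
      tauto
    · intro e he
      simp only [mem_filter, mem_univ, true_and] at he
      rw [if_pos he.2, he.1]
  · rw [sum_congr rfl (g := fun _ => d c), sum_const, smul_eq_mul]
    · congr 1
      rw [← hC.cnt c hc, ← card_filter_add_card_filter_not (s := univ.filter fun e => cell e = c)
        (fun e => e ∈ T)]
      have h1 : (univ.filter fun e => cell e = c).filter (fun e => e ∈ T) =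
          T.filter fun e => cell e = c := by
        ext e
        simp only [mem_filter, mem_univ, true_and]
        tauto
      rw [h1, Nat.add_sub_cancel_left]
    · intro e he
      simp only [mem_filter, mem_univ, true_and] at he
      rw [if_neg he.2, he.1]

end Pool.Agent.PB36
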