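import Pool.Agent.Lib_helper36.PB.Item

/-!
# Vectors of exponents and of cover numbers
-/

namespace Pool.Agent.PB36

variable {b : ℕ}

/-- bit `j` of the chunk -/
def bt (j c : ℕ) : ℕ := (c >>> j) &&& 1

theorem bt_le (j c : ℕ) : bt j c ≤ 1 := Nat.and_le_right

theorem bt_cases (j c : ℕ) : bt j c = 0 ∨ bt j c = 1 := by
  have := bt_le j c
  omega

/-- exponent -/
def expo : ℕ → ℕ → ℕ → ℕ → ℕ
  | 0, _, _, _ => 0
  | n + 1, x, e, c => e * bt (x &&& 7) c + expo n (x >>> 3) (2 * e) c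

/-- cover number -/
def cvr : ℕ → ℕ → ℕ → ℕ
  | 0, _, _ => 0
  | n + 1, x, c => bt (x &&& 7) c + cvr n (x >>> 3) c

theorem expo_le (n x e c : ℕ) : expo n x e c ≤ e * (2 ^ n - 1) := by
  induction n generalizing x e with
  | zero => simp [expo]
  | succ n ih =>
    have h1 := ih (x >>> 3) (2 * e)
    have h2 : e * bt (x &&& 7) c ≤ e * 1 := Nat.mul_le_mul_left _ (bt_le _ _)
    have h3 : 1 ≤ 2 ^ n := Nat.one_le_two_pow
    have h4 : e * 1 + 2 * e * (2 ^ n - 1) = e * (2 ^ (n + 1) - 1) := by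
      rw [pow_succ]
      obtain ⟨q, hq⟩ := Nat.exists_eq_add_of_le h3
      rw [hq]
      have h5 : 1 + q - 1 = q := by omega
      have h6 : (1 + q) * 2 - 1 = 2 * q + 1 := by omega
      rw [h5, h6]; ring
    rw [expo]
    omega

theorem cvr_le (n x c : ℕ) : cvr n x c ≤ n := by
  induction n generalizing x with
  | zero => simp [cvr]
  | succ n ih =>
    have h1 := ih (x >>> 3)
    have h2 := bt_le (x &&& 7) c
    rw [cvr]
    omega

theorem and7_le (x : ℕ) : x &&& 7 ≤ 7 := Nat.and_le_right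

theorem mask_eq {cs : List ℕ} (hc : ∀ c ∈ cs, c < 2 ^ b) {j : ℕ} (hj : j < b) :
    (pk b id cs >>> j) &&& pk b (fun _ => 1) cs = pk b (bt j) cs := by
  rw [pk_shr_land (f := id) hc]
  · rfl
  · rw [Nat.shiftLeft_eq, one_mul]
    exact Nat.pow_lt_pow_right (by norm_num) hj

theorem and_bt {x j c : ℕ} (hx : x < 2 ^ b) :
    x &&& (bt j c * (2 ^ b - 1)) = x * bt j c := by
  rcases bt_cases j c with h | h
  · rw [h]; simp
  · rw [h, one_mul, mul_one, Nat.and_two_pow_sub_one_eq_mod, Nat.mod_eq_of_lt hx]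

theorem bt_mul_lt (j c : ℕ) : bt j c * (2 ^ b - 1) < 2 ^ b := by
  have h1 : 1 ≤ 2 ^ b := Nat.one_le_two_pow
  rcases bt_cases j c with h | h
  · rw [h]; omega
  · rw [h]; omega

theorem dvec_spec {cs : List ℕ} (hb : 8 ≤ b) (hc : ∀ c ∈ cs, c < 2 ^ b) (n x e : ℕ) (f : ℕ → ℕ)
    (hf : ∀ c ∈ cs, f c * 2 ^ (e * (2 ^ n - 1)) < 2 ^ b) :
    dvec (pk b id cs) (pk b (fun _ => 1) cs) (2 ^ b - 1) n x e (pk b f cs) =
      pk b (fun c => f c * 2 ^ expo n x e c) cs := by
  induction n generalizing x e f with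
  | zero => simp [dvec, expo]
  | succ n ih =>
    have h0 : dvec (pk b id cs) (pk b (fun _ => 1) cs) (2 ^ b - 1) (n + 1) x e (pk b f cs) =
      dvec (pk b id cs) (pk b (fun _ => 1) cs) (2 ^ b - 1) n (x >>> 3) (2 * e)
        ((pk b f cs - (pk b f cs &&& (((pk b id cs >>> (x &&& 7)) &&& pk b (fun _ => 1) cs) *
          (2 ^ b - 1)))) + (pk b f cs &&& (((pk b id cs >>> (x &&& 7)) &&& pk b (fun _ => 1) cs) *
          (2 ^ b - 1))) <<< e) := rfl
    have hpos : ∀ k : ℕ, 1 ≤ 2 ^ k := fun k => Nat.one_le_two_pow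
    have hfb : ∀ c ∈ cs, f c < 2 ^ b := fun c hc' =>
      lt_of_le_of_lt (Nat.le_mul_of_pos_right _ (hpos _)) (hf c hc')
    have hx : x &&& 7 < b := lt_of_le_of_lt (and7_le x) (by omega)
    have h1 : pk b f cs &&& (((pk b id cs >>> (x &&& 7)) &&& pk b (fun _ => 1) cs) *
        (2 ^ b - 1)) = pk b (fun c => f c * bt (x &&& 7) c) cs := by
      rw [mask_eq hc hx, pk_mul', pk_land hfb fun c _ => bt_mul_lt _ _]
      exact pk_congr fun c hc' => and_bt (hfb c hc')
    have h2 : (pk b f cs - pk b (fun c => f c * bt (x &&& 7) c) cs) +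
        pk b (fun c => f c * bt (x &&& 7) c) cs <<< e =
        pk b (fun c => f c * 2 ^ (e * bt (x &&& 7) c)) cs := by
      rw [pk_sub, pk_shl, pk_add]
      · refine pk_congr fun c _ => ?_
        rcases bt_cases (x &&& 7) c with h | h
        · rw [h]; simp
        · rw [h]; simp [Nat.shiftLeft_eq]
      · intro c _
        exact (Nat.mul_le_mul_left _ (bt_le _ _)).trans (by simp)
    rw [h0, h1, h2, ih]
    · refine pk_congr fun c _ => ?_
      rw [expo, pow_add, mul_assoc]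
    · intro c hc'
      refine lt_of_le_of_lt ?_ (hf c hc')
      rw [mul_assoc, ← pow_add]
      refine Nat.mul_le_mul_left _ (Nat.pow_le_pow_right (by norm_num) ?_)
      have h3 : e * bt (x &&& 7) c ≤ e * 1 := Nat.mul_le_mul_left _ (bt_le _ _)
      have h4 : e * 1 + 2 * e * (2 ^ n - 1) = e * (2 ^ (n + 1) - 1) := by
        rw [pow_succ]
        obtain ⟨q, hq⟩ := Nat.exists_eq_add_of_le (hpos n)
        rw [hq]
        have h5 : 1 + q - 1 = q := by omega
        have h6 : (1 + q) * 2 - 1 = 2 * q + 1 := by omega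
        rw [h5, h6]; ring
      omega

theorem covV_spec {cs : List ℕ} (hb : 8 ≤ b) (hc : ∀ c ∈ cs, c < 2 ^ b) (n x : ℕ) (f : ℕ → ℕ) :
    covV (pk b id cs) (pk b (fun _ => 1) cs) n x (pk b f cs) =
      pk b (fun c => f c + cvr n x c) cs := by
  induction n generalizing x f with
  | zero => simp [covV, cvr]
  | succ n ih =>
    have h0 : covV (pk b id cs) (pk b (fun _ => 1) cs) (n + 1) x (pk b f cs) =
      covV (pk b id cs) (pk b (fun _ => 1) cs) n (x >>> 3)
        (pk b f cs + ((pk b id cs >>> (x &&& 7)) &&& pk b (fun _ => 1) cs)) := rfl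
    have hx : x &&& 7 < b := lt_of_le_of_lt (and7_le x) (by omega)
    rw [h0, mask_eq hc hx, pk_add, ih]
    exact pk_congr fun c _ => by rw [cvr, add_assoc]

/-- vectors used by the rules -/
theorem rule_vec {cs : List ℕ} {h : ℕ → ℕ} (hb : 8 ≤ b) (h7 : ∀ c ∈ cs, h c ≤ 7)
    (h4 : (pk b h cs) &&& (pk b (fun _ => 1) cs * 4) = 0) :
    (∀ c ∈ cs, h c ≤ 3) ∧
    (pk b h cs) &&& (pk b (fun _ => 1) cs) = pk b (fun c => h c &&& 1) cs ∧
    ((pk b h cs) >>> 1) &&& (pk b (fun _ => 1) cs) = pk b (fun c => (h c >>> 1) &&& 1) cs ∧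
    ((pk b h cs) &&& ((pk b h cs) >>> 1)) &&& (pk b (fun _ => 1) cs) =
      pk b (fun c => h c &&& ((h c >>> 1) &&& 1)) cs := by
  have hbig : 2 ^ 8 ≤ 2 ^ b := Nat.pow_le_pow_right (by norm_num) hb
  have hlt : ∀ c ∈ cs, h c < 2 ^ b := fun c hc => by have := h7 c hc; omega
  have e1 : ((pk b h cs) >>> 1) &&& (pk b (fun _ => 1) cs) =
      pk b (fun c => (h c >>> 1) &&& 1) cs := pk_shr_land hlt (by simp; omega)
  refine ⟨?_, pk_land hlt fun c _ => by omega, e1, ?_⟩
  · rw [pk_mul', pk_land hlt fun c _ => by omega] at h4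
    have h5 : pk b (fun c => h c &&& (1 * 4)) cs = pk b (fun _ => 0) cs := by
      rw [h4]
      have : ∀ l : List ℕ, pk b (fun _ => 0) l = 0 := by
        intro l
        induction l with
        | nil => rfl
        | cons c l ih => rw [pk_cons, ih]; simp
      rw [this]
    intro c hc
    have h6 := pk_inj (fun c hc => lt_of_le_of_lt Nat.and_le_left (hlt c hc))
      (fun c _ => by omega) h5 c hc
    have h8 : ∀ q ≤ 7, q &&& (1 * 4) = 0 → q ≤ 3 := by decide
    exact h8 _ (h7 c hc) h6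
  · rw [Nat.and_assoc, e1]
    refine pk_land hlt fun c hc => ?_
    exact lt_of_le_of_lt Nat.and_le_right (by omega)

end Pool.Agent.PB36
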