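import Pool.Agent.Lib_helper36.PB.Pass

/-!
# The invariant of the loop over the items
-/

namespace Pool.Agent.PB36

variable {b : ℕ}

theorem ev_add (u d u' d' : ℕ → ℕ) (e : ℕ) (cs ts : List ℕ) :
    ev (fun c => u c + u' c <<< e) (fun c => d c + d' c <<< e) cs ts =
      ev u d cs ts + 2 ^ e * ev u' d' cs ts := by
  induction cs generalizing ts with
  | nil => simp [ev]
  | cons c cs ih =>
    cases ts with
    | nil => simp [ev]
    | cons t ts =>
      rw [ev, ev, ev, ih ts]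
      simp only [Nat.shiftLeft_eq]
      ring

theorem ev_append {u d : ℕ → ℕ} {cs1 cs2 ts1 ts2 : List ℕ} (h : adm cs1 ts1) :
    ev u d (cs1 ++ cs2) (ts1 ++ ts2) = ev u d cs1 ts1 + ev u d cs2 ts2 := by
  induction cs1 generalizing ts1 with
  | nil =>
    cases ts1 with
    | nil => simp [ev]
    | cons => exact h.elim
  | cons c cs1 ih =>
    cases ts1 with
    | nil => exact h.elim
    | cons t ts1 =>
      simp only [List.cons_append, ev, ih h.2]
      ring

theorem adm_append {cs1 cs2 ts1 ts2 : List ℕ} (h : adm cs1 ts1) (h' : adm cs2 ts2) :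
    adm (cs1 ++ cs2) (ts1 ++ ts2) := by
  induction cs1 generalizing ts1 with
  | nil =>
    cases ts1 with
    | nil => exact h'
    | cons => exact h.elim
  | cons c cs1 ih =>
    cases ts1 with
    | nil => exact h.elim
    | cons t ts1 => exact ⟨h.1, ih h.2⟩

theorem adm_split {cs1 cs2 ts : List ℕ} (h : adm (cs1 ++ cs2) ts) :
    ∃ ts1 ts2, ts = ts1 ++ ts2 ∧ adm cs1 ts1 ∧ adm cs2 ts2 := by
  induction cs1 generalizing ts with
  | nil => exact ⟨[], ts, rfl, trivial, h⟩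
  | cons c cs1 ih =>
    cases ts with
    | nil => exact h.elim
    | cons t ts =>
      obtain ⟨ts1, ts2, rfl, h1, h2⟩ := ih h.2
      exact ⟨t :: ts1, ts2, rfl, ⟨h.1, h1⟩, h2⟩

theorem ev_le {u d : ℕ → ℕ} {cs ts : List ℕ} {B : ℕ} (hts : adm cs ts)
    (hu : ∀ c ∈ cs, u c ≤ B) (hd : ∀ c ∈ cs, d c ≤ B) : ev u d cs ts ≤ (cs.map nc).sum * B := by
  induction cs generalizing ts with
  | nil => simp [ev]
  | cons c cs ih =>
    cases ts with
    | nil => exact hts.elim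
    | cons t ts =>
      have h1 := ih hts.2 (fun c hc => hu c (by simp [hc])) fun c hc => hd c (by simp [hc])
      have h2 : t * u c ≤ t * B := Nat.mul_le_mul_left _ (hu c (by simp))
      have h3 : (nc c - t) * d c ≤ (nc c - t) * B := Nat.mul_le_mul_left _ (hd c (by simp))
      have h4 : t * B + (nc c - t) * B = nc c * B := by
        rw [← add_mul, Nat.add_sub_cancel' hts.1]
      rw [ev, List.map_cons, List.sum_cons, add_mul]
      omega

/-- invariant: the state describes tests for all the traces, and if the trace `τ` passes one of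
the tests, then `G` holds -/
structure Inv (b : ℕ) (cs τ : List ℕ) (G : Prop) (off U D K TM TP : ℕ) : Prop where
  ex : ∃ u d : ℕ → ℕ, U = pk b u cs ∧ D = pk b d cs ∧ (∀ c ∈ cs, u c < 2 ^ off) ∧
    (∀ c ∈ cs, d c < 2 ^ off) ∧
    (∀ ts, adm cs ts → K + ev u d cs ts < 2 ^ off ∧ (K + ev u d cs ts) &&& TM ≤ TP) ∧
    ((TP - ((K + ev u d cs τ) &&& TM)) &&& TP ≠ 0 → G)
  tm : TM < 2 ^ off
  tp : TP < 2 ^ off
  hoff : off ≤ b

theorem sub_and_pow {w x : ℕ} (hx : x < 2 ^ w) (h : (2 ^ w - x) &&& 2 ^ w ≠ 0) : x = 0 := by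
  by_contra hc
  apply h
  apply Nat.eq_of_testBit_eq
  intro i
  rw [Nat.testBit_and, Nat.testBit_two_pow, Nat.zero_testBit]
  by_cases hi : w = i
  · subst hi
    rw [Nat.testBit_lt_two_pow (by omega)]
    rfl
  · simp [hi]

theorem Inv.add {cs τ : List ℕ} {G : Prop} {off U D K TM TP : ℕ}
    (h : Inv b cs τ G off U D K TM TP) (hτ : adm cs τ) {w1 k t : ℕ} {u' d' : ℕ → ℕ}
    (hoff : off + 1 + w1 ≤ b) (hu' : ∀ c ∈ cs, u' c < 2 ^ (w1 + 1))
    (hd' : ∀ c ∈ cs, d' c < 2 ^ (w1 + 1))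
    (hk : ∀ ts, adm cs ts → k + ev u' d' cs ts < 2 ^ (w1 + 1)) (ht : t < 2 ^ w1)
    (hG : (k + ev u' d' cs τ) &&& t = 0 → G) :
    Inv b cs τ G (off + 1 + w1) (U + pk b u' cs <<< off) (D + pk b d' cs <<< off)
      (K + k <<< off) (TM + t <<< off) (TP + 1 <<< (off + w1)) := by
  obtain ⟨⟨u, d, rfl, rfl, hu, hd, hK, hGG⟩, htm, htp, hb⟩ := h
  have hpow : 2 ^ (off + 1 + w1) = 2 ^ off * 2 ^ (w1 + 1) := by rw [← pow_add]; ring_nf
  have big : ∀ x y : ℕ, x < 2 ^ off → y < 2 ^ (w1 + 1) → x + y <<< off < 2 ^ (off + 1 + w1) := by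
    intro x y hx hy
    rw [hpow, Nat.shiftLeft_eq]
    calc x + y * 2 ^ off < 2 ^ off + y * 2 ^ off := by omega
      _ = 2 ^ off * (y + 1) := by ring
      _ ≤ _ := Nat.mul_le_mul_left _ hy
  have hone : (1 : ℕ) <<< (off + w1) = (2 ^ w1) <<< off := by
    rw [Nat.shiftLeft_eq, Nat.shiftLeft_eq, pow_add]; ring
  have hw : 2 ^ w1 < 2 ^ (w1 + 1) := Nat.pow_lt_pow_right (by norm_num) (by omega)
  have hev : ∀ ts, K + k <<< off + ev (fun c => u c + u' c <<< off) (fun c => d c + d' c <<< off)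
      cs ts = (K + ev u d cs ts) + 2 ^ off * (k + ev u' d' cs ts) := by
    intro ts
    rw [ev_add, Nat.shiftLeft_eq]; ring
  have hTM : TM + t <<< off = TM + 2 ^ off * t := by rw [Nat.shiftLeft_eq, mul_comm]
  have hTP : TP + 1 <<< (off + w1) = TP + 2 ^ off * 2 ^ w1 := by
    rw [hone, Nat.shiftLeft_eq, mul_comm]
  have hand : ∀ ts, adm cs ts → (K + k <<< off +
      ev (fun c => u c + u' c <<< off) (fun c => d c + d' c <<< off) cs ts) &&& (TM + t <<< off) =
      ((K + ev u d cs ts) &&& TM) + 2 ^ off * ((k + ev u' d' cs ts) &&& t) := by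
    intro ts hts
    rw [hev, hTM, land_two (hK ts hts).1 htm]
  have hlt : ∀ ts, (k + ev u' d' cs ts) &&& t < 2 ^ w1 := fun ts =>
    lt_of_le_of_lt Nat.and_le_right ht
  refine ⟨⟨fun c => u c + u' c <<< off, fun c => d c + d' c <<< off, ?_, ?_, ?_, ?_, ?_, ?_⟩,
    big _ _ htm (ht.trans hw), ?_, hoff⟩
  · rw [pk_shl, pk_add]
  · rw [pk_shl, pk_add]
  · exact fun c hc => big _ _ (hu c hc) (hu' c hc)
  · exact fun c hc => big _ _ (hd c hc) (hd' c hc)
  · intro ts hts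
    refine ⟨?_, ?_⟩
    · rw [hev]
      have := big _ _ (hK ts hts).1 (hk ts hts)
      rwa [Nat.shiftLeft_eq, mul_comm (k + _)] at this
    · rw [hand ts hts, hTP]
      exact Nat.add_le_add (hK ts hts).2 (Nat.mul_le_mul_left _ (hlt ts).le)
  · intro hne
    rw [hand τ hτ, hTP] at hne
    have h1 : TP + 2 ^ off * 2 ^ w1 -
        (((K + ev u d cs τ) &&& TM) + 2 ^ off * ((k + ev u' d' cs τ) &&& t)) =
        (TP - ((K + ev u d cs τ) &&& TM)) + 2 ^ off * (2 ^ w1 - ((k + ev u' d' cs τ) &&& t)) := by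
      have h2 := (hK τ hτ).2
      have h3 : 2 ^ off * ((k + ev u' d' cs τ) &&& t) ≤ 2 ^ off * 2 ^ w1 :=
        Nat.mul_le_mul_left _ (hlt τ).le
      rw [Nat.mul_sub]
      omega
    rw [h1, land_two (by omega) htp] at hne
    by_cases h4 : (TP - ((K + ev u d cs τ) &&& TM)) &&& TP = 0
    · rw [h4, zero_add] at hne
      have h5 : (2 ^ w1 - ((k + ev u' d' cs τ) &&& t)) &&& 2 ^ w1 ≠ 0 := by
        intro h6
        rw [h6] at hne
        simp at hne
      exact hG (sub_and_pow (hlt τ) h5)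
    · exact hGG h4
  · rw [hone]
    exact big _ _ htp hw

/-- the final check -/
theorem lastB_spec {cs τ : List ℕ} {G : Prop} {off U D K TM TP r : ℕ} (hb : 12 ≤ b)
    (hc : ∀ c ∈ cs, c < 2 ^ b) (hr : r ≤ cs.length) (hτ : adm cs τ)
    (h : Inv b cs τ G off U D K TM TP) (hoff : off + 1 ≤ b)
    (hl : lastB b (2 ^ b - 1) cs.length r (pk b id cs >>> 8) U D K TM TP = true) : G := by
  obtain ⟨⟨u, d, rfl, rfl, hu, hd, hK, hGG⟩, htm, htp, -⟩ := h
  have hle : 2 ^ off ≤ 2 ^ (b - 1) := Nat.pow_le_pow_right (by norm_num) (by omega)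
  have hle' : 2 ^ off ≤ 2 ^ b := Nat.pow_le_pow_right (by norm_num) (by omega)
  obtain ⟨cs1, cs2, hcs, h1, h2⟩ : ∃ cs1 cs2 : List ℕ, cs = cs1 ++ cs2 ∧
      cs1.length = cs.length - r ∧ cs2.length = r :=
    ⟨cs.take (cs.length - r), cs.drop (cs.length - r), (List.take_append_drop _ _).symm,
      by simp, by simp; omega⟩
  have e1 : lastB b (2 ^ b - 1) cs.length r (pk b id cs >>> 8) (pk b u cs) (pk b d cs) K TM TP =
    passW b (2 ^ b - 1) (fun nv U D O L =>
      treeL b (2 ^ b - 1) (finB ((TP + 1 <<< (b - 1)) * O) (O <<< (b - 1)) (TM * O) O L) r nv U D 0)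
      (cs.length - r) (pk b id cs >>> 8) (pk b u cs) (pk b d cs) b 1 K := rfl
  have e2 : pk b (fun _ => 1) [K] = 1 := by simp [pk]
  have e3 : pk b id [K] = K := by simp [pk]
  have e4 : b * [K].length = b := by simp
  have hu' : ∀ c ∈ cs1 ++ cs2, u c < 2 ^ b := fun c hc => (hu c (hcs ▸ hc)).trans_le hle'
  have hd' : ∀ c ∈ cs1 ++ cs2, d c < 2 ^ b := fun c hc => (hd c (hcs ▸ hc)).trans_le hle'
  have e5 := passW_spec (b := b) (fun nv U D O L =>
      treeL b (2 ^ b - 1) (finB ((TP + 1 <<< (b - 1)) * O) (O <<< (b - 1)) (TM * O) O L) r nv U D 0)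
      cs1 cs2 [K] hb (hcs ▸ hc) hu' hd'
  rw [e2, e3, e4, ← hcs, h1] at e5
  rw [e1, e5] at hl
  obtain ⟨τ1, τ2, rfl, hτ1, hτ2⟩ := adm_split (hcs ▸ hτ)
  rw [← h2] at hl
  have e6 := treeL_spec hb (fun c hc' => hc c (by rw [hcs]; simp [hc']))
    (fun c hc' => hu' c (by simp [hc'])) (fun c hc' => hd' c (by simp [hc'])) hl τ2 hτ2
  have key : ∀ v ∈ vs u d cs1 [K], ∃ ts, adm cs ts ∧ v + ev u d cs2 τ2 = K + ev u d cs ts := by
    intro v hv
    obtain ⟨x, hx, ts, hts, rfl⟩ := mem_vs.1 hv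
    rw [List.mem_singleton] at hx
    subst hx
    refine ⟨ts ++ τ2, by rw [hcs]; exact adm_append hts hτ2, ?_⟩
    rw [hcs, ev_append hts, add_assoc]
  rw [zero_add] at e6
  have e7 := finB_spec (by omega) (htp.trans_le hle) (htm.trans_le hle')
    (fun v hv => by
      obtain ⟨ts, hts, he⟩ := key v hv
      rw [he]
      exact (hK ts hts).1.trans_le hle')
    (fun v hv => by
      obtain ⟨ts, hts, he⟩ := key v hv
      rw [he]
      exact (hK ts hts).2) e6
  apply hGG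
  have e8 := e7 (K + ev u d cs1 τ1) (mem_vs.2 ⟨K, by simp, τ1, hτ1, rfl⟩)
  have e9 : K + ev u d cs1 τ1 + ev u d cs2 τ2 = K + ev u d cs (τ1 ++ τ2) := by
    rw [hcs, ev_append hτ1, add_assoc]
  rwa [e9] at e8

end Pool.Agent.PB36
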