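import Pool.Agent.Lib_helper36.PB.Sound
import Pool.Agent.Lib_helper22.PB.Tot
import Pool.Agent.Lib_helper36.PB.D14A
import Pool.Agent.Lib_helper36.PB.D14B
import Pool.Agent.Lib_helper36.PB.D14C
import Pool.Agent.Lib_helper36.PB.D14D

/-!
# Every family of `n`-sets without property `B(4)` has at least 15 members
-/

namespace Pool.Agent.PB36

open Finset

theorem ok_all : Ok 14 db14 0 5589 :=
  ((g14_1960.trans g14_3208).trans g14_4476).trans g14_5589

theorem dead_all (S : Sys 14) : ∀ i < 5589, Dead S (getR db14 i) := by
  intro i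
  induction i using Nat.strong_induction_on with
  | _ i ih =>
    intro hi
    obtain ⟨d, hd⟩ := ok_all i (Nat.zero_le _) hi
    exact chkR_spec le_rfl (fun rid hrid => ih rid hrid (hrid.trans hi)) hd

/-- the configuration of the root -/
def rootX {m : ℕ} (R : Finset (Fin m)) (i : ℕ) : Finset (Fin m) := if i = 0 then R else ∅

theorem pat_root {m : ℕ} (R : Finset (Fin m)) (e : Fin m) :
    pat (rootX R) e = if e ∈ R then 1 else 0 := by
  rw [pat, bits, sum_range_succ']
  have : ∀ i ∈ range 7, (if decide (e ∈ rootX R (i + 1)) = true then 2 ^ (i + 1) else 0) = 0 := by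
    intro i _
    simp [rootX]
  rw [sum_eq_zero this]
  simp [rootX]

theorem prf_root {m : ℕ} (R : Finset (Fin m)) (w : ℕ) :
    prf w (rootX R) = R.card * 2 ^ w + (m - R.card) := by
  have h1 : ∀ e, 2 ^ (w * pat (rootX R) e) = if e ∈ R then 2 ^ w else 1 := by
    intro e
    rw [pat_root]
    split_ifs <;> simp
  rw [prf, sum_congr rfl fun e _ => h1 e, sum_ite, sum_const, sum_const, smul_eq_mul, smul_eq_mul,
    mul_one]
  congr 1
  · congr 1
    congr 1
    ext e; simp
  · have h2 := card_filter_add_card_filter_not (s := (univ : Finset (Fin m))) (fun e => e ∈ R)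
    have h3 : (univ.filter fun e => e ∈ R) = R := by ext e; simp
    rw [h3, card_univ, Fintype.card_fin] at h2
    omega

/-- a root record -/
theorem root_false (S : Sys 14) {i : ℕ} (hi : i < 5589) {p : ℕ} (hp : getR db14 i = p)
    (h1 : (p >>> 1) &&& 7 = 1) (h2 : (p &&& 65535) >>> 7 = 0)
    (h3 : S.R.card * 2 ^ ((p >>> 4) &&& 7) + (14 - S.R.card) = p >>> 16) : False := by
  obtain ⟨-, h4⟩ := dead_all S i hi (rootX S.R) (fun j hj => by
    rw [hp, h1] at hj
    rw [rootX, if_neg (by omega)]) (by rw [hp, prf_root, h3])
  refine h4 ⟨fun j hj => ?_, fun _ => rfl, fun j hj => ?_⟩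
  · rw [hp, h1] at hj
    obtain rfl : j = 0 := by omega
    exact S.hR
  · rw [hp, h2, Nat.zero_testBit] at hj
    exact absurd hj (by simp)

theorem cov_single {m : ℕ} (R : Finset (Fin m)) (e : Fin m) : cov [R] e = if e ∈ R then 1 else 0 := by
  simp [cov, List.countP_cons]

theorem root3 (S : Sys 14) (h : S.R.card = 3) : False :=
  root_false S (i := 5588) (by norm_num) (p := 3866691) (by decide +kernel) (by decide) (by decide)
    (by rw [h]; decide)

theorem root4 (S : Sys 14) (h : S.R.card = 4) : False :=
  root_false S (i := 5338) (by norm_num) (p := 4849731) (by decide +kernel) (by decide) (by decide)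
    (by rw [h]; decide)

theorem root5 (S : Sys 14) (h : S.R.card = 5) : False :=
  root_false S (i := 3185) (by norm_num) (p := 5832771) (by decide +kernel) (by decide) (by decide)
    (by rw [h]; decide)

theorem root6 (S : Sys 14) (h : S.R.card = 6) : False :=
  root_false S (i := 2157) (by norm_num) (p := 6815811) (by decide +kernel) (by decide) (by decide)
    (by rw [h]; decide)

theorem root7 (S : Sys 14) (h : S.R.card = 7) : False :=
  root_false S (i := 278) (by norm_num) (p := 4128819) (by decide +kernel) (by decide) (by decide)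
    (by rw [h]; decide)

theorem root8 (S : Sys 14) (h : S.R.card = 8) : False :=
  root_false S (i := 209) (by norm_num) (p := 8781891) (by decide +kernel) (by decide) (by decide)
    (by rw [h]; decide)

theorem root9 (S : Sys 14) (h : S.R.card = 9) : False :=
  root_false S (i := 12) (by norm_num) (p := 9764931) (by decide +kernel) (by decide) (by decide)
    (by rw [h]; decide)

theorem root10 (S : Sys 14) (h : S.R.card = 10) : False :=
  root_false S (i := 3) (by norm_num) (p := 10747971) (by decide +kernel) (by decide) (by decide)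
    (by rw [h]; decide)

theorem root11 (S : Sys 14) (h : S.R.card = 11) : False :=
  root_false S (i := 2) (by norm_num) (p := 11731011) (by decide +kernel) (by decide) (by decide)
    (by rw [h]; decide)

theorem root12 (S : Sys 14) (h : S.R.card = 12) : False :=
  root_false S (i := 1) (by norm_num) (p := 12714051) (by decide +kernel) (by decide) (by decide)
    (by rw [h]; decide)

theorem root13 (S : Sys 14) (h : S.R.card = 13) : False :=
  root_false S (i := 0) (by norm_num) (p := 13697091) (by decide +kernel) (by decide) (by decide)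
    (by rw [h]; decide)

/-- there is no minimal system on 14 edges -/
theorem no_sys (S : Sys 14) : False := by
  have h3 : 3 ≤ S.R.card := size3 S S.hR
  have h14 : S.R.card ≤ 14 := by
    have := card_le_univ S.R
    simpa using this
  rcases (by omega : S.R.card = 3 ∨ S.R.card = 4 ∨ S.R.card = 5 ∨ S.R.card = 6 ∨ S.R.card = 7 ∨
    S.R.card = 8 ∨ S.R.card = 9 ∨ S.R.card = 10 ∨ S.R.card = 11 ∨ S.R.card = 12 ∨
    S.R.card = 13 ∨ S.R.card = 14) with h | h | h | h | h | h | h | h | h | h | h | h
  · exact root3 S h
  · exact root4 S h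
  · exact root5 S h
  · exact root6 S h
  · exact root7 S h
  · exact root8 S h
  · exact root9 S h
  · exact root10 S h
  · exact root11 S h
  · exact root12 S h
  · exact root13 S h
  · have hR : S.R = univ := by
      rw [← card_eq_iff_eq_univ, Fintype.card_fin]; exact h
    refine rule2 S [S.R] (fun T hT => ?_) (fun e => ?_) fun e => ?_
    · rw [List.mem_singleton] at hT
      rw [hT]; exact Or.inl S.hR
    · rw [cov_single, hR, if_pos (mem_univ e)]
    · rw [cov_single, hR, if_pos (mem_univ e)]
      norm_num

/-- **Every family of `n`-sets without property `B(4)` has at least 15 members.** -/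
theorem fifteen (n : ℕ) (hn : 1 ≤ n) (F : Finset (Finset ℕ)) (hF : ∀ A ∈ F, A.card = n)
    (hB : ¬ PropB65.HasB 4 F) : 15 ≤ F.card := by
  by_contra hcon
  obtain ⟨w, hw, hc, hint⟩ := reduction (m := 14) hn hF (by omega) hB
  have htot := PB22.tot_gt hw le_rfl
  obtain ⟨R, -, hR⟩ := exists_max_image (univ : Finset (Finset (Fin 14))) w univ_nonempty
  have hpos : 0 < w R := by
    by_contra hn
    have : tot w ≤ 0 := sum_nonpos fun T _ => (hR T (mem_univ T)).trans (not_lt.1 hn)
    linarith
  exact no_sys ⟨w, hw, hc, hint, htot, R, mem_supp.2 hpos, fun T => hR T (mem_univ T)⟩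

end Pool.Agent.PB36
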