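
namespace Pool.Agent.PB36

/-- lists of numbers -/
inductive NL | nil | cons (n : Nat) (t : NL)

end Pool.Agent.PB36
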