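import Pool.Agent.Lib_helper36.PB.Chk

/-!
# Collecting the checked records
-/

namespace Pool.Agent.PB36

/-- the records `a ≤ id < b` are accepted -/
def Ok (m : Nat) (db : NL) (a b : Nat) : Prop :=
  ∀ i, a ≤ i → i < b → ∃ d, chkR m db i d = true

theorem andB_left {x y : Bool} (h : andB x y = true) : x = true := by
  cases x
  · exact h
  · rfl

theorem andB_right {x y : Bool} (h : andB x y = true) : y = true := by
  cases x
  · exact Bool.noConfusion (show false = true from h)
  · exact h

theorem Ok.refl (m : Nat) (db : NL) (a : Nat) : Ok m db a a :=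
  fun i h1 h2 => absurd h2 (by omega)

theorem Ok.trans {m : Nat} {db : NL} {a b c : Nat} (h : Ok m db a b) (h' : Ok m db b c) :
    Ok m db a c := fun i h1 h2 => by
  by_cases h3 : i < b
  · exact h i h1 h3
  · exact h' i (by omega) h2

theorem Ok.one {m : Nat} {db : NL} {a b d : Nat} (h : Ok m db a b)
    (hd : chkR m db b d = true) : Ok m db a (b + 1) := fun i h1 h2 => by
  by_cases h3 : i < b
  · exact h i h1 h3
  · have : i = b := by omega
    exact ⟨d, this ▸ hd⟩

/-- one record more -/
theorem Ok.ext1 {m : Nat} {db : NL} {a b : Nat} (h : Ok m db a b) (d0 : Nat)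
    (hd : chkL m db (NL.cons d0 NL.nil) b = true) : Ok m db a (b + 1) :=
  h.one (andB_left (x := chkR m db b d0) hd)

/-- four records more -/
theorem Ok.ext4 {m : Nat} {db : NL} {a b : Nat} (h : Ok m db a b) (d0 d1 d2 d3 : Nat)
    (hd : chkL m db (NL.cons d0 (NL.cons d1 (NL.cons d2 (NL.cons d3 NL.nil)))) b = true) :
    Ok m db a (b + 4) := by
  have h1 : andB (chkR m db b d0) (andB (chkR m db (b + 1) d1) (andB (chkR m db (b + 2) d2)
    (andB (chkR m db (b + 3) d3) true))) = true := hd
  have h2 := h.one (andB_left h1)
  have h3 := h2.one (andB_left (andB_right h1))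
  have h4 := h3.one (andB_left (andB_right (andB_right h1)))
  exact h4.one (andB_left (andB_right (andB_right (andB_right h1))))

end Pool.Agent.PB36
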