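import Pool.Agent.Lib_helper36.PB.Vec
import Pool.Agent.Lib_helper36.PB.Chk

/-!
# The pass over all traces
-/

namespace Pool.Agent.PB36

theorem andB_eq {x y : Bool} : andB x y = true ↔ x = true ∧ y = true := by
  cases x <;> cases y <;> simp [andB]

theorem notB_eq {x : Bool} : notB x = true ↔ x = false := by
  cases x <;> simp [notB]

theorem nbeq {x y : ℕ} : Nat.beq x y = true ↔ x = y := by rw [Nat.beq_eq]

theorem nbne {x y : ℕ} : Nat.beq x y = false ↔ x ≠ y := by
  constructor
  · exact Nat.ne_of_beq_eq_false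
  · intro h
    cases hb : Nat.beq x y
    · rfl
    · exact absurd (nbeq.1 hb) h

theorem nble {x y : ℕ} : Nat.ble x y = true ↔ x ≤ y := by rw [Nat.ble_eq]

theorem nblf {x y : ℕ} : Nat.ble x y = false ↔ y < x := by
  constructor
  · intro h
    by_contra hc
    rw [nble.2 (not_lt.1 hc)] at h
    cases h
  · intro h
    cases hb : Nat.ble x y
    · rfl
    · exact absurd (nble.1 hb) (not_le.2 h)

/-- size of a cell -/
def nc (c : ℕ) : ℕ := (c >>> 8) &&& 15

/-- admissible traces -/
def adm : List ℕ → List ℕ → Prop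
  | [], [] => True
  | c :: cs, t :: ts => t ≤ nc c ∧ adm cs ts
  | _, _ => False

/-- value of a trace -/
def ev (u d : ℕ → ℕ) : List ℕ → List ℕ → ℕ
  | c :: cs, t :: ts => (t * u c + (nc c - t) * d c) + ev u d cs ts
  | _, _ => 0

/-- list of the values of all traces -/
def vs (u d : ℕ → ℕ) : List ℕ → List ℕ → List ℕ
  | [], l => l
  | c :: cs, l => vs u d cs ((List.range (nc c + 1)).flatMap fun j =>
      l.map fun x => x + (j * u c + (nc c - j) * d c))

theorem mem_vs {u d : ℕ → ℕ} {cs l : List ℕ} {y : ℕ} :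
    y ∈ vs u d cs l ↔ ∃ x ∈ l, ∃ ts, adm cs ts ∧ y = x + ev u d cs ts := by
  induction cs generalizing l with
  | nil =>
    constructor
    · intro h
      exact ⟨y, h, [], trivial, by simp [ev]⟩
    · rintro ⟨x, hx, ts, hts, rfl⟩
      cases ts with
      | nil => simpa [ev, vs] using hx
      | cons t ts => exact hts.elim
  | cons c cs ih =>
    rw [vs, ih]
    constructor
    · rintro ⟨x, hx, ts, hts, rfl⟩
      simp only [List.mem_flatMap, List.mem_range, List.mem_map] at hx
      obtain ⟨j, hj, x, hx, rfl⟩ := hx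
      exact ⟨x, hx, j :: ts, ⟨by omega, hts⟩, by rw [ev]; ring⟩
    · rintro ⟨x, hx, ts, hts, rfl⟩
      cases ts with
      | nil => exact hts.elim
      | cons t ts =>
        refine ⟨x + (t * u c + (nc c - t) * d c), ?_, ts, hts.2, by rw [ev]; ring⟩
        simp only [List.mem_flatMap, List.mem_range, List.mem_map]
        exact ⟨t, Nat.lt_succ_of_le hts.1, x, hx, rfl⟩

variable {b : ℕ}

theorem pk_one_len {l l' : List ℕ} (h : l.length = l'.length) :
    pk b (fun _ => 1) l = pk b (fun _ => 1) l' := by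
  induction l generalizing l' with
  | nil =>
    cases l' with
    | nil => rfl
    | cons => simp at h
  | cons c l ih =>
    cases l' with
    | nil => simp at h
    | cons c' l' => rw [pk_cons, pk_cons, ih (by simpa using h)]

theorem pk_map (f g : ℕ → ℕ) (l : List ℕ) : pk b f (l.map g) = pk b (fun x => f (g x)) l := by
  induction l with
  | nil => rfl
  | cons c l ih => rw [List.map_cons, pk_cons, pk_cons, ih]

theorem repN_spec (l l' : List ℕ) (n : ℕ) (h : l'.length = (n + 1) * l.length) :
    repN (b * l.length) (pk b (fun _ => 1) l) n = pk b (fun _ => 1) l' := by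
  induction n generalizing l' with
  | zero => exact pk_one_len (by simpa using h.symm)
  | succ n ih =>
    have h1 : repN (b * l.length) (pk b (fun _ => 1) l) (n + 1) =
      pk b (fun _ => 1) l + (repN (b * l.length) (pk b (fun _ => 1) l) n) <<< (b * l.length) := rfl
    have h2 : ∃ l₂ : List ℕ, l₂.length = (n + 1) * l.length :=
      ⟨List.replicate ((n + 1) * l.length) 0, by simp⟩
    obtain ⟨l₂, hl₂⟩ := h2
    rw [h1, ih l₂ hl₂, Nat.shiftLeft_eq, mul_comm _ (2 ^ _), ← pk_append]
    refine pk_one_len ?_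
    rw [List.length_append, hl₂, h]
    ring

theorem pk_addc (l : List ℕ) (c : ℕ) :
    pk b id l + c * pk b (fun _ => 1) l = pk b id (l.map fun x => x + c) := by
  rw [pk_mul, pk_add, pk_map]
  simp

theorem pk_addc' (l : List ℕ) (c : ℕ) :
    pk b id l + c * pk b (fun _ => 1) l = pk b (fun x => x + c) l := by
  rw [pk_mul, pk_add]
  simp

/-- the inner function of `horG` -/
noncomputable def horH (s O L u d n nj acc : ℕ) : ℕ :=
  @Nat.rec (fun _ => Nat → Nat → Nat)
    (fun nj acc => Nat.add (Nat.shiftLeft acc s) (Nat.add L (Nat.mul (Nat.mul nj d) O)))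
    (fun j ih nj acc => ih (Nat.succ nj) (Nat.add (Nat.shiftLeft acc s)
      (Nat.add L (Nat.mul (Nat.add (Nat.mul (Nat.succ j) u) (Nat.mul nj d)) O)))) n nj acc

theorem horH_spec (l t : List ℕ) (u d j nj : ℕ) :
    horH (b * l.length) (pk b (fun _ => 1) l) (pk b id l) u d j nj (pk b id t) =
      pk b id ((List.range (j + 1)).flatMap
        (fun i => l.map fun x => x + (i * u + (j + nj - i) * d)) ++ t) := by
  induction j generalizing nj t with
  | zero =>
    have h1 : horH (b * l.length) (pk b (fun _ => 1) l) (pk b id l) u d 0 nj (pk b id t) =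
      (pk b id t) <<< (b * l.length) + (pk b id l + (nj * d) * pk b (fun _ => 1) l) := rfl
    rw [h1, pk_addc, Nat.shiftLeft_eq, add_comm, mul_comm _ (2 ^ _)]
    have h2 : (b * l.length) = b * (l.map fun x => x + nj * d).length := by simp
    rw [h2, ← pk_append]
    simp
  | succ j ih =>
    have h1 : horH (b * l.length) (pk b (fun _ => 1) l) (pk b id l) u d (j + 1) nj (pk b id t) =
      horH (b * l.length) (pk b (fun _ => 1) l) (pk b id l) u d j (nj + 1)
        ((pk b id t) <<< (b * l.length) +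
          (pk b id l + ((j + 1) * u + nj * d) * pk b (fun _ => 1) l)) := rfl
    have h2 : (b * l.length) = b * (l.map fun x => x + ((j + 1) * u + nj * d)).length := by simp
    have h3 : (pk b id t) <<< (b * l.length) +
          (pk b id l + ((j + 1) * u + nj * d) * pk b (fun _ => 1) l) =
        pk b id ((l.map fun x => x + ((j + 1) * u + nj * d)) ++ t) := by
      rw [pk_addc, Nat.shiftLeft_eq, add_comm, mul_comm _ (2 ^ _), pk_append, ← h2]
    rw [h1, h3, ih, List.range_succ (n := j + 1), List.flatMap_append, List.append_assoc]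
    have h4 : j + (nj + 1) = j + 1 + nj := by ring
    have h5 : j + 1 + nj - (j + 1) = nj := by omega
    simp [h4, h5]

theorem horW_spec (l : List ℕ) (u d n : ℕ) :
    horW (b * l.length) (pk b (fun _ => 1) l) (pk b id l) u d n =
      pk b id ((List.range (n + 1)).flatMap fun i => l.map fun x => x + (i * u + (n - i) * d)) := by
  have hG : horG (b * l.length) (pk b (fun _ => 1) l) (pk b id l) u d n =
      pk b id ((List.range (n + 1)).flatMap
        fun i => l.map fun x => x + (i * u + (n - i) * d)) := by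
    have e : horG (b * l.length) (pk b (fun _ => 1) l) (pk b id l) u d n =
      horH (b * l.length) (pk b (fun _ => 1) l) (pk b id l) u d n 0 0 := rfl
    have := horH_spec (b := b) l [] u d n 0
    rw [e]
    simpa using this
  by_cases hn : n = 1
  · subst hn
    have h1 : horW (b * l.length) (pk b (fun _ => 1) l) (pk b id l) u d 1 =
      (pk b id l + u * pk b (fun _ => 1) l) <<< (b * l.length) +
        (pk b id l + d * pk b (fun _ => 1) l) := rfl
    rw [h1, pk_addc, pk_addc, Nat.shiftLeft_eq, add_comm, mul_comm _ (2 ^ _)]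
    have h2 : (b * l.length) = b * (l.map fun x => x + d).length := by simp
    rw [h2, ← pk_append]
    simp [List.range_succ]
  · have h1 : horW (b * l.length) (pk b (fun _ => 1) l) (pk b id l) u d n =
      horG (b * l.length) (pk b (fun _ => 1) l) (pk b id l) u d n := by
      have : Nat.beq n 1 = false := nbne.2 hn
      simp only [horW]
      rw [this]
    rw [h1, hG]

theorem nv_land {c : ℕ} {cs : List ℕ} (hc : c < 2 ^ b) (hb : 12 ≤ b) :
    (pk b id (c :: cs) >>> 8) &&& 15 = nc c := by
  have h1 : pk b id (c :: cs) = c + 2 ^ b * pk b id cs := rfl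
  rw [h1, nc]
  apply Nat.eq_of_testBit_eq
  intro j
  have h15 : (15 : ℕ) = 2 ^ 4 - 1 := by norm_num
  rw [Nat.testBit_and, Nat.testBit_and, h15, Nat.testBit_two_pow_sub_one, Nat.testBit_shiftRight,
    Nat.testBit_shiftRight, add_comm c, Nat.testBit_two_pow_mul_add _ hc]
  by_cases hj : j < 4
  · rw [if_pos (by omega)]
  · simp [hj]

theorem nv_shr {c : ℕ} {cs : List ℕ} (hc : c < 2 ^ b) :
    (pk b id (c :: cs) >>> 8) >>> b = pk b id cs >>> 8 := by
  rw [← Nat.shiftRight_add, add_comm, Nat.shiftRight_add, pk_cons_shr (f := id) c hc]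

theorem passW_spec (fin : ℕ → ℕ → ℕ → ℕ → ℕ → Bool) {u d : ℕ → ℕ} (cs1 cs2 l : List ℕ)
    (hb : 12 ≤ b) (hc : ∀ c ∈ cs1 ++ cs2, c < 2 ^ b)
    (hu : ∀ c ∈ cs1 ++ cs2, u c < 2 ^ b) (hd : ∀ c ∈ cs1 ++ cs2, d c < 2 ^ b) :
    passW b (2 ^ b - 1) fin cs1.length (pk b id (cs1 ++ cs2) >>> 8) (pk b u (cs1 ++ cs2))
        (pk b d (cs1 ++ cs2)) (b * l.length) (pk b (fun _ => 1) l) (pk b id l) =
      fin (pk b id cs2 >>> 8) (pk b u cs2) (pk b d cs2) (pk b (fun _ => 1) (vs u d cs1 l))
        (pk b id (vs u d cs1 l)) := by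
  induction cs1 generalizing l with
  | nil => rfl
  | cons c cs1 ih =>
    have h0 : c ∈ (c :: cs1) ++ cs2 := by simp
    have h1 : passW b (2 ^ b - 1) fin (c :: cs1).length (pk b id ((c :: cs1) ++ cs2) >>> 8)
        (pk b u ((c :: cs1) ++ cs2)) (pk b d ((c :: cs1) ++ cs2)) (b * l.length)
        (pk b (fun _ => 1) l) (pk b id l) =
      passW b (2 ^ b - 1) fin cs1.length ((pk b id ((c :: cs1) ++ cs2) >>> 8) >>> b)
        ((pk b u ((c :: cs1) ++ cs2)) >>> b) ((pk b d ((c :: cs1) ++ cs2)) >>> b)
        (b * l.length * (((pk b id ((c :: cs1) ++ cs2) >>> 8) &&& 15) + 1))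
        (repN (b * l.length) (pk b (fun _ => 1) l) ((pk b id ((c :: cs1) ++ cs2) >>> 8) &&& 15))
        (horW (b * l.length) (pk b (fun _ => 1) l) (pk b id l)
          ((pk b u ((c :: cs1) ++ cs2)) &&& (2 ^ b - 1))
          ((pk b d ((c :: cs1) ++ cs2)) &&& (2 ^ b - 1))
          ((pk b id ((c :: cs1) ++ cs2) >>> 8) &&& 15)) := rfl
    rw [h1, List.cons_append, nv_land (hc c h0) hb, nv_shr (hc c h0),
      pk_cons_shr c (hu c h0), pk_cons_shr c (hd c h0), pk_cons_land c (hu c h0),
      pk_cons_land c (hd c h0), horW_spec]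
    set l' := (List.range (nc c + 1)).flatMap fun i =>
      l.map fun x => x + (i * u c + (nc c - i) * d c) with hl'
    have hlen : l'.length = (nc c + 1) * l.length := by
      simp [hl', List.length_flatMap, List.map_const', List.sum_replicate]
    rw [repN_spec l l' _ hlen]
    have h2 : b * l.length * (nc c + 1) = b * l'.length := by rw [hlen]; ring
    rw [h2, ih l' (fun c hc' => hc c (by simp at hc' ⊢; tauto))
      (fun c hc' => hu c (by simp at hc' ⊢; tauto))
      (fun c hc' => hd c (by simp at hc' ⊢; tauto))]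
    rfl

theorem valL_spec {f : ℕ → Bool} {u d n x : ℕ} (h : valL f u d n (x + n * d) = true) :
    ∀ j ≤ n, f (x + (j * u + (n - j) * d)) = true := by
  induction n generalizing x with
  | zero =>
    intro j hj
    obtain rfl : j = 0 := by omega
    simpa [valL] using h
  | succ n ih =>
    have h1 : valL f u d (n + 1) (x + (n + 1) * d) =
      andB (f (x + (n + 1) * d)) (valL f u d n (x + (n + 1) * d - d + u)) := rfl
    rw [h1, andB_eq] at h
    have h2 : x + (n + 1) * d - d + u = (x + u) + n * d := by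
      have : x + (n + 1) * d = x + n * d + d := by ring
      rw [this, Nat.add_sub_cancel]; ring
    rw [h2] at h
    intro j hj
    cases j with
    | zero => simpa using h.1
    | succ j =>
      have := ih h.2 j (by omega)
      have h3 : n + 1 - (j + 1) = n - j := by omega
      rw [h3]
      convert this using 2
      ring

theorem treeL_spec {f : ℕ → Bool} {u d : ℕ → ℕ} {cs : List ℕ} {x : ℕ} (hb : 12 ≤ b)
    (hc : ∀ c ∈ cs, c < 2 ^ b) (hu : ∀ c ∈ cs, u c < 2 ^ b) (hd : ∀ c ∈ cs, d c < 2 ^ b)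
    (h : treeL b (2 ^ b - 1) f cs.length (pk b id cs >>> 8) (pk b u cs) (pk b d cs) x = true) :
    ∀ ts, adm cs ts → f (x + ev u d cs ts) = true := by
  induction cs generalizing x with
  | nil =>
    intro ts hts
    cases ts with
    | nil => simpa [treeL, ev] using h
    | cons => exact hts.elim
  | cons c cs ih =>
    intro ts hts
    cases ts with
    | nil => exact hts.elim
    | cons t ts =>
      have h0 : c ∈ c :: cs := by simp
      have h1 : treeL b (2 ^ b - 1) f (c :: cs).length (pk b id (c :: cs) >>> 8)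
          (pk b u (c :: cs)) (pk b d (c :: cs)) x =
        valL (treeL b (2 ^ b - 1) f cs.length ((pk b id (c :: cs) >>> 8) >>> b)
          ((pk b u (c :: cs)) >>> b) ((pk b d (c :: cs)) >>> b))
          ((pk b u (c :: cs)) &&& (2 ^ b - 1)) ((pk b d (c :: cs)) &&& (2 ^ b - 1))
          ((pk b id (c :: cs) >>> 8) &&& 15)
          (x + ((pk b id (c :: cs) >>> 8) &&& 15) * ((pk b d (c :: cs)) &&& (2 ^ b - 1))) := rfl
      rw [h1, nv_land (hc c h0) hb, nv_shr (hc c h0),
        pk_cons_shr c (hu c h0), pk_cons_shr c (hd c h0), pk_cons_land c (hu c h0),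
        pk_cons_land c (hd c h0)] at h
      have h2 := valL_spec h t hts.1
      have h3 := ih (fun c hc' => hc c (by simp [hc'])) (fun c hc' => hu c (by simp [hc']))
        (fun c hc' => hd c (by simp [hc'])) h2 ts hts.2
      rw [ev, ← add_assoc]
      exact h3

/-- the final test -/
theorem finB_spec {TP TM : ℕ} {l : List ℕ} {x : ℕ} (hb : 1 ≤ b) (hTP : TP < 2 ^ (b - 1))
    (hTM : TM < 2 ^ b) (hl : ∀ v ∈ l, v + x < 2 ^ b) (hle : ∀ v ∈ l, (v + x) &&& TM ≤ TP)
    (h : finB ((TP + 1 <<< (b - 1)) * pk b (fun _ => 1) l) (pk b (fun _ => 1) l <<< (b - 1))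
      (TM * pk b (fun _ => 1) l) (pk b (fun _ => 1) l) (pk b id l) x = true) :
    ∀ v ∈ l, (TP - ((v + x) &&& TM)) &&& TP ≠ 0 := by
  have hbb : 2 ^ b = 2 ^ (b - 1) + 2 ^ (b - 1) := by
    obtain ⟨k, rfl⟩ := Nat.exists_eq_add_of_le hb
    simp [pow_add]; ring
  have h1 : (1 : ℕ) <<< (b - 1) = 2 ^ (b - 1) := by simp [Nat.shiftLeft_eq]
  set B := 2 ^ (b - 1) with hB
  have hBpos : 0 < B := by positivity
  rw [h1] at h
  have e0 : finB ((TP + B) * pk b (fun _ => 1) l) (pk b (fun _ => 1) l <<< (b - 1))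
      (TM * pk b (fun _ => 1) l) (pk b (fun _ => 1) l) (pk b id l) x =
    Nat.beq (((((TP + B) * pk b (fun _ => 1) l -
      ((pk b id l + x * pk b (fun _ => 1) l) &&& (TM * pk b (fun _ => 1) l))) &&&
      ((TP + B) * pk b (fun _ => 1) l)) - pk b (fun _ => 1) l) &&&
      (pk b (fun _ => 1) l <<< (b - 1))) (pk b (fun _ => 1) l <<< (b - 1)) := rfl
  rw [e0, nbeq] at h
  have e1 : ∀ v ∈ l, (v + x) &&& TM < 2 ^ b := fun v hv =>
    lt_of_le_of_lt Nat.and_le_left (hl v hv)
  rw [pk_addc', pk_mul, pk_mul, pk_shl] at h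
  simp only [mul_one] at h
  rw [pk_land hl (fun _ _ => hTM), pk_sub (fun v hv => (hle v hv).trans (Nat.le_add_right _ _))] at h
  -- structure of the field
  have e2 : ∀ v ∈ l, ((TP + B - ((v + x) &&& TM)) &&& (TP + B)) =
      ((TP - ((v + x) &&& TM)) &&& TP) + B := by
    intro v hv
    have h3 : TP + B - ((v + x) &&& TM) = (TP - ((v + x) &&& TM)) + B * 1 := by
      have := hle v hv
      omega
    have h4 : TP + B = TP + B * 1 := by ring
    rw [h3, h4, land_two (by omega) hTP, Nat.and_self, mul_one]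
  have e3 : ∀ v ∈ l, (TP - ((v + x) &&& TM)) &&& TP < B := fun v hv =>
    lt_of_le_of_lt Nat.and_le_right hTP
  rw [pk_land (fun v hv => by omega) (fun v hv => by omega), pk_congr e2,
    pk_sub (fun v hv => by omega), pk_land
      (fun v hv => by have := e3 v hv; omega)
      (fun v hv => by rw [h1]; omega)] at h
  have h5 := pk_inj (fun v hv => lt_of_le_of_lt Nat.and_le_right (by rw [h1]; omega))
    (fun v hv => by rw [h1]; omega) h
  intro v hv h6
  have h7 := h5 v hv
  rw [h6, h1, zero_add] at h7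
  have h8 : (B - 1) &&& B ≤ B - 1 := Nat.and_le_left
  omega

end Pool.Agent.PB36
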