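import Pool.Agent.Lib_helper65.PropB.Defs

/-!
# Reduction of property `B(4)` to weighted systems of types

A *type* is a subset of `Fin m` (the set of the edges which contain a given vertex). A family of
`n`-sets with at most `m` edges and without property `B(4)` gives weights `w ≥ 0` on the types with
`∑_{T ∋ i} w T = 1` for every `i`, such that the types of positive weight contain no *good* family
(one which covers every point at least once and at most three times). Minimising the total weight
one gets at most `m` types, pairwise intersecting.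
-/

namespace Pool.Agent.PB36

open Finset

variable {m : ℕ}

/-- a family of types which covers every point once, twice or three times -/
def Good (Z : Finset (Finset (Fin m))) : Prop :=
  ∀ i, 1 ≤ (Z.filter (i ∈ ·)).card ∧ (Z.filter (i ∈ ·)).card ≤ 3

/-- the feasible weights -/
def Feas (m : ℕ) : Set (Finset (Fin m) → ℝ) :=
  {w | (∀ T, 0 ≤ w T) ∧ w ∅ = 0 ∧ (∀ i : Fin m, ∑ T ∈ univ.filter (i ∈ ·), w T = 1) ∧
    ∀ Z, Good Z → ∏ T ∈ Z, w T = 0}

theorem feas_le_one {w : Finset (Fin m) → ℝ} (hw : w ∈ Feas m) (T : Finset (Fin m)) :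
    w T ≤ 1 := by
  obtain ⟨h0, he, hs, -⟩ := hw
  rcases T.eq_empty_or_nonempty with rfl | ⟨i, hi⟩
  · rw [he]; exact zero_le_one
  · rw [← hs i]
    exact single_le_sum (f := w) (fun T _ => h0 T) (by simp [hi])

theorem feas_compact (m : ℕ) : IsCompact (Feas m) := by
  have hcl : IsClosed (Feas m) := by
    have h : Feas m = (⋂ T, {w : Finset (Fin m) → ℝ | 0 ≤ w T}) ∩ ({w | w ∅ = 0} ∩
        ((⋂ i : Fin m, {w | ∑ T ∈ univ.filter (i ∈ ·), w T = 1}) ∩
        ⋂ Z : Finset (Finset (Fin m)), ⋂ _ : Good Z, {w | ∏ T ∈ Z, w T = 0})) := by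
      ext w
      simp [Feas]
    rw [h]
    refine IsClosed.inter (isClosed_iInter fun T => isClosed_le continuous_const
      (continuous_apply T)) (IsClosed.inter (isClosed_eq (continuous_apply _) continuous_const)
      (IsClosed.inter (isClosed_iInter fun i => isClosed_eq ?_ continuous_const)
      (isClosed_iInter fun Z => isClosed_iInter fun _ => isClosed_eq ?_ continuous_const)))
    · exact continuous_finsetSum _ fun T _ => continuous_apply T
    · exact continuous_finsetProd _ fun T _ => continuous_apply T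
  refine IsCompact.of_isClosed_subset (isCompact_univ_pi fun _ : Finset (Fin m) =>
    (isCompact_Icc : IsCompact (Set.Icc (0 : ℝ) 1))) hcl ?_
  intro w hw T _
  exact ⟨hw.1 T, feas_le_one hw T⟩

/-- the support -/
noncomputable def supp (w : Finset (Fin m) → ℝ) : Finset (Finset (Fin m)) :=
  univ.filter fun T => 0 < w T

theorem mem_supp {w : Finset (Fin m) → ℝ} {T : Finset (Fin m)} : T ∈ supp w ↔ 0 < w T := by
  simp [supp]

theorem feas_nogood {w : Finset (Fin m) → ℝ} (hw : w ∈ Feas m) {Z : Finset (Finset (Fin m))}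
    (hZ : Z ⊆ supp w) : ¬ Good Z := fun h => by
  have := hw.2.2.2 Z h
  have h2 : 0 < ∏ T ∈ Z, w T := prod_pos fun T hT => mem_supp.1 (hZ hT)
  linarith

/-- a nontrivial relation between more than `m` types -/
theorem exists_rel (S : Finset (Finset (Fin m))) (hS : m < S.card) :
    ∃ d : Finset (Fin m) → ℝ, (∀ T, T ∉ S → d T = 0) ∧ (∃ T, d T ≠ 0) ∧
      ∀ i : Fin m, ∑ T ∈ univ.filter (i ∈ ·), d T = 0 := by
  classical
  let ind : Finset (Fin m) → (Fin m → ℝ) := fun T i => if i ∈ T then 1 else 0
  have hinj : Function.Injective ind := by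
    intro T T' h
    ext i
    have := congrFun h i
    simp only [ind] at this
    by_cases h1 : i ∈ T <;> by_cases h2 : i ∈ T' <;> simp_all
  have hc : Module.finrank ℝ (Fin m → ℝ) < (S.image ind).card := by
    rw [card_image_of_injective _ hinj]; simpa using hS
  obtain ⟨f, hf, x, hx, hfx⟩ := Module.exists_nontrivial_relation_of_finrank_lt_card hc
  rw [sum_image (fun a _ b _ h => hinj h)] at hf
  obtain ⟨T0, hT0, rfl⟩ := mem_image.1 hx
  refine ⟨fun T => if T ∈ S then f (ind T) else 0, fun T hT => by simp [hT],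
    ⟨T0, by simpa [hT0] using hfx⟩, fun i => ?_⟩
  have hfi : ∑ x ∈ S, f (ind x) * ind x i = 0 := by
    have := congrFun hf i
    simpa only [Finset.sum_apply, Pi.smul_apply, smul_eq_mul, Pi.zero_apply] using this
  have h1 : ∀ T ∈ univ.filter (fun T : Finset (Fin m) => i ∈ T), T ∉ S →
      (if T ∈ S then f (ind T) else 0) = 0 := fun T _ hT => by simp [hT]
  rw [sum_filter]
  have h2 : ∑ T ∈ S, (if i ∈ T then (if T ∈ S then f (ind T) else 0) else 0) =
      ∑ T, (if i ∈ T then (if T ∈ S then f (ind T) else 0) else 0) := by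
    refine sum_subset (subset_univ S) fun T _ hT => ?_
    simp [hT]
  rw [← h2]
  refine Eq.trans (sum_congr rfl fun x hx => ?_) hfi
  simp only [hx, if_true, ind]
  split_ifs <;> simp

/-- total weight -/
noncomputable def tot (w : Finset (Fin m) → ℝ) : ℝ := ∑ T, w T

/-- one step of the reduction of the support -/
theorem shrink {w : Finset (Fin m) → ℝ} (hw : w ∈ Feas m) (hc : m < (supp w).card) :
    ∃ w' ∈ Feas m, tot w' ≤ tot w ∧ (supp w').card < (supp w).card := by
  classical
  obtain ⟨d0, hd0, ⟨T0, hT0⟩, hs0⟩ := exists_rel _ hc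
  -- choose the sign such that the total weight does not increase
  obtain ⟨d, hd, hdne, hs, htot⟩ : ∃ d : Finset (Fin m) → ℝ, (∀ T, T ∉ supp w → d T = 0) ∧
      (∃ T, d T ≠ 0) ∧ (∀ i : Fin m, ∑ T ∈ univ.filter (i ∈ ·), d T = 0) ∧ ∑ T, d T ≤ 0 := by
    rcases le_total (∑ T, d0 T) 0 with h | h
    · exact ⟨d0, hd0, ⟨T0, hT0⟩, hs0, h⟩
    · refine ⟨fun T => -d0 T, fun T hT => by simp [hd0 T hT], ⟨T0, by simpa using hT0⟩,
        fun i => ?_, ?_⟩
      · rw [sum_neg_distrib, hs0 i, neg_zero]
      · rw [sum_neg_distrib]; linarith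
  have hne : (univ.filter fun T => d T < 0).Nonempty := by
    by_contra hcon
    rw [not_nonempty_iff_eq_empty, filter_eq_empty_iff] at hcon
    obtain ⟨T, hT⟩ := hdne
    have hpos : ∀ T, 0 ≤ d T := fun T => not_lt.1 (hcon (mem_univ T))
    have hTs : T ∈ supp w := by by_contra h; exact hT (hd T h)
    have hTne : T.Nonempty := by
      rw [nonempty_iff_ne_empty]
      rintro rfl
      have := mem_supp.1 hTs
      rw [hw.2.1] at this
      exact lt_irrefl _ this
    obtain ⟨i, hi⟩ := hTne
    have h1 : d T ≤ ∑ T ∈ univ.filter (i ∈ ·), d T :=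
      single_le_sum (f := d) (fun T _ => hpos T) (by simp [hi])
    rw [hs i] at h1
    exact hT (le_antisymm h1 (hpos T))
  obtain ⟨T1, hT1, hmin⟩ := exists_min_image _ (fun T => w T / (-d T)) hne
  have hd1 : d T1 < 0 := (mem_filter.1 hT1).2
  set t := w T1 / (-d T1) with ht
  have ht0 : 0 ≤ t := div_nonneg (hw.1 _) (by linarith)
  have hge : ∀ T, 0 ≤ w T + t * d T := by
    intro T
    rcases lt_or_ge (d T) 0 with h | h
    · have := hmin T (by simp [h])
      rw [le_div_iff₀ (by linarith)] at this
      linarith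
    · have := mul_nonneg ht0 h
      linarith [hw.1 T]
  have hsub : ∀ T, 0 < w T + t * d T → 0 < w T := by
    intro T h
    by_contra hcon
    have hz : w T = 0 := le_antisymm (not_lt.1 hcon) (hw.1 T)
    have : d T = 0 := hd T (by rw [mem_supp]; exact hcon)
    rw [hz, this] at h
    simp at h
  refine ⟨fun T => w T + t * d T, ⟨hge, ?_, fun i => ?_, fun Z hZ => ?_⟩, ?_, ?_⟩
  · have : d ∅ = 0 := hd ∅ (by rw [mem_supp, hw.2.1]; exact lt_irrefl _)
    simp [this, hw.2.1]
  · rw [sum_add_distrib, ← mul_sum, hs i, hw.2.2.1 i]; ring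
  · have := hw.2.2.2 Z hZ
    rw [prod_eq_zero_iff] at this ⊢
    obtain ⟨T, hT, h⟩ := this
    refine ⟨T, hT, ?_⟩
    have hdT : d T = 0 := hd T (by rw [mem_supp, h]; exact lt_irrefl _)
    rw [h, hdT]; ring
  · unfold tot
    rw [sum_add_distrib, ← mul_sum]
    have := mul_nonpos_of_nonneg_of_nonpos ht0 htot
    linarith
  · refine card_lt_card ⟨fun T hT => mem_supp.2 (hsub T (mem_supp.1 hT)), fun hcon => ?_⟩
    have h1 : T1 ∈ supp w := by
      by_contra h
      rw [hd T1 h] at hd1
      exact lt_irrefl _ hd1
    have h2 := mem_supp.1 (hcon h1)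
    have h3 : w T1 + t * d T1 = 0 := by
      rw [ht]
      field_simp [(by linarith : -d T1 ≠ 0)]
      have : d T1 ≠ 0 := hd1.ne
      field_simp
      ring
    simp only [h3, lt_irrefl] at h2

/-- merging two disjoint types -/
theorem merge {w : Finset (Fin m) → ℝ} (hw : w ∈ Feas m) {T T' : Finset (Fin m)}
    (hT : 0 < w T) (hle : w T ≤ w T') (hdis : Disjoint T T') :
    ∃ w' ∈ Feas m, tot w' < tot w := by
  classical
  have hne : T.Nonempty := by
    rw [nonempty_iff_ne_empty]; rintro rfl
    rw [hw.2.1] at hT; exact lt_irrefl _ hT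
  have hne' : T'.Nonempty := by
    rw [nonempty_iff_ne_empty]; rintro rfl
    rw [hw.2.1] at hle; linarith
  have hTT : T ≠ T' := by
    rintro rfl
    rw [disjoint_self, bot_eq_empty] at hdis
    exact hne.ne_empty hdis
  obtain ⟨i0, hi0⟩ := hne
  obtain ⟨j0, hj0⟩ := hne'
  have hi0' : i0 ∉ T' := disjoint_left.1 hdis hi0
  have hj0' : j0 ∉ T := disjoint_right.1 hdis hj0
  have hU1 : T ∪ T' ≠ T := fun h => hj0' (h ▸ mem_union_right _ hj0)
  have hU2 : T ∪ T' ≠ T' := fun h => hi0' (h ▸ mem_union_left _ hi0)
  -- the change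
  let δ : Finset (Fin m) → ℝ := fun X =>
    (if X = T ∪ T' then w T else 0) - (if X = T then w T else 0) - (if X = T' then w T else 0)
  have hsum : ∀ s : Finset (Finset (Fin m)), ∑ X ∈ s, δ X = (if T ∪ T' ∈ s then w T else 0) -
      (if T ∈ s then w T else 0) - (if T' ∈ s then w T else 0) := by
    intro s
    simp only [δ, sum_sub_distrib, sum_ite_eq']
  have hge : ∀ X, 0 ≤ w X + δ X := by
    intro X
    simp only [δ]
    by_cases h1 : X = T
    · subst h1
      simp only [hU1.symm, if_false, if_true, hTT]
      linarith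
    · by_cases h2 : X = T'
      · subst h2
        simp only [hU2.symm, if_false, if_true, hTT.symm]
        linarith
      · simp only [h1, h2, if_false]
        split_ifs
        · linarith [hw.1 X]
        · linarith [hw.1 X]
  refine ⟨fun X => w X + δ X, ⟨hge, ?_, fun i => ?_, fun Z hZ => ?_⟩, ?_⟩
  · have e1 : ∅ ≠ T ∪ T' := by
      intro h; have := mem_union_left T' hi0; rw [← h] at this; simp at this
    have e2 : ∅ ≠ T := by rintro rfl; simp at hi0
    have e3 : ∅ ≠ T' := by rintro rfl; simp at hj0
    simp only [δ, e1, e2, e3, if_false, hw.2.1]; ring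
  · rw [sum_add_distrib, hsum, hw.2.2.1 i]
    simp only [mem_filter, mem_univ, true_and, mem_union]
    by_cases h1 : i ∈ T
    · have h2 : i ∉ T' := disjoint_left.1 hdis h1
      simp [h1, h2]
    · by_cases h2 : i ∈ T' <;> simp [h1, h2]
  · by_contra hcon
    have hpos : ∀ X ∈ Z, 0 < w X + δ X := by
      intro X hX
      refine lt_of_le_of_ne (hge X) fun h => hcon ?_
      exact prod_eq_zero hX h.symm
    have hXT : T ∉ Z := by
      intro h
      have := hpos T h
      simp only [δ, hU1.symm, if_false, if_true, hTT] at this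
      linarith
    have hwpos : ∀ X ∈ Z, X ≠ T ∪ T' → 0 < w X := by
      intro X hX hne
      have := hpos X hX
      have hX1 : X ≠ T := fun h => hXT (h ▸ hX)
      simp only [δ, hne, hX1, if_false] at this
      split_ifs at this <;> linarith
    by_cases hU : T ∪ T' ∈ Z
    · refine feas_nogood hw (Z := insert T (insert T' (Z.erase (T ∪ T')))) ?_ ?_
      · intro X hX
        rw [mem_supp]
        rcases mem_insert.1 hX with rfl | hX
        · exact hT
        rcases mem_insert.1 hX with rfl | hX
        · linarith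
        exact hwpos X (mem_of_mem_erase hX) (ne_of_mem_erase hX)
      · intro i
        have hi := hZ i
        by_cases h1 : i ∈ T
        · have h2 : i ∉ T' := disjoint_left.1 hdis h1
          have e : (insert T (insert T' (Z.erase (T ∪ T')))).filter (i ∈ ·) =
              insert T ((Z.filter (i ∈ ·)).erase (T ∪ T')) := by
            ext X
            simp only [mem_filter, mem_insert, mem_erase]
            constructor
            · rintro ⟨rfl | rfl | h, h'⟩
              · exact Or.inl rfl
              · exact absurd h' h2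
              · exact Or.inr ⟨h.1, h.2, h'⟩
            · rintro (rfl | h)
              · exact ⟨Or.inl rfl, h1⟩
              · exact ⟨Or.inr (Or.inr ⟨h.1, h.2.1⟩), h.2.2⟩
          have hm : T ∪ T' ∈ Z.filter (i ∈ ·) := by simp [hU, h1]
          rw [e, card_insert_of_notMem (by simp [hXT]), card_erase_of_mem hm]
          have := card_pos.2 ⟨_, hm⟩
          omega
        · by_cases h2 : i ∈ T'
          · have e : (insert T (insert T' (Z.erase (T ∪ T')))).filter (i ∈ ·) =
                insert T' ((Z.filter (i ∈ ·)).erase (T ∪ T')) := by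
              ext X
              simp only [mem_filter, mem_insert, mem_erase]
              constructor
              · rintro ⟨rfl | rfl | h, h'⟩
                · exact absurd h' h1
                · exact Or.inl rfl
                · exact Or.inr ⟨h.1, h.2, h'⟩
              · rintro (rfl | h)
                · exact ⟨Or.inr (Or.inl rfl), h2⟩
                · exact ⟨Or.inr (Or.inr ⟨h.1, h.2.1⟩), h.2.2⟩
            have hm : T ∪ T' ∈ Z.filter (i ∈ ·) := by simp [hU, h2]
            rw [e]
            have hp := card_pos.2 ⟨_, hm⟩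
            have hce := card_erase_of_mem hm
            constructor
            · exact card_pos.2 ⟨T', mem_insert_self _ _⟩
            · have := card_insert_le T' ((Z.filter (i ∈ ·)).erase (T ∪ T'))
              omega
          · have e : (insert T (insert T' (Z.erase (T ∪ T')))).filter (i ∈ ·) =
                Z.filter (i ∈ ·) := by
              ext X
              simp only [mem_filter, mem_insert, mem_erase]
              constructor
              · rintro ⟨rfl | rfl | h, h'⟩
                · exact absurd h' h1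
                · exact absurd h' h2
                · exact ⟨h.2, h'⟩
              · rintro ⟨h, h'⟩
                refine ⟨Or.inr (Or.inr ⟨?_, h⟩), h'⟩
                rintro rfl
                rcases mem_union.1 h' with h' | h'
                · exact h1 h'
                · exact h2 h'
            rw [e]; exact hi
    · exact feas_nogood hw (fun X hX => mem_supp.2
        (hwpos X hX fun h => hU (h ▸ hX))) hZ
  · unfold tot
    rw [sum_add_distrib, hsum]
    simp only [mem_univ, if_true]
    linarith

/-- the support can be assumed small and pairwise intersecting -/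
theorem exists_min (h : (Feas m).Nonempty) :
    ∃ w ∈ Feas m, (supp w).card ≤ m ∧ ∀ T ∈ supp w, ∀ T' ∈ supp w, (T ∩ T').Nonempty := by
  classical
  have hcont : Continuous (tot : (Finset (Fin m) → ℝ) → ℝ) :=
    continuous_finsetSum _ fun T _ => continuous_apply T
  obtain ⟨w0, hw0, hmin0⟩ := (feas_compact m).exists_isMinOn h hcont.continuousOn
  have key : ∀ k : ℕ, ∀ w ∈ Feas m, (∀ w' ∈ Feas m, tot w ≤ tot w') → (supp w).card = k →
      ∃ w ∈ Feas m, (∀ w' ∈ Feas m, tot w ≤ tot w') ∧ (supp w).card ≤ m := by
    intro k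
    induction k using Nat.strong_induction_on with
    | _ k ih =>
      intro w hw hmin hk
      by_cases hc : m < (supp w).card
      · obtain ⟨w', hw', h1, h2⟩ := shrink hw hc
        exact ih _ (hk ▸ h2) w' hw' (fun w'' hw'' => h1.trans (hmin w'' hw'')) rfl
      · exact ⟨w, hw, hmin, not_lt.1 hc⟩
  obtain ⟨w, hw, hmin, hc⟩ := key _ w0 hw0 (fun w' hw' => hmin0 hw') rfl
  refine ⟨w, hw, hc, fun T hT T' hT' => ?_⟩
  by_contra hcon
  rw [not_nonempty_iff_eq_empty, ← disjoint_iff_inter_eq_empty] at hcon
  rcases le_total (w T) (w T') with hle | hle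
  · obtain ⟨w', hw', hlt⟩ := merge hw (mem_supp.1 hT) hle hcon
    exact absurd (hmin w' hw') (not_le.2 hlt)
  · obtain ⟨w', hw', hlt⟩ := merge hw (mem_supp.1 hT') hle hcon.symm
    exact absurd (hmin w' hw') (not_le.2 hlt)

/-- a family of `n`-sets without property `B(4)` gives feasible weights -/
theorem feas_of_family {n : ℕ} (hn : 1 ≤ n) {F : Finset (Finset ℕ)} (hF : ∀ A ∈ F, A.card = n)
    (hc : F.card ≤ m) (hB : ¬ PropB65.HasB 4 F) : (Feas m).Nonempty := by
  classical
  have hFne : F.Nonempty := by
    rw [nonempty_iff_ne_empty]; rintro rfl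
    exact hB ⟨∅, by simp, by simp⟩
  -- a surjection from `Fin m`
  obtain ⟨σ, hσ, hσs⟩ : ∃ σ : Fin m → Finset ℕ, (∀ i, σ i ∈ F) ∧ ∀ A ∈ F, ∃ i, σ i = A := by
    obtain ⟨A0, hA0⟩ := hFne
    let e := F.equivFin
    refine ⟨fun i => if h : i.1 < F.card then (e.symm ⟨i.1, h⟩).1 else A0, fun i => ?_, ?_⟩
    · dsimp only
      split_ifs with h
      · exact (e.symm ⟨i.1, h⟩).2
      · exact hA0
    · intro A hA
      refine ⟨⟨(e ⟨A, hA⟩).1, lt_of_lt_of_le (e ⟨A, hA⟩).2 hc⟩, ?_⟩
      dsimp only
      rw [dif_pos (e ⟨A, hA⟩).2]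
      simp
  let V := F.sup id
  let ty : ℕ → Finset (Fin m) := fun v => univ.filter fun i => v ∈ σ i
  have hn' : (0 : ℝ) < n := by exact_mod_cast hn
  let w : Finset (Fin m) → ℝ := fun T => ((V.filter fun v => ty v = T).card : ℝ) / n
  refine ⟨w, fun T => by positivity, ?_, fun i => ?_, fun Z hZ => ?_⟩
  · have : V.filter (fun v => ty v = ∅) = ∅ := by
      rw [filter_eq_empty_iff]
      intro v hv h
      obtain ⟨A, hA, hvA⟩ := mem_sup.1 hv
      obtain ⟨i, rfl⟩ := hσs A hA
      have : i ∈ ty v := by simp only [ty, mem_filter, mem_univ, true_and]; exact hvA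
      rw [h] at this
      simp at this
    simp only [w, this]; simp
  · have h1 : ∑ T ∈ univ.filter (i ∈ ·), ((V.filter fun v => ty v = T).card : ℝ) = n := by
      rw [← Nat.cast_sum, ← card_biUnion]
      · have : (univ.filter (fun T : Finset (Fin m) => i ∈ T)).biUnion
            (fun T => V.filter fun v => ty v = T) = σ i := by
          ext v
          simp only [mem_biUnion, mem_filter, mem_univ, true_and, ty]
          constructor
          · rintro ⟨T, hT, hv, rfl⟩
            simpa using hT
          · intro hv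
            refine ⟨_, ?_, ?_, rfl⟩
            · simpa using hv
            · exact mem_sup.2 ⟨σ i, hσ i, hv⟩
        rw [this, hF _ (hσ i)]
      · intro T _ T' _ hTT'
        rw [Function.onFun, disjoint_left]
        intro v hv hv'
        exact hTT' ((mem_filter.1 hv).2.symm.trans (mem_filter.1 hv').2)
    simp only [w]
    rw [← sum_div, h1, div_self hn'.ne']
  · by_contra hcon
    have hpos : ∀ T ∈ Z, ∃ v ∈ V, ty v = T := by
      intro T hT
      by_contra hno
      push Not at hno
      refine hcon (prod_eq_zero hT ?_)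
      have : V.filter (fun v => ty v = T) = ∅ := filter_eq_empty_iff.2 fun v hv => hno v hv
      simp only [w, this]; simp
    choose! f hfV hfT using hpos
    refine hB ⟨Z.image f, ?_, fun A hA => ?_⟩
    · intro v hv
      obtain ⟨T, hT, rfl⟩ := mem_image.1 hv
      exact hfV T hT
    · obtain ⟨i, rfl⟩ := hσs A hA
      have hinj : Set.InjOn f Z := by
        intro a ha b hb h
        rw [← hfT a ha, ← hfT b hb, h]
      have : σ i ∩ Z.image f = (Z.filter (i ∈ ·)).image f := by
        ext v
        simp only [mem_inter, mem_image, mem_filter]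
        constructor
        · rintro ⟨h1, T, hT, rfl⟩
          refine ⟨T, ⟨hT, ?_⟩, rfl⟩
          have : i ∈ ty (f T) := by simp only [ty, mem_filter, mem_univ, true_and]; exact h1
          rwa [hfT T hT] at this
        · rintro ⟨T, ⟨hT, hi⟩, rfl⟩
          refine ⟨?_, T, hT, rfl⟩
          rw [← hfT T hT] at hi
          simpa [ty] using hi
      rw [this, card_image_of_injOn (hinj.mono fun x hx => (mem_filter.1 hx).1)]
      have := hZ i
      omega

/-- the system of types of a minimal counterexample -/
theorem reduction {n : ℕ} (hn : 1 ≤ n) {F : Finset (Finset ℕ)} (hF : ∀ A ∈ F, A.card = n)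
    (hc : F.card ≤ m) (hB : ¬ PropB65.HasB 4 F) :
    ∃ w ∈ Feas m, (supp w).card ≤ m ∧ ∀ T ∈ supp w, ∀ T' ∈ supp w, (T ∩ T').Nonempty :=
  exists_min (feas_of_family hn hF hc hB)

end Pool.Agent.PB36
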