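import Pool.Agent.Lib_helper36.PB.Sys

/-!
# The rules at the level of types and weights, and the two step lemmas
-/

namespace Pool.Agent.PB36

open Finset

variable {m : ℕ}

theorem cov_cons (U : Finset (Fin m)) (L : List (Finset (Fin m))) (e : Fin m) :
    cov (U :: L) e = cov L e + if e ∈ U then 1 else 0 := by
  unfold cov
  rw [List.countP_cons]
  simp

theorem exists_of_cov {L : List (Finset (Fin m))} {e : Fin m} (h : 1 ≤ cov L e) :
    ∃ T ∈ L, e ∈ T := by
  unfold cov at h
  obtain ⟨T, hT, he⟩ := List.countP_pos_iff.1 h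
  exact ⟨T, hT, by simpa using he⟩

theorem not_mem_of_cov {L : List (Finset (Fin m))} {e : Fin m} (h : cov L e = 0)
    {T : Finset (Fin m)} (hT : T ∈ L) : e ∉ T := by
  unfold cov at h
  rw [List.countP_eq_zero] at h
  simpa using h T hT

theorem mem_supp_of_mem {w : Finset (Fin m) → ℝ} {L : List (Finset (Fin m))}
    (hL : ∀ T ∈ L, T ∈ supp w ∨ T = ∅) {T : Finset (Fin m)} (hT : T ∈ L) {e : Fin m}
    (he : e ∈ T) : T ∈ supp w := by
  rcases hL T hT with h | rfl
  · exact h
  · simp at he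

theorem rule2 (S : Sys m) (L : List (Finset (Fin m))) (hL : ∀ T ∈ L, T ∈ supp S.w ∨ T = ∅)
    (h0 : ∀ e, 1 ≤ cov L e) (h4 : ∀ e, cov L e ≤ 3) : False := by
  classical
  have hZ : L.toFinset.filter (fun T => T ∈ supp S.w) ⊆ supp S.w := by
    intro T hT
    exact (mem_filter.1 hT).2
  apply feas_nogood S.feas hZ
  intro i
  constructor
  · obtain ⟨T, hT, hi⟩ := exists_of_cov (h0 i)
    apply card_pos.2
    exact ⟨T, by simp [hT, hi, mem_supp_of_mem hL hT hi]⟩
  · refine le_trans ?_ (h4 i)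
    have h1 : ((L.toFinset.filter (fun T => T ∈ supp S.w)).filter (fun T => i ∈ T)) ⊆
        (L.filter (fun T => i ∈ T)).toFinset := by
      intro T hT
      rw [mem_filter, mem_filter, List.mem_toFinset] at hT
      rw [List.mem_toFinset, List.mem_filter]
      exact ⟨hT.1.1, by simpa using hT.2⟩
    refine (card_le_card h1).trans ((List.toFinset_card_le _).trans ?_)
    unfold cov
    rw [List.countP_eq_length_filter]

theorem sum_mem_eq (S : Sys m) (e : Fin m) :
    ∑ T ∈ (supp S.w).filter (fun T => e ∈ T), S.w T = 1 := by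
  classical
  rw [← S.feas.2.2.1 e]
  apply sum_subset
  · intro T hT
    simp at hT ⊢
    exact hT.2
  · intro T hT hT'
    have h1 : e ∈ T := by simpa using hT
    have h2 : T ∉ supp S.w := fun h => hT' (mem_filter.2 ⟨h, h1⟩)
    rw [mem_supp, not_lt] at h2
    exact le_antisymm h2 (S.feas.1 T)

theorem exists_mem (S : Sys m) (e : Fin m) : ∃ U ∈ supp S.w, e ∈ U := by
  by_contra h
  push Not at h
  have h1 := sum_mem_eq S e
  rw [sum_eq_zero] at h1
  · exact zero_ne_one h1
  · intro T hT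
    exact absurd (mem_filter.1 hT).2 (h T (mem_filter.1 hT).1)

theorem exists_avoid (S : Sys m) {e f : Fin m} {T : Finset (Fin m)} (hT : T ∈ supp S.w)
    (hf : f ∈ T) (he : e ∉ T) : ∃ U ∈ supp S.w, e ∈ U ∧ f ∉ U := by
  classical
  by_contra h
  push Not at h
  have h1 := sum_mem_eq S e
  have h2 := sum_mem_eq S f
  have h3 : (supp S.w).filter (fun U => e ∈ U) ⊆
      ((supp S.w).filter (fun U => f ∈ U)).erase T := by
    intro U hU
    rw [mem_filter] at hU
    rw [mem_erase, mem_filter]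
    refine ⟨?_, hU.1, h U hU.1 hU.2⟩
    rintro rfl
    exact he hU.2
  have h4 := sum_le_sum_of_subset_of_nonneg h3
    (f := S.w) (fun U _ _ => S.feas.1 U)
  have h5 := sum_erase_add ((supp S.w).filter (fun U => f ∈ U)) S.w
    (mem_filter.2 ⟨hT, hf⟩ : T ∈ (supp S.w).filter (fun U => f ∈ U))
  have h6 := mem_supp.1 hT
  linarith

theorem hL_cons {w : Finset (Fin m) → ℝ} {L : List (Finset (Fin m))}
    (hL : ∀ T ∈ L, T ∈ supp w ∨ T = ∅) {U : Finset (Fin m)} (hU : U ∈ supp w) :
    ∀ T ∈ U :: L, T ∈ supp w ∨ T = ∅ := by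
  intro T hT
  rw [List.mem_cons] at hT
  rcases hT with rfl | hT
  · exact Or.inl hU
  · exact hL T hT

theorem rule3 (S : Sys m) (L : List (Finset (Fin m))) (hL : ∀ T ∈ L, T ∈ supp S.w ∨ T = ∅)
    (h0 : (univ.filter fun e => cov L e = 0).card ≤ 1)
    (h3 : (univ.filter fun e => cov L e = 3).card ≤ 1) (h4 : ∀ e, cov L e ≤ 3) : False := by
  classical
  by_cases hu : ∀ e, 1 ≤ cov L e
  · exact rule2 S L hL hu h4
  push Not at hu
  obtain ⟨e, he⟩ := hu
  have he0 : cov L e = 0 := by omega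
  have heu : ∀ x, cov L x = 0 → x = e := by
    intro x hx
    exact card_le_one.1 h0 x (by simp [hx]) e (by simp [he0])
  obtain ⟨U, hU, heU, hUf⟩ : ∃ U ∈ supp S.w, e ∈ U ∧ ∀ f ∈ U, cov L f ≠ 3 := by
    by_cases hf : ∃ f, cov L f = 3
    · obtain ⟨f, hf⟩ := hf
      obtain ⟨T, hT, hfT⟩ := exists_of_cov (L := L) (e := f) (by omega)
      obtain ⟨U, hU, h1, h2⟩ := exists_avoid S (mem_supp_of_mem hL hT hfT) hfT
        (not_mem_of_cov he0 hT)
      refine ⟨U, hU, h1, fun x hx h => ?_⟩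
      have : x = f := card_le_one.1 h3 x (by simp [h]) f (by simp [hf])
      exact h2 (this ▸ hx)
    · push Not at hf
      obtain ⟨U, hU, h1⟩ := exists_mem S e
      exact ⟨U, hU, h1, fun x _ => hf x⟩
  apply rule2 S (U :: L) (hL_cons hL hU)
  · intro x
    rw [cov_cons]
    by_cases hx : cov L x = 0
    · rw [heu x hx, if_pos heU]
      omega
    · omega
  · intro x
    rw [cov_cons]
    have := h4 x
    split_ifs with hx
    · have := hUf x hx
      omega
    · omega

theorem rule4 (S : Sys m) (L : List (Finset (Fin m))) (hL : ∀ T ∈ L, T ∈ supp S.w ∨ T = ∅)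
    (h0 : (univ.filter fun e => cov L e = 0).card ≤ 2)
    (h2 : (univ.filter fun e => cov L e = 2).card ≤ 4) (h3 : ∀ e, cov L e ≤ 2) : False := by
  classical
  by_cases h01 : (univ.filter fun e => cov L e = 0).card ≤ 1
  · refine rule3 S L hL h01 ?_ (fun e => (h3 e).trans (by norm_num))
    rw [card_eq_zero.2]
    · norm_num
    · rw [filter_eq_empty_iff]
      intro e _ h
      have := h3 e
      omega
  have h02 : (univ.filter fun e => cov L e = 0).card = 2 := by omega
  obtain ⟨e, e', hee, hs⟩ := card_eq_two.1 h02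
  have he : cov L e = 0 := by
    have : e ∈ univ.filter fun e => cov L e = 0 := by rw [hs]; simp
    simpa using this
  have he' : cov L e' = 0 := by
    have : e' ∈ univ.filter fun e => cov L e = 0 := by rw [hs]; simp
    simpa using this
  have hx : ∀ x, cov L x = 0 → x = e ∨ x = e' := by
    intro x hx
    have : x ∈ univ.filter fun e => cov L e = 0 := by simp [hx]
    rw [hs] at this
    simpa using this
  have hnot : ∀ U ∈ supp S.w, ¬ (e ∈ U ∧ e' ∈ U) := by
    rintro U hU ⟨h1, h1'⟩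
    apply rule2 S (U :: L) (hL_cons hL hU)
    · intro x
      rw [cov_cons]
      by_cases hx0 : cov L x = 0
      · rcases hx x hx0 with rfl | rfl
        · rw [if_pos h1]; omega
        · rw [if_pos h1']; omega
      · omega
    · intro x
      rw [cov_cons]
      have := h3 x
      split_ifs <;> omega
  have hmeet : ∀ U ∈ supp S.w, ∀ U' ∈ supp S.w, e ∈ U → e' ∈ U' →
      ∃ x, cov L x = 2 ∧ x ∈ U ∧ x ∈ U' := by
    intro U hU U' hU' h1 h1'
    by_contra hno
    push Not at hno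
    apply rule2 S (U :: U' :: L) (hL_cons (hL_cons hL hU') hU)
    · intro x
      rw [cov_cons, cov_cons]
      by_cases hx0 : cov L x = 0
      · rcases hx x hx0 with rfl | rfl
        · rw [if_pos h1]; omega
        · rw [if_pos h1']; omega
      · omega
    · intro x
      rw [cov_cons, cov_cons]
      have h4 := h3 x
      by_cases hxU : x ∈ U
      · by_cases hxU' : x ∈ U'
        · have : cov L x ≠ 2 := fun h => hno x h hxU hxU'
          rw [if_pos hxU, if_pos hxU']
          omega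
        · rw [if_pos hxU, if_neg hxU']
          omega
      · rw [if_neg hxU]
        split_ifs <;> omega
  -- the product of the two unit sums
  set C := univ.filter fun e => cov L e = 2 with hC
  set A := (supp S.w).filter (fun U => e ∈ U) with hA
  set B := (supp S.w).filter (fun U => e' ∈ U) with hB
  let a : Fin m → ℝ := fun x => ∑ U ∈ A.filter (fun U => x ∈ U), S.w U
  let b : Fin m → ℝ := fun x => ∑ U ∈ B.filter (fun U => x ∈ U), S.w U
  have hw : ∀ U, 0 ≤ S.w U := S.feas.1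
  have ha0 : ∀ x, 0 ≤ a x := fun x => sum_nonneg fun U _ => hw U
  have hb0 : ∀ x, 0 ≤ b x := fun x => sum_nonneg fun U _ => hw U
  have hone : (1 : ℝ) ≤ ∑ x ∈ C, a x * b x := by
    have h1 : (1 : ℝ) = ∑ U ∈ A, ∑ U' ∈ B, S.w U * S.w U' := by
      rw [← sum_mul_sum, sum_mem_eq S e, sum_mem_eq S e', mul_one]
    have h2 : ∑ x ∈ C, a x * b x =
        ∑ U ∈ A, ∑ U' ∈ B, ∑ x ∈ C, (if x ∈ U then S.w U else 0) * (if x ∈ U' then S.w U' else 0) := by
      have : ∀ x ∈ C, a x * b x = ∑ U ∈ A, ∑ U' ∈ B,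
          (if x ∈ U then S.w U else 0) * (if x ∈ U' then S.w U' else 0) := by
        intro x _
        rw [← sum_mul_sum, ← sum_filter, ← sum_filter]
      rw [sum_congr rfl this, sum_comm]
      refine sum_congr rfl fun U _ => ?_
      rw [sum_comm]
    rw [h1, h2]
    refine sum_le_sum fun U hU => sum_le_sum fun U' hU' => ?_
    obtain ⟨x, hx2, hxU, hxU'⟩ := hmeet U (mem_filter.1 hU).1 U' (mem_filter.1 hU').1
      (mem_filter.1 hU).2 (mem_filter.1 hU').2
    have hxC : x ∈ C := by rw [hC]; simp [hx2]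
    have h5 := single_le_sum (f := fun x => (if x ∈ U then S.w U else 0) *
      (if x ∈ U' then S.w U' else 0)) (fun y _ => by
        split_ifs <;> simp [mul_nonneg, hw]) hxC
    simpa [hxU, hxU'] using h5
  have hlt : ∀ x ∈ C, a x * b x < 1 / 4 := by
    intro x hxC
    have hx2 : cov L x = 2 := by rw [hC] at hxC; simpa using hxC
    obtain ⟨T, hT, hxT⟩ := exists_of_cov (L := L) (e := x) (by omega)
    have hTs := mem_supp_of_mem hL hT hxT
    have h1 := sum_mem_eq S x
    have hd : Disjoint (A.filter (fun U => x ∈ U)) (B.filter (fun U => x ∈ U)) := by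
      rw [disjoint_left]
      intro U hU hU'
      rw [mem_filter, hA, mem_filter] at hU
      rw [mem_filter, hB, mem_filter] at hU'
      exact hnot U hU.1.1 ⟨hU.1.2, hU'.1.2⟩
    have hsub : (A.filter (fun U => x ∈ U)) ∪ (B.filter (fun U => x ∈ U)) ⊆
        ((supp S.w).filter (fun U => x ∈ U)).erase T := by
      intro U hU
      rw [mem_erase, mem_filter]
      rw [mem_union, mem_filter, mem_filter, mem_filter, mem_filter] at hU
      rcases hU with ⟨⟨h, h'⟩, h''⟩ | ⟨⟨h, h'⟩, h''⟩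
      · refine ⟨?_, h, h''⟩
        rintro rfl
        exact not_mem_of_cov he hT h'
      · refine ⟨?_, h, h''⟩
        rintro rfl
        exact not_mem_of_cov he' hT h'
    have h4 := sum_le_sum_of_subset_of_nonneg hsub (f := S.w) (fun U _ _ => hw U)
    rw [sum_union hd] at h4
    have h5 := sum_erase_add ((supp S.w).filter (fun U => x ∈ U)) S.w
      (mem_filter.2 ⟨hTs, hxT⟩ : T ∈ (supp S.w).filter (fun U => x ∈ U))
    have h6 := mem_supp.1 hTs
    have h7 : a x + b x < 1 := by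
      have : a x + b x ≤ ∑ U ∈ ((supp S.w).filter (fun U => x ∈ U)).erase T, S.w U := h4
      linarith
    nlinarith [ha0 x, hb0 x, sq_nonneg (a x - b x)]
  rcases C.eq_empty_or_nonempty with hCe | hCne
  · rw [hCe, sum_empty] at hone
    linarith
  · have h8 : ∑ x ∈ C, a x * b x < ∑ x ∈ C, (1 / 4 : ℝ) := sum_lt_sum_of_nonempty hCne hlt
    rw [sum_const, nsmul_eq_mul] at h8
    have h9 : (C.card : ℝ) ≤ 4 := by exact_mod_cast h2
    linarith

/-- double counting -/
theorem sum_val (S : Sys m) (y : Fin m → ℝ) :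
    ∑ T, S.w T * ∑ e ∈ T, y e = ∑ e, y e := by
  classical
  have h1 : ∀ T : Finset (Fin m), S.w T * ∑ e ∈ T, y e = ∑ e, if e ∈ T then S.w T * y e else 0 := by
    intro T
    rw [mul_sum, ← sum_filter]
    refine sum_congr ?_ fun _ _ => rfl
    ext e
    simp
  rw [sum_congr rfl fun T _ => h1 T, sum_comm]
  refine sum_congr rfl fun e _ => ?_
  rw [← sum_filter, ← sum_mul]
  have := S.feas.2.2.1 e
  rw [this, one_mul]

theorem size3 (S : Sys m) {T : Finset (Fin m)} (hT : T ∈ supp S.w) : 3 ≤ T.card := by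
  classical
  have h1 := sum_val S (fun e => if e ∈ T then 1 else 0)
  have h2 : ∑ e : Fin m, (if e ∈ T then (1 : ℝ) else 0) = T.card := by simp
  rw [h2] at h1
  have h3 : tot S.w ≤ ∑ U, S.w U * ∑ e ∈ U, (if e ∈ T then (1 : ℝ) else 0) := by
    unfold tot
    refine sum_le_sum fun U _ => ?_
    by_cases hU : U ∈ supp S.w
    · obtain ⟨x, hx⟩ := S.int U hU T hT
      rw [mem_inter] at hx
      have h4 := single_le_sum (f := fun e => if e ∈ T then (1 : ℝ) else 0)
        (fun e _ => by split_ifs <;> norm_num) hx.1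
      have h5 : (1 : ℝ) ≤ ∑ e ∈ U, (if e ∈ T then (1 : ℝ) else 0) := by
        simpa [hx.2] using h4
      nlinarith [S.feas.1 U]
    · have h6 : S.w U = 0 := by
        rw [mem_supp, not_lt] at hU
        exact le_antisymm hU (S.feas.1 U)
      rw [h6, zero_mul]
  have h7 := S.tot
  have h8 : (2 : ℝ) < T.card := by linarith
  exact_mod_cast h8

theorem sum_wval (S : Sys m) (y : Fin m → ℤ) (z : ℕ) :
    ∑ T ∈ supp S.w, S.w T * (val y z T : ℝ) = ((∑ e, y e : ℤ) : ℝ) - z * tot S.w := by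
  classical
  have h0 : ∑ T ∈ supp S.w, S.w T * (val y z T : ℝ) = ∑ T, S.w T * (val y z T : ℝ) := by
    apply sum_subset (subset_univ _)
    intro T _ hT
    rw [mem_supp, not_lt] at hT
    rw [le_antisymm hT (S.feas.1 T), zero_mul]
  rw [h0]
  have h1 := sum_val S (fun e => (y e : ℝ))
  have h2 : ∀ T, S.w T * (val y z T : ℝ) = S.w T * ∑ e ∈ T, (y e : ℝ) - z * S.w T := by
    intro T
    unfold val
    push_cast
    ring
  rw [sum_congr rfl fun T _ => h2 T, sum_sub_distrib, h1, ← mul_sum]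
  unfold tot
  push_cast
  rfl

theorem sum_wval_le (S : Sys m) (y : Fin m → ℤ) (z : ℕ) (hA : ∑ e, y e ≤ 2 * (z : ℤ)) :
    ∑ T ∈ supp S.w, S.w T * (val y z T : ℝ) ≤ 0 := by
  rw [sum_wval]
  have h1 : ((∑ e, y e : ℤ) : ℝ) ≤ 2 * z := by exact_mod_cast hA
  have h2 := S.tot
  have h3 : (0 : ℝ) ≤ z := Nat.cast_nonneg z
  nlinarith

theorem sum_wval_lt (S : Sys m) (y : Fin m → ℤ) (z : ℕ) (hA : ∑ e, y e < 2 * (z : ℤ)) :
    ∑ T ∈ supp S.w, S.w T * (val y z T : ℝ) < 0 := by
  rw [sum_wval]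
  have h1 : ((∑ e, y e : ℤ) : ℝ) < 2 * z := by exact_mod_cast hA
  have h2 := S.tot
  have h3 : (0 : ℝ) ≤ z := Nat.cast_nonneg z
  nlinarith

/-- step for a rooted record -/
theorem step_rooted (S : Sys m) (k : ℕ) (X : ℕ → Finset (Fin m)) (hX : ∀ i < k, X i ∈ supp S.w)
    (hinj : ∀ i < k, ∀ j < k, X i = X j → i = j) (hk : 0 < k) (h0 : X 0 = S.R) (lv : ℕ)
    (hlev : ∀ i < k, lv.testBit i = true → S.w S.R < 2 * S.w (X i))
    (y : Fin m → ℤ) (z mu : ℕ) (hA : ∑ e, y e ≤ 2 * (z : ℤ))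
    (hT : ∀ T ∈ supp S.w, (∀ i < k, T ≠ X i) → 0 ≤ val y z T + mu ∨
      (2 * S.w T ≤ S.w S.R ∧ 0 ≤ val y z T + 2 * mu))
    (hbal : 0 < 2 * val y z (X 0) + (∑ j ∈ Ico 1 k, if val y z (X j) < 0 then 2 * val y z (X j)
        else if lv.testBit j = true then val y z (X j) else 0) - 2 * mu * ((m - k : ℕ) : ℤ) ∨
      (0 ≤ 2 * val y z (X 0) + (∑ j ∈ Ico 1 k, if val y z (X j) < 0 then 2 * val y z (X j)
        else if lv.testBit j = true then val y z (X j) else 0) - 2 * mu * ((m - k : ℕ) : ℤ) ∧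
        ((∃ j ∈ Ico 1 k, 0 < val y z (X j)) ∨ ∑ e, y e < 2 * (z : ℤ)))) : False := by
  classical
  set W := S.w S.R with hW
  have hWpos : 0 < W := mem_supp.1 S.hR
  set P := (range k).image X with hP
  have hPs : P ⊆ supp S.w := by
    intro T hT'
    rw [hP, mem_image] at hT'
    obtain ⟨i, hi, rfl⟩ := hT'
    exact hX i (mem_range.1 hi)
  have hPcard : P.card = k := by
    rw [hP, card_image_of_injOn, card_range]
    intro i hi j hj hij
    exact hinj i (by simpa using hi) j (by simpa using hj) hij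
  have hkm : k ≤ (supp S.w).card := hPcard ▸ card_le_card hPs
  have hkm' : k ≤ m := hkm.trans S.card
  -- the others
  have hoth : -(mu * W * ((m - k : ℕ) : ℝ)) ≤ ∑ T ∈ supp S.w \ P, S.w T * (val y z T : ℝ) := by
    have h1 : ∀ T ∈ supp S.w \ P, -((mu : ℝ) * W) ≤ S.w T * (val y z T : ℝ) := by
      intro T hT'
      rw [mem_sdiff] at hT'
      have h2 : ∀ i < k, T ≠ X i := by
        rintro i hi rfl
        exact hT'.2 (mem_image_of_mem X (mem_range.2 hi))
      have h3 := S.feas.1 T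
      have h4 : S.w T ≤ W := S.hmax T
      have hmu : (0 : ℝ) ≤ mu := Nat.cast_nonneg mu
      rcases hT T hT'.1 h2 with h5 | ⟨h5, h6⟩
      · have h7 : (0 : ℝ) ≤ (val y z T : ℝ) + mu := by exact_mod_cast h5
        nlinarith
      · have h7 : (0 : ℝ) ≤ (val y z T : ℝ) + 2 * mu := by exact_mod_cast h6
        nlinarith
    have h2 := card_nsmul_le_sum (supp S.w \ P) _ _ h1
    rw [nsmul_eq_mul] at h2
    refine le_trans ?_ h2
    have h3 : (supp S.w \ P).card ≤ m - k := by
      rw [card_sdiff_of_subset hPs, hPcard]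
      exact Nat.sub_le_sub_right S.card k
    have h4 : ((supp S.w \ P).card : ℝ) ≤ ((m - k : ℕ) : ℝ) := by exact_mod_cast h3
    have h5 : (0 : ℝ) ≤ mu * W := mul_nonneg (Nat.cast_nonneg mu) hWpos.le
    nlinarith
  -- the picks
  have hpick : ∑ T ∈ P, S.w T * (val y z T : ℝ) = ∑ i ∈ range k, S.w (X i) * (val y z (X i) : ℝ) := by
    rw [hP, sum_image]
    intro i hi j hj hij
    exact hinj i (by simpa using hi) j (by simpa using hj) hij
  have hrange : ∑ i ∈ range k, S.w (X i) * (val y z (X i) : ℝ) =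
      W * (val y z (X 0) : ℝ) + ∑ j ∈ Ico 1 k, S.w (X j) * (val y z (X j) : ℝ) := by
    rw [range_eq_Ico, sum_eq_sum_Ico_succ_bot hk]
    rw [h0]
  let g : ℕ → ℤ := fun j => if val y z (X j) < 0 then 2 * val y z (X j)
        else if lv.testBit j = true then val y z (X j) else 0
  have hg : ∀ j ∈ Ico 1 k, W * (g j : ℝ) ≤ 2 * (S.w (X j) * (val y z (X j) : ℝ)) := by
    intro j hj
    have hjk : j < k := (mem_Ico.1 hj).2
    have h1 := S.hmax (X j)
    have h2 := mem_supp.1 (hX j hjk)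
    simp only [g]
    split_ifs with h3 h4
    · have h5 : (val y z (X j) : ℝ) < 0 := by exact_mod_cast h3
      push_cast
      nlinarith
    · have h5 : (0 : ℝ) ≤ (val y z (X j) : ℝ) := by exact_mod_cast not_lt.1 h3
      have h6 := hlev j hjk h4
      nlinarith
    · have h5 : (0 : ℝ) ≤ (val y z (X j) : ℝ) := by exact_mod_cast not_lt.1 h3
      push_cast
      nlinarith
  have hg' : ∀ j ∈ Ico 1 k, 0 < val y z (X j) →
      W * (g j : ℝ) < 2 * (S.w (X j) * (val y z (X j) : ℝ)) := by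
    intro j hj hpos
    have hjk : j < k := (mem_Ico.1 hj).2
    have h1 := S.hmax (X j)
    have h2 := mem_supp.1 (hX j hjk)
    have h5 : (0 : ℝ) < (val y z (X j) : ℝ) := by exact_mod_cast hpos
    simp only [g]
    split_ifs with h3 h4
    · omega
    · have h6 := hlev j hjk h4
      nlinarith
    · push_cast
      nlinarith
  have hsplit := sum_sdiff hPs (f := fun T => S.w T * (val y z T : ℝ))
  have hle := sum_wval_le S y z hA
  have hsum : W * ((∑ j ∈ Ico 1 k, g j : ℤ) : ℝ) ≤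
      2 * ∑ j ∈ Ico 1 k, S.w (X j) * (val y z (X j) : ℝ) := by
    push_cast
    rw [mul_sum, mul_sum]
    exact sum_le_sum hg
  rcases hbal with hb | ⟨hb, hb'⟩
  · have hb2 : (0 : ℝ) < 2 * (val y z (X 0) : ℝ) + ((∑ j ∈ Ico 1 k, g j : ℤ) : ℝ) -
        2 * mu * ((m - k : ℕ) : ℝ) := by exact_mod_cast hb
    have := mul_pos hWpos hb2
    nlinarith
  · have hb2 : (0 : ℝ) ≤ 2 * (val y z (X 0) : ℝ) + ((∑ j ∈ Ico 1 k, g j : ℤ) : ℝ) -
        2 * mu * ((m - k : ℕ) : ℝ) := by exact_mod_cast hb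
    have hb3 := mul_nonneg hWpos.le hb2
    rcases hb' with ⟨j, hj, hjp⟩ | hlt
    · have hsum' : W * ((∑ j ∈ Ico 1 k, g j : ℤ) : ℝ) <
          2 * ∑ j ∈ Ico 1 k, S.w (X j) * (val y z (X j) : ℝ) := by
        push_cast
        rw [mul_sum, mul_sum]
        exact sum_lt_sum hg ⟨j, hj, hg' j hj hjp⟩
      nlinarith
    · have := sum_wval_lt S y z hlt
      nlinarith

/-- step for an unrooted record -/
theorem step_unrooted (S : Sys m) (k : ℕ) (X : ℕ → Finset (Fin m)) (hX : ∀ i < k, X i ∈ supp S.w)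
    (y : Fin m → ℤ) (z : ℕ) (hA : ∑ e, y e ≤ 2 * (z : ℤ))
    (hT : ∀ T ∈ supp S.w, 0 ≤ val y z T)
    (hbal : (∃ j < k, 0 < val y z (X j)) ∨ ∑ e, y e < 2 * (z : ℤ)) : False := by
  have h1 : ∀ T ∈ supp S.w, 0 ≤ S.w T * (val y z T : ℝ) := fun T h =>
    mul_nonneg (S.feas.1 T) (by exact_mod_cast hT T h)
  rcases hbal with ⟨j, hj, hjp⟩ | hlt
  · have h2 := sum_wval_le S y z hA
    have h3 : 0 < ∑ T ∈ supp S.w, S.w T * (val y z T : ℝ) := by
      apply sum_pos' h1
      exact ⟨X j, hX j hj, mul_pos (mem_supp.1 (hX j hj)) (by exact_mod_cast hjp)⟩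
    linarith
  · have h2 := sum_wval_lt S y z hlt
    have h3 := sum_nonneg h1
    linarith

end Pool.Agent.PB36
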