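import Pool.Agent.Lib_helper36.PB.Conf
import Pool.Agent.Lib_helper36.PB.Rules

/-!
# Meaning of the items
-/

namespace Pool.Agent.PB36

open Finset

/-- the situation in which a record is checked -/
structure Ctx {m : ℕ} (S : Sys m) (b w k lv rooted : ℕ) (cs : List ℕ) (X : ℕ → Finset (Fin m))
    (cell : Fin m → ℕ) (T : Finset (Fin m)) : Prop where
  hm : m ≤ 14
  hb : 45 ≤ b
  ck : ∀ c ∈ cs, Chunk w c
  sum : (cs.map nc).sum = m
  C : Cells X cs cell
  k6 : k ≤ 6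
  hX : ∀ i < k, X i ∈ supp S.w
  hX0 : ∀ i, k ≤ i → X i = ∅
  root : rooted = 1 → X 0 = S.R
  lev : ∀ i, lv.testBit i = true → S.w S.R < 2 * S.w (X i)
  hT : T ∈ supp S.w
  ne : ∀ i < k, T ≠ X i

variable {m : ℕ} {S : Sys m} {b w k lv rooted : ℕ} {cs : List ℕ} {X : ℕ → Finset (Fin m)}
  {cell : Fin m → ℕ} {T : Finset (Fin m)}

theorem Ctx.cb (h : Ctx S b w k lv rooted cs X cell T) : ∀ c ∈ cs, c < 2 ^ b := fun c hc =>
  (h.ck c hc).lt.trans (Nat.pow_lt_pow_right (by norm_num) (by have := h.hb; omega))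

theorem Ctx.bt_eq (h : Ctx S b w k lv rooted cs X cell T) {j : ℕ} (hj : j < 8) (e : Fin m) :
    bt j (cell e) = if e ∈ X j then 1 else 0 :=
  h.C.bt_eq h.ck (fun e => by
    rw [h.hX0 6 h.k6, h.hX0 7 (h.k6.trans (by norm_num))]; simp) hj e

theorem Ctx.small (h : Ctx S b w k lv rooted cs X cell T) {a : ℕ} (ha : a ≤ 44) : 2 ^ a < 2 ^ b :=
  Nat.pow_lt_pow_right (by norm_num) (by have := h.hb; omega)

/-- soundness of a continuation -/
def Snd (b : ℕ) (cs τ : List ℕ) (G : Prop) (f : ℕ → ℕ → ℕ → ℕ → ℕ → ℕ → ℕ → Bool) : Prop :=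
  ∀ it off U D K TM TP, Inv b cs τ G off U D K TM TP → f it off U D K TM TP = true → G

theorem addI_spec {G : Prop} {τ : List ℕ} (hτ : adm cs τ)
    {ih : ℕ → ℕ → ℕ → ℕ → ℕ → ℕ → ℕ → Bool} (hih : Snd b cs τ G ih)
    {it off U D K TM TP w1 k t : ℕ} {u d : ℕ → ℕ} (hI : Inv b cs τ G off U D K TM TP)
    (hu : ∀ c ∈ cs, u c < 2 ^ (w1 + 1)) (hd : ∀ c ∈ cs, d c < 2 ^ (w1 + 1))
    (hk : ∀ ts, adm cs ts → k + ev u d cs ts < 2 ^ (w1 + 1)) (ht : t < 2 ^ w1)
    (hG : (k + ev u d cs τ) &&& t = 0 → G)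
    (h : addI b ih it off U D K TM TP w1 (pk b u cs) (pk b d cs) k t = true) : G := by
  have h0 : addI b ih it off U D K TM TP w1 (pk b u cs) (pk b d cs) k t =
    andB (Nat.ble (off + 1 + w1) b) (ih it (off + 1 + w1) (U + pk b u cs <<< off)
      (D + pk b d cs <<< off) (K + k <<< off) (TM + t <<< off) (TP + 1 <<< (off + w1))) := rfl
  rw [h0, andB_eq, nble] at h
  exact hih _ _ _ _ _ _ _ (hI.add hτ h.1 hu hd hk ht hG) h.2

/-- the list of the indices -/
def ixs : ℕ → ℕ → List ℕ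
  | 0, _ => []
  | n + 1, x => (x &&& 7) :: ixs n (x >>> 3)

theorem ixs_lt (n x : ℕ) : ∀ i ∈ ixs n x, i < 8 := by
  induction n generalizing x with
  | zero => simp [ixs]
  | succ n ih =>
    intro i hi
    rcases List.mem_cons.1 hi with rfl | hi
    · have := and7_le x; omega
    · exact ih _ i hi

theorem Ctx.cvr_eq (h : Ctx S b w k lv rooted cs X cell T) (n x : ℕ) (e : Fin m) :
    cvr n x (cell e) = cov ((ixs n x).map X) e := by
  induction n generalizing x with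
  | zero => simp [cvr, ixs, cov]
  | succ n ih =>
    have h7 := and7_le x
    rw [cvr, ih, h.bt_eq (by omega)]
    simp only [ixs, List.map_cons, cov, List.countP_cons, decide_eq_true_eq]
    ring

/-- the list of types of a rule -/
def rl (X : ℕ → Finset (Fin m)) (T : Finset (Fin m)) (n x : ℕ) : List (Finset (Fin m)) :=
  T :: (ixs n x).map X

theorem Ctx.cov_rl (h : Ctx S b w k lv rooted cs X cell T) (n x : ℕ) (e : Fin m) :
    cov (rl X T n x) e = cvr n x (cell e) + if e ∈ T then 1 else 0 := by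
  rw [h.cvr_eq, rl, cov, List.countP_cons, cov]
  simp

theorem Ctx.mem_rl (h : Ctx S b w k lv rooted cs X cell T) (n x : ℕ) :
    ∀ U ∈ rl X T n x, U ∈ supp S.w ∨ U = ∅ := by
  intro U hU
  rcases List.mem_cons.1 hU with rfl | hU
  · exact Or.inl h.hT
  · obtain ⟨i, hi, rfl⟩ := List.mem_map.1 hU
    rcases lt_or_ge i k with hik | hik
    · exact Or.inl (h.hX i hik)
    · exact Or.inr (h.hX0 i hik)

/-- number of points with cover number `j` -/
def nj (L : List (Finset (Fin m))) (j : ℕ) : ℕ := (univ.filter fun e => cov L e = j).card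

theorem sum_cov (L : List (Finset (Fin m))) (g : ℕ → ℕ) (h : ∀ e, cov L e ≤ 4) :
    ∑ e, g (cov L e) = nj L 0 * g 0 + nj L 1 * g 1 + nj L 2 * g 2 + nj L 3 * g 3 + nj L 4 * g 4 := by
  have h1 := sum_fiberwise_of_maps_to (s := (univ : Finset (Fin m))) (t := range 5) (g := cov L)
    (fun e _ => mem_range.2 (Nat.lt_succ_of_le (h e))) (fun e => g (cov L e))
  rw [← h1]
  have h2 : ∀ j, ∑ e ∈ univ.filter (fun e => cov L e = j), g (cov L e) = nj L j * g j := by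
    intro j
    rw [sum_congr rfl (g := fun _ => g j), sum_const, smul_eq_mul, nj]
    intro e he
    rw [(mem_filter.1 he).2]
  simp only [sum_range_succ, range_zero, sum_empty, zero_add, h2]

theorem sum_nj (L : List (Finset (Fin m))) (h : ∀ e, cov L e ≤ 4) :
    nj L 0 + nj L 1 + nj L 2 + nj L 3 + nj L 4 = m := by
  have := sum_cov L (fun _ => 1) h
  simp only [mul_one, sum_const, card_univ, Fintype.card_fin, smul_eq_mul] at this
  exact this.symm

theorem nj_zero {L : List (Finset (Fin m))} {j : ℕ} (h : nj L j = 0) (e : Fin m) :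
    cov L e ≠ j := by
  intro he
  have : e ∈ univ.filter fun e => cov L e = j := by simp [he]
  rw [card_eq_zero.1 h] at this
  simp at this

/-- value of a test which depends on the cover number only -/
theorem Ctx.ev_cov (h : Ctx S b w k lv rooted cs X cell T) {n x : ℕ} {u d g : ℕ → ℕ}
    (hu : ∀ c ∈ cs, u c = g (cvr n x c + 1)) (hd : ∀ c ∈ cs, d c = g (cvr n x c)) :
    ev u d cs (trc cs cell T) = ∑ e, g (cov (rl X T n x) e) := by
  rw [h.C.ev_trc]
  refine sum_congr rfl fun e _ => ?_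
  rw [h.cov_rl]
  split_ifs with he
  · rw [hu _ (h.C.mem e)]
  · rw [hd _ (h.C.mem e), add_zero]

theorem Ctx.cov_le (h : Ctx S b w k lv rooted cs X cell T) {n x : ℕ}
    (h3 : ∀ c ∈ cs, cvr n x c ≤ 3) (e : Fin m) : cov (rl X T n x) e ≤ 4 := by
  rw [h.cov_rl]
  have := h3 _ (h.C.mem e)
  split_ifs <;> omega

theorem Ctx.ev_bd (h : Ctx S b w k lv rooted cs X cell T) {u d : ℕ → ℕ} {B : ℕ} {ts : List ℕ}
    (hts : adm cs ts) (hu : ∀ c ∈ cs, u c ≤ B) (hd : ∀ c ∈ cs, d c ≤ B) :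
    ev u d cs ts ≤ 14 * B :=
  (ev_le hts hu hd).trans (Nat.mul_le_mul_right _ (h.sum ▸ h.hm))

/-- weights of the cover numbers -/
def g3 : ℕ → ℕ | 0 => 1 | 3 => 64 | 4 => 2 | _ => 0
def g2 : ℕ → ℕ | 0 => 1 | 4 => 1 | _ => 0
def g4 : ℕ → ℕ | 0 => 1 | 2 => 128 | 3 => 3 | 4 => 3 | _ => 0

/-- an item given by the weights `g` of the cover numbers -/
theorem Ctx.covI_spec (h : Ctx S b w k lv rooted cs X cell T) {G : Prop}
    {ih : ℕ → ℕ → ℕ → ℕ → ℕ → ℕ → ℕ → Bool} (hih : Snd b cs (trc cs cell T) G ih)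
    {it off U D K TM TP n x : ℕ} (hI : Inv b cs (trc cs cell T) G off U D K TM TP)
    (h3 : ∀ c ∈ cs, cvr n x c ≤ 3) {g u d : ℕ → ℕ} {B w1 k0 t0 : ℕ}
    (hu : ∀ c ∈ cs, u c = g (cvr n x c + 1)) (hd : ∀ c ∈ cs, d c = g (cvr n x c))
    (hg : ∀ q ≤ 4, g q ≤ B) (hB : k0 + 14 * B < 2 ^ (w1 + 1)) (ht : t0 < 2 ^ w1)
    (hG : (k0 + (nj (rl X T n x) 0 * g 0 + nj (rl X T n x) 1 * g 1 + nj (rl X T n x) 2 * g 2 +
      nj (rl X T n x) 3 * g 3 + nj (rl X T n x) 4 * g 4)) &&& t0 = 0 → G)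
    (hl : addI b ih it off U D K TM TP w1 (pk b u cs) (pk b d cs) k0 t0 = true) : G := by
  have b1 : ∀ c ∈ cs, u c ≤ B := fun c hc => by
    rw [hu c hc]; exact hg _ (by have := h3 c hc; omega)
  have b2 : ∀ c ∈ cs, d c ≤ B := fun c hc => by
    rw [hd c hc]; exact hg _ (by have := h3 c hc; omega)
  refine addI_spec (h.C.adm_trc T) hih hI (fun c hc => ?_) (fun c hc => ?_) ?_ ht ?_ hl
  · have := b1 c hc; omega
  · have := b2 c hc; omega
  · intro ts hts
    have := h.ev_bd hts b1 b2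
    omega
  · intro h0
    rw [h.ev_cov hu hd, sum_cov _ _ (h.cov_le h3)] at h0
    exact hG h0

/-- vectors of the bits of the cover numbers -/
theorem cvr_facts : ∀ q ≤ 3, q &&& ((q >>> 1) &&& 1) ≤ (q >>> 1) &&& 1 ∧
    (q &&& 1) + ((q >>> 1) &&& 1) ≤ 1 + (q &&& ((q >>> 1) &&& 1)) ∧
    (q &&& ((q >>> 1) &&& 1)) ≤ q &&& 1 := by decide

theorem Ctx.rule3I_spec (h : Ctx S b w k lv rooted cs X cell T) {G : Prop}
    {ih : ℕ → ℕ → ℕ → ℕ → ℕ → ℕ → ℕ → Bool} (hih : Snd b cs (trc cs cell T) G ih)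
    {it off U D K TM TP n x : ℕ} (hI : Inv b cs (trc cs cell T) G off U D K TM TP)
    (h3 : ∀ c ∈ cs, cvr n x c ≤ 3)
    (hl : rule3I (pk b (fun _ => 1) cs) b ih it off U D K TM TP
      (pk b (fun c => cvr n x c &&& 1) cs) (pk b (fun c => (cvr n x c >>> 1) &&& 1) cs)
      (pk b (fun c => cvr n x c &&& ((cvr n x c >>> 1) &&& 1)) cs) = true) : G := by
  have e1 : rule3I (pk b (fun _ => 1) cs) b ih it off U D K TM TP
      (pk b (fun c => cvr n x c &&& 1) cs) (pk b (fun c => (cvr n x c >>> 1) &&& 1) cs)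
      (pk b (fun c => cvr n x c &&& ((cvr n x c >>> 1) &&& 1)) cs) =
    addI b ih it off U D K TM TP 11
      (2 * pk b (fun c => cvr n x c &&& ((cvr n x c >>> 1) &&& 1)) cs +
        (pk b (fun c => (cvr n x c >>> 1) &&& 1) cs -
          pk b (fun c => cvr n x c &&& ((cvr n x c >>> 1) &&& 1)) cs) <<< 6)
      ((pk b (fun _ => 1) cs + pk b (fun c => cvr n x c &&& ((cvr n x c >>> 1) &&& 1)) cs -
        (pk b (fun c => cvr n x c &&& 1) cs + pk b (fun c => (cvr n x c >>> 1) &&& 1) cs)) +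
        pk b (fun c => cvr n x c &&& ((cvr n x c >>> 1) &&& 1)) cs <<< 6) 926 1056 := rfl
  rw [e1, pk_mul, pk_sub fun c hc => (cvr_facts _ (h3 c hc)).1, pk_shl, pk_add, pk_add, pk_add,
    pk_sub fun c hc => (cvr_facts _ (h3 c hc)).2.1, pk_shl, pk_add] at hl
  have f1 : ∀ q ≤ 3,
      2 * (q &&& ((q >>> 1) &&& 1)) + (((q >>> 1) &&& 1) - (q &&& ((q >>> 1) &&& 1))) <<< 6 =
        g3 (q + 1) ∧
      (1 + (q &&& ((q >>> 1) &&& 1)) - ((q &&& 1) + ((q >>> 1) &&& 1))) +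
        (q &&& ((q >>> 1) &&& 1)) <<< 6 = g3 q := by decide
  refine h.covI_spec (g := g3) (B := 64) hih hI h3 (fun c hc => (f1 _ (h3 c hc)).1)
    (fun c hc => (f1 _ (h3 c hc)).2) (by decide) (by norm_num) (by norm_num) ?_ hl
  intro h0
  have hs := sum_nj (rl X T n x) (h.cov_le h3)
  have hm := h.hm
  simp only [g3, mul_one, mul_zero, add_zero] at h0
  have key : ∀ A < 29, ∀ B < 15, (926 + (A + 64 * B)) &&& 1056 = 0 → A ≤ 1 ∧ B ≤ 1 := by decide
  have e2 : nj (rl X T n x) 0 + nj (rl X T n x) 3 * 64 + nj (rl X T n x) 4 * 2 =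
    nj (rl X T n x) 0 + nj (rl X T n x) 4 * 2 + 64 * nj (rl X T n x) 3 := by ring
  rw [e2] at h0
  have h1 := key (nj (rl X T n x) 0 + nj (rl X T n x) 4 * 2) (by omega)
    (nj (rl X T n x) 3) (by omega) h0
  have h4 : nj (rl X T n x) 4 = 0 := by omega
  refine (rule3 S (rl X T n x) (h.mem_rl n x) (by rw [← nj]; omega) h1.2 fun e => ?_).elim
  have := h.cov_le h3 e
  have := nj_zero h4 e
  omega

theorem Ctx.rule2I_spec (h : Ctx S b w k lv rooted cs X cell T) {G : Prop}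
    {ih : ℕ → ℕ → ℕ → ℕ → ℕ → ℕ → ℕ → Bool} (hih : Snd b cs (trc cs cell T) G ih)
    {it off U D K TM TP n x : ℕ} (hI : Inv b cs (trc cs cell T) G off U D K TM TP)
    (h3 : ∀ c ∈ cs, cvr n x c ≤ 3)
    (hl : rule2I (pk b (fun _ => 1) cs) b ih it off U D K TM TP
      (pk b (fun c => cvr n x c &&& 1) cs) (pk b (fun c => (cvr n x c >>> 1) &&& 1) cs)
      (pk b (fun c => cvr n x c &&& ((cvr n x c >>> 1) &&& 1)) cs) = true) : G := by
  have e1 : rule2I (pk b (fun _ => 1) cs) b ih it off U D K TM TP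
      (pk b (fun c => cvr n x c &&& 1) cs) (pk b (fun c => (cvr n x c >>> 1) &&& 1) cs)
      (pk b (fun c => cvr n x c &&& ((cvr n x c >>> 1) &&& 1)) cs) =
    addI b ih it off U D K TM TP 5
      (pk b (fun c => cvr n x c &&& ((cvr n x c >>> 1) &&& 1)) cs)
      ((pk b (fun _ => 1) cs + pk b (fun c => cvr n x c &&& ((cvr n x c >>> 1) &&& 1)) cs -
        (pk b (fun c => cvr n x c &&& 1) cs + pk b (fun c => (cvr n x c >>> 1) &&& 1) cs)))
      15 16 := rfl
  rw [e1, pk_add, pk_add, pk_sub fun c hc => (cvr_facts _ (h3 c hc)).2.1] at hl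
  have f1 : ∀ q ≤ 3, q &&& ((q >>> 1) &&& 1) = g2 (q + 1) ∧
      (1 + (q &&& ((q >>> 1) &&& 1)) - ((q &&& 1) + ((q >>> 1) &&& 1))) = g2 q := by decide
  refine h.covI_spec (g := g2) (B := 1) hih hI h3 (fun c hc => (f1 _ (h3 c hc)).1)
    (fun c hc => (f1 _ (h3 c hc)).2) (by decide) (by norm_num) (by norm_num) ?_ hl
  intro h0
  have hs := sum_nj (rl X T n x) (h.cov_le h3)
  have hm := h.hm
  simp only [g2, mul_one, mul_zero, add_zero] at h0
  have key : ∀ A < 15, (15 + A) &&& 16 = 0 → A = 0 := by decide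
  have h1 := key (nj (rl X T n x) 0 + nj (rl X T n x) 4) (by omega) h0
  have h4 : nj (rl X T n x) 4 = 0 := by omega
  have h5 : nj (rl X T n x) 0 = 0 := by omega
  refine (rule2 S (rl X T n x) (h.mem_rl n x) (fun e => ?_) fun e => ?_).elim
  · have := nj_zero h5 e
    omega
  · have := h.cov_le h3 e
    have := nj_zero h4 e
    omega

theorem Ctx.rule4I_spec (h : Ctx S b w k lv rooted cs X cell T) {G : Prop}
    {ih : ℕ → ℕ → ℕ → ℕ → ℕ → ℕ → ℕ → Bool} (hih : Snd b cs (trc cs cell T) G ih)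
    {it off U D K TM TP n x : ℕ} (hI : Inv b cs (trc cs cell T) G off U D K TM TP)
    (h3 : ∀ c ∈ cs, cvr n x c ≤ 3)
    (hl : rule4I (pk b (fun _ => 1) cs) b ih it off U D K TM TP
      (pk b (fun c => cvr n x c &&& 1) cs) (pk b (fun c => (cvr n x c >>> 1) &&& 1) cs)
      (pk b (fun c => cvr n x c &&& ((cvr n x c >>> 1) &&& 1)) cs) = true) : G := by
  have e1 : rule4I (pk b (fun _ => 1) cs) b ih it off U D K TM TP
      (pk b (fun c => cvr n x c &&& 1) cs) (pk b (fun c => (cvr n x c >>> 1) &&& 1) cs)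
      (pk b (fun c => cvr n x c &&& ((cvr n x c >>> 1) &&& 1)) cs) =
    addI b ih it off U D K TM TP 12
      (3 * pk b (fun c => (cvr n x c >>> 1) &&& 1) cs +
        (pk b (fun c => cvr n x c &&& 1) cs -
          pk b (fun c => cvr n x c &&& ((cvr n x c >>> 1) &&& 1)) cs) <<< 7)
      ((pk b (fun _ => 1) cs + pk b (fun c => cvr n x c &&& ((cvr n x c >>> 1) &&& 1)) cs -
        (pk b (fun c => cvr n x c &&& 1) cs + pk b (fun c => (cvr n x c >>> 1) &&& 1) cs)) +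
        3 * pk b (fun c => cvr n x c &&& ((cvr n x c >>> 1) &&& 1)) cs +
        (pk b (fun c => (cvr n x c >>> 1) &&& 1) cs -
          pk b (fun c => cvr n x c &&& ((cvr n x c >>> 1) &&& 1)) cs) <<< 7) 1469 2112 := rfl
  rw [e1, pk_mul, pk_mul, pk_sub fun c hc => (cvr_facts _ (h3 c hc)).2.2,
    pk_sub fun c hc => (cvr_facts _ (h3 c hc)).1, pk_shl, pk_shl, pk_add, pk_add, pk_add,
    pk_sub fun c hc => (cvr_facts _ (h3 c hc)).2.1, pk_add, pk_add] at hl
  have f1 : ∀ q ≤ 3,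
      3 * ((q >>> 1) &&& 1) + ((q &&& 1) - (q &&& ((q >>> 1) &&& 1))) <<< 7 = g4 (q + 1) ∧
      (1 + (q &&& ((q >>> 1) &&& 1)) - ((q &&& 1) + ((q >>> 1) &&& 1))) +
        3 * (q &&& ((q >>> 1) &&& 1)) +
        (((q >>> 1) &&& 1) - (q &&& ((q >>> 1) &&& 1))) <<< 7 = g4 q := by decide
  refine h.covI_spec (g := g4) (B := 128) hih hI h3 (fun c hc => (f1 _ (h3 c hc)).1)
    (fun c hc => (f1 _ (h3 c hc)).2) (by decide) (by norm_num) (by norm_num) ?_ hl
  intro h0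
  have hs := sum_nj (rl X T n x) (h.cov_le h3)
  have hm := h.hm
  simp only [g4, mul_one, mul_zero, add_zero] at h0
  have key : ∀ A < 43, ∀ B < 15, (1469 + (A + 128 * B)) &&& 2112 = 0 → A ≤ 2 ∧ B ≤ 4 := by
    decide
  have e2 : nj (rl X T n x) 0 + nj (rl X T n x) 2 * 128 + nj (rl X T n x) 3 * 3 +
      nj (rl X T n x) 4 * 3 = nj (rl X T n x) 0 + nj (rl X T n x) 3 * 3 + nj (rl X T n x) 4 * 3 +
      128 * nj (rl X T n x) 2 := by ring
  rw [e2] at h0
  have h1 := key (nj (rl X T n x) 0 + nj (rl X T n x) 3 * 3 + nj (rl X T n x) 4 * 3) (by omega)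
    (nj (rl X T n x) 2) (by omega) h0
  have h4 : nj (rl X T n x) 4 = 0 := by omega
  have h5 : nj (rl X T n x) 3 = 0 := by omega
  refine (rule4 S (rl X T n x) (h.mem_rl n x) (by rw [← nj]; omega) h1.2 fun e => ?_).elim
  have := h.cov_le h3 e
  have := nj_zero h4 e
  have := nj_zero h5 e
  omega

end Pool.Agent.PB36
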