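import Pool.Agent.Lib_helper36.PB.Sem

/-!
# Meaning of the items, second part
-/

namespace Pool.Agent.PB36

open Finset

variable {m : ℕ} {S : Sys m} {b w k lv rooted : ℕ} {cs : List ℕ} {X : ℕ → Finset (Fin m)}
  {cell : Fin m → ℕ} {T : Finset (Fin m)}

theorem pk_zero (cs : List ℕ) : pk b (fun _ => 0) cs = 0 := by
  induction cs with
  | nil => rfl
  | cons c cs ih => rw [pk_cons, ih]; simp

theorem Ctx.ruleStep_spec (h : Ctx S b w k lv rooted cs X cell T) {G : Prop}
    {ih : ℕ → ℕ → ℕ → ℕ → ℕ → ℕ → ℕ → Bool} (hih : Snd b cs (trc cs cell T) G ih)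
    {it off U D K TM TP t n x : ℕ} (hn : n ≤ 7) (hI : Inv b cs (trc cs cell T) G off U D K TM TP)
    (hl : ruleStep (pk b (fun _ => 1) cs) b ih it off U D K TM TP t n
      (covV (pk b id cs) (pk b (fun _ => 1) cs) n x 0) = true) : G := by
  have hb := h.hb
  have e1 : covV (pk b id cs) (pk b (fun _ => 1) cs) n x 0 = pk b (cvr n x) cs := by
    rw [← pk_zero (b := b) cs, covV_spec (by omega) h.cb]
    exact pk_congr fun c _ => by rw [zero_add]
  rw [e1] at hl
  have e2 : ruleStep (pk b (fun _ => 1) cs) b ih it off U D K TM TP t n (pk b (cvr n x) cs) =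
    andB (Nat.beq (pk b (cvr n x) cs &&& (pk b (fun _ => 1) cs * 4)) 0)
    (@Nat.rec (fun _ => Nat → Nat → Nat → Bool)
      (rule3I (pk b (fun _ => 1) cs) b ih (it >>> (6 + 3 * n)) off U D K TM TP)
      (fun t _ => @Nat.rec (fun _ => Nat → Nat → Nat → Bool)
        (rule2I (pk b (fun _ => 1) cs) b ih (it >>> (6 + 3 * n)) off U D K TM TP)
        (fun _ _ => rule4I (pk b (fun _ => 1) cs) b ih (it >>> (6 + 3 * n)) off U D K TM TP) t) t
      (pk b (cvr n x) cs &&& pk b (fun _ => 1) cs)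
      ((pk b (cvr n x) cs >>> 1) &&& pk b (fun _ => 1) cs)
      ((pk b (cvr n x) cs &&& (pk b (cvr n x) cs >>> 1)) &&& pk b (fun _ => 1) cs)) := rfl
  rw [e2, andB_eq, nbeq] at hl
  obtain ⟨h1, h2⟩ := hl
  obtain ⟨h3, h4, h5, h6⟩ := rule_vec (b := b) (by omega)
    (fun c _ => (cvr_le n x c).trans hn) h1
  rw [h4, h5, h6] at h2
  rcases t with _ | t
  · exact h.rule3I_spec hih hI h3 h2
  · rcases t with _ | t
    · exact h.rule2I_spec hih hI h3 h2
    · exact h.rule4I_spec hih hI h3 h2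

/-- item with fields `0` or `1` -/
theorem Ctx.oneI_spec (h : Ctx S b w k lv rooted cs X cell T) {G : Prop}
    {ih : ℕ → ℕ → ℕ → ℕ → ℕ → ℕ → ℕ → Bool} (hih : Snd b cs (trc cs cell T) G ih)
    {it off U D K TM TP : ℕ} (hI : Inv b cs (trc cs cell T) G off U D K TM TP)
    {u d : ℕ → ℕ} {k0 : ℕ} (hu : ∀ c ∈ cs, u c ≤ 1) (hd : ∀ c ∈ cs, d c ≤ 1) (hk : k0 ≤ 15)
    (hG : ∑ e, (if e ∈ T then u (cell e) else d (cell e)) ≤ 15 - k0 → G)
    (hl : addI b ih it off U D K TM TP 5 (pk b u cs) (pk b d cs) k0 16 = true) : G := by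
  refine addI_spec (h.C.adm_trc T) hih hI (fun c hc => ?_) (fun c hc => ?_) ?_ (by norm_num) ?_ hl
  · have := hu c hc; norm_num; omega
  · have := hd c hc; norm_num; omega
  · intro ts hts
    have := h.ev_bd hts hu hd
    norm_num; omega
  · intro h0
    have h1 := h.ev_bd (h.C.adm_trc T) hu hd
    rw [h.C.ev_trc] at h0 h1
    have key : ∀ q < 15, ∀ k ≤ 15, (k + q) &&& 16 = 0 → q ≤ 15 - k := by decide
    exact hG (key _ (by omega) k0 hk h0)

theorem Ctx.pickStep_spec (h : Ctx S b w k lv rooted cs X cell T) {G : Prop}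
    {ih : ℕ → ℕ → ℕ → ℕ → ℕ → ℕ → ℕ → Bool} (hih : Snd b cs (trc cs cell T) G ih)
    {it off U D K TM TP t l : ℕ} (hI : Inv b cs (trc cs cell T) G off U D K TM TP)
    (hl : pickStep k (pk b id cs) (pk b (fun _ => 1) cs) b ih it off U D K TM TP t l = true) :
    G := by
  have hb := h.hb
  have e2 : pickStep k (pk b id cs) (pk b (fun _ => 1) cs) b ih it off U D K TM TP t l =
    andB (Nat.ble (l + 1) k)
    (@Nat.rec (fun _ => Bool)
      (addI b ih (it >>> 6) off U D K TM TP 5
        ((pk b id cs >>> l) &&& pk b (fun _ => 1) cs) 0 15 16)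
      (fun t _ => @Nat.rec (fun _ => Bool)
        (addI b ih (it >>> 6) off U D K TM TP 5 (pk b (fun _ => 1) cs) 0 13 16)
        (fun _ _ => addI b ih (it >>> 6) off U D K TM TP 5
          (pk b (fun _ => 1) cs - ((pk b id cs >>> l) &&& pk b (fun _ => 1) cs))
          ((pk b id cs >>> l) &&& pk b (fun _ => 1) cs) 15 16)
        t) t) := rfl
  rw [e2, andB_eq, nble] at hl
  obtain ⟨h1, h2⟩ := hl
  have hk6 := h.k6
  have hl8 : l < 8 := by omega
  have hlb : l < b := by omega
  have hbt := fun e => h.bt_eq hl8 e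
  rw [mask_eq h.cb hlb] at h2
  have hTX : ∀ e, e ∈ T ∧ e ∈ X l → False ∨ True := fun _ _ => Or.inr trivial
  rcases t with _ | t
  · have h3 : addI b ih (it >>> 6) off U D K TM TP 5 (pk b (bt l) cs) 0 15 16 = true := h2
    rw [← pk_zero (b := b) cs] at h3
    refine h.oneI_spec hih hI (fun c _ => bt_le l c) (fun c _ => Nat.zero_le _) le_rfl ?_ h3
    intro h0
    obtain ⟨e, he⟩ := S.int T h.hT (X l) (h.hX l (by omega))
    rw [mem_inter] at he
    have h4 : ∑ e, (if e ∈ T then bt l (cell e) else 0) = 0 := by omega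
    rw [sum_eq_zero_iff] at h4
    have h5 := h4 e (mem_univ e)
    rw [if_pos he.1, hbt, if_pos he.2] at h5
    exact absurd h5 one_ne_zero
  · rcases t with _ | t
    · have h3 : addI b ih (it >>> 6) off U D K TM TP 5 (pk b (fun _ => 1) cs) 0 13 16 = true := h2
      rw [← pk_zero (b := b) cs] at h3
      refine h.oneI_spec hih hI (fun c _ => le_rfl) (fun c _ => Nat.zero_le _) (by norm_num) ?_ h3
      intro h0
      have h4 : ∑ e, (if e ∈ T then 1 else 0) = T.card := by simp
      rw [h4] at h0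
      have := size3 S h.hT
      omega
    · have h3 : addI b ih (it >>> 6) off U D K TM TP 5 (pk b (fun _ => 1) cs - pk b (bt l) cs)
          (pk b (bt l) cs) 15 16 = true := h2
      rw [pk_sub fun c _ => bt_le l c] at h3
      refine h.oneI_spec hih hI (fun c _ => Nat.sub_le _ _) (fun c _ => bt_le l c) le_rfl ?_ h3
      intro h0
      exfalso
      apply h.ne l (by omega)
      have h4 : ∑ e, (if e ∈ T then 1 - bt l (cell e) else bt l (cell e)) = 0 := by omega
      rw [sum_eq_zero_iff] at h4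
      ext e
      have h5 := h4 e (mem_univ e)
      rw [hbt] at h5
      constructor
      · intro he
        by_contra hcon
        rw [if_pos he, if_neg hcon] at h5
        simp at h5
      · intro he
        by_contra hcon
        rw [if_neg hcon, if_pos he] at h5
        exact one_ne_zero h5

/-- no configuration has the header and profile `p` -/
def Dead (S : Sys m) (p : ℕ) : Prop :=
  ∀ X : ℕ → Finset (Fin m), (∀ i, (p >>> 1) &&& 7 ≤ i → X i = ∅) →
    prf ((p >>> 4) &&& 7) X = p >>> 16 →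
    (∀ i < (p >>> 1) &&& 7, X i ≠ ∅) ∧
    ¬ ((∀ i < (p >>> 1) &&& 7, X i ∈ supp S.w) ∧ ((p &&& 65535) &&& 1 = 1 → X 0 = S.R) ∧
      ∀ i, ((p &&& 65535) >>> 7).testBit i = true → S.w S.R < 2 * S.w (X i))

theorem Sys.pos (S : Sys m) : 0 < S.w S.R := mem_supp.1 S.hR

theorem Sys.empty (S : Sys m) : S.w ∅ = 0 := S.feas.2.1

/-- the configuration of a reference -/
def cf (X : ℕ → Finset (Fin m)) (T : Finset (Fin m)) (n x j : ℕ) (i : ℕ) : Finset (Fin m) :=
  if i < n then (if i = j then T else X (en x i)) else ∅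

theorem Ctx.ref_false (h : Ctx S b w k lv rooted cs X cell T) {p x j lv' : ℕ} (hD : Dead S p)
    (hr : rooted ≤ 1)
    (hs : refStat rooted lv' (p &&& 65535) ((p >>> 1) &&& 7) x j = true)
    (hlev : ∀ i, i ≠ 7 → lv'.testBit i = true → S.w S.R < 2 * S.w (X i))
    (h7 : lv'.testBit 7 = true → S.w S.R < 2 * S.w T)
    (hprf : prf ((p >>> 4) &&& 7) (cf X T ((p >>> 1) &&& 7) x j) = p >>> 16) : False := by
  set n := (p >>> 1) &&& 7 with hn
  set hd := p &&& 65535 with hhd
  have e1 : refStat rooted lv' hd n x j =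
    andB (Nat.beq ((x >>> (3 * j)) &&& 7) 7)
    (andB (Nat.ble (j + 1) n)
    (andB (@Bool.rec (fun _ => Bool)
      (Nat.beq (hd >>> 7) ((hd >>> 7) &&& (gath lv' n x 0 0))) true (Nat.beq (hd >>> 7) 0))
    (andB (Nat.ble (hd &&& 1) rooted) (Nat.beq ((hd &&& 1) * (x &&& 7)) 0)))) := rfl
  rw [e1, andB_eq, andB_eq, andB_eq, andB_eq, nbeq, nble, nble, nbeq] at hs
  obtain ⟨s1, s2, s3, s4, s5⟩ := hs
  have s1' : en x j = 7 := s1
  obtain ⟨d1, d2⟩ := hD (cf X T n x j) (fun i hi => by rw [cf, if_neg (by omega)]) hprf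
  have hk6 := h.k6
  have hX7 : X 7 = ∅ := h.hX0 7 (by omega)
  refine d2 ⟨?_, ?_, ?_⟩
  · intro i hi
    have hne := d1 i hi
    rw [cf, if_pos hi] at hne ⊢
    by_cases hij : i = j
    · rw [if_pos hij]; exact h.hT
    · rw [if_neg hij] at hne ⊢
      rcases lt_or_ge (en x i) k with hk | hk
      · exact h.hX _ hk
      · exact absurd (h.hX0 _ hk) hne
  · intro h1
    rw [h1] at s4 s5
    have s6 : en x 0 = 0 := by
      have : x &&& 7 = 0 := by omega
      simpa [en] using this
    have hj0 : (0 : ℕ) ≠ j := by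
      rintro rfl
      rw [s6] at s1'
      exact absurd s1' (by norm_num)
    rw [cf, if_pos (by omega), if_neg hj0, s6]
    exact h.root (by omega)
  · intro i hi
    have hz : hd >>> 7 ≠ 0 := by
      intro hz
      rw [hz, Nat.zero_testBit] at hi
      exact absurd hi (by simp)
    have s7 : hd >>> 7 = (hd >>> 7) &&& (gath lv' n x 0 0) := by
      rw [nbne.2 hz] at s3
      exact nbeq.1 s3
    have hi2 := hi
    rw [s7, Nat.testBit_and, hi, Bool.true_and] at hi2
    have g1 := (gath_spec (lv := lv') (n := n) (x := x) (sh := 0) (acc := 0) (by norm_num)).1 i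
    rw [zero_add] at g1
    rw [g1, Bool.and_eq_true, decide_eq_true_eq] at hi2
    obtain ⟨hin, hi3⟩ := hi2
    have hne := d1 i hin
    rw [cf, if_pos hin] at hne ⊢
    by_cases hij : i = j
    · rw [if_pos hij]
      rw [hij, s1'] at hi3
      exact h7 hi3
    · rw [if_neg hij] at hne ⊢
      refine hlev _ ?_ hi3
      intro h8
      rw [h8] at hne
      exact hne hX7

/-- exponents of the reference -/
theorem expo_sum (n x e c : ℕ) : expo n x e c = e * ∑ i ∈ range n, 2 ^ i * bt (en x i) c := by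
  induction n generalizing x e with
  | zero => simp [expo]
  | succ n ih =>
    rw [expo, ih, sum_range_succ']
    have h1 : ∑ i ∈ range n, 2 ^ (i + 1) * bt (en x (i + 1)) c =
        2 * ∑ i ∈ range n, 2 ^ i * bt (en (x >>> 3) i) c := by
      rw [mul_sum]
      exact sum_congr rfl fun i _ => by rw [en_succ, pow_succ]; ring
    rw [h1]
    have h2 : en x 0 = x &&& 7 := by simp [en]
    rw [h2]
    ring

theorem en_lt (x i : ℕ) : en x i < 8 := by
  have := and7_le (x >>> (3 * i))
  rw [en]; omega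

/-- patterns of the configuration of the reference -/
theorem Ctx.pat_cf (h : Ctx S b w k lv rooted cs X cell T) {n x j : ℕ} (hn : n ≤ 7) (hj : j < n)
    (h7 : en x j = 7) (w' : ℕ) (e : Fin m) :
    w' * pat (cf X T n x j) e = expo n x w' (cell e) + if e ∈ T then w' * 2 ^ j else 0 := by
  have hk6 := h.k6
  have hX7 : X 7 = ∅ := h.hX0 7 (by omega)
  have h1 : pat (cf X T n x j) e =
      ∑ i ∈ range n, (2 ^ i * bt (en x i) (cell e) + if i = j then (if e ∈ T then 2 ^ j else 0) else 0) := by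
    rw [pat, bits, ← sum_subset (range_subset_range.2 (hn.trans (by norm_num)))]
    · refine sum_congr rfl fun i hi => ?_
      rw [mem_range] at hi
      simp only [cf, if_pos hi, decide_eq_true_eq]
      by_cases hij : i = j
      · subst hij
        rw [if_pos rfl, if_pos rfl, h7, h.bt_eq (by norm_num), hX7]
        simp
      · rw [if_neg hij, if_neg hij, h.bt_eq (en_lt x i)]
        split_ifs <;> simp
    · intro i _ hi
      rw [mem_range] at hi
      simp [cf, hi]
  rw [h1, sum_add_distrib, expo_sum, mul_add, sum_ite_eq', if_pos (mem_range.2 hj)]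
  split_ifs <;> simp

theorem expo_bound {n x j c : ℕ} (hj : j < n) (h7 : en x j = 7) (hc : bt 7 c = 0) (w' : ℕ) :
    expo n x w' c + w' * 2 ^ j ≤ w' * (2 ^ n - 1) := by
  rw [expo_sum, ← mul_add]
  refine Nat.mul_le_mul_left _ ?_
  have h1 : ∑ i ∈ range n, 2 ^ i = 2 ^ n - 1 := by
    have := Nat.geomSum_eq (le_refl 2) n
    simpa using this
  rw [← h1]
  have h2 : ∑ i ∈ range n, (if i = j then 2 ^ j else 0) = 2 ^ j := by
    rw [sum_ite_eq', if_pos (mem_range.2 hj)]
  rw [← h2, ← sum_add_distrib]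
  refine sum_le_sum fun i _ => ?_
  by_cases hij : i = j
  · subst hij
    rw [if_pos rfl, h7, hc]
    simp
  · rw [if_neg hij, add_zero]
    exact (Nat.mul_le_mul_left _ (bt_le _ _)).trans (by simp)

end Pool.Agent.PB36
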