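import Pool.Agent.Lib_helper36.PB.Sem2

/-!
# Meaning of the items, third part
-/

namespace Pool.Agent.PB36

open Finset

variable {m : ℕ} {S : Sys m} {b w k lv rooted : ℕ} {cs : List ℕ} {X : ℕ → Finset (Fin m)}
  {cell : Fin m → ℕ} {T : Finset (Fin m)}

theorem ref_arith {w1 pr V : ℕ} (hp : pr >>> w1 = 0) (hV : V < 2 ^ w1)
    (h : ((1 <<< w1 - pr) + V) &&& (2 ^ w1 - 1) = 0) : V = pr := by
  have h1 : pr < 2 ^ w1 := by
    rw [Nat.shiftRight_eq_div_pow] at hp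
    exact (Nat.div_eq_zero_iff_lt (by positivity)).1 hp
  have h2 : (1 : ℕ) <<< w1 = 2 ^ w1 := by simp [Nat.shiftLeft_eq]
  rw [Nat.and_two_pow_sub_one_eq_mod, h2] at h
  obtain ⟨q, hq⟩ := Nat.dvd_of_mod_eq_zero h
  have hq1 : q = 1 := by
    have h3 : q < 2 := by
      by_contra hcon
      have : 2 ^ w1 * 2 ≤ 2 ^ w1 * q := Nat.mul_le_mul_left _ (not_lt.1 hcon)
      omega
    have h4 : q ≠ 0 := by
      rintro rfl
      rw [mul_zero] at hq
      omega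
    omega
  rw [hq1] at hq
  omega

theorem addI_le {ih : ℕ → ℕ → ℕ → ℕ → ℕ → ℕ → ℕ → Bool}
    {it off U D K TM TP w1 u d k t : ℕ}
    (h : addI b ih it off U D K TM TP w1 u d k t = true) : off + 1 + w1 ≤ b := by
  have h0 : addI b ih it off U D K TM TP w1 u d k t =
    andB (Nat.ble (off + 1 + w1) b) (ih it (off + 1 + w1) (U + u <<< off)
      (D + d <<< off) (K + k <<< off) (TM + t <<< off) (TP + 1 <<< (off + w1))) := rfl
  rw [h0, andB_eq, nble] at h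
  exact h.1

theorem Ctx.refStep2_spec (h : Ctx S b w k lv rooted cs X cell T) {G : Prop}
    {ih : ℕ → ℕ → ℕ → ℕ → ℕ → ℕ → ℕ → Bool} (hih : Snd b cs (trc cs cell T) G ih)
    {off U D K TM TP p x j lv' s0 k0 t0 : ℕ} {uf df : ℕ → ℕ}
    (hI : Inv b cs (trc cs cell T) G off U D K TM TP) (hD : Dead S p) (hr : rooted ≤ 1)
    (huf : ∀ c ∈ cs, uf c < 2 ^ s0) (hdf : ∀ c ∈ cs, df c < 2 ^ s0)
    (hk0 : ∀ ts, adm cs ts → k0 + ev uf df cs ts < 2 ^ s0) (ht0 : t0 < 2 ^ s0)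
    (hlev : ∀ i, i ≠ 7 → lv'.testBit i = true → S.w S.R < 2 * S.w (X i))
    (hG : (k0 + ev uf df cs (trc cs cell T)) &&& t0 = 0 →
      ((lv'.testBit 7 = true → S.w S.R < 2 * S.w T) → False) → G)
    (hl : refStep2 rooted lv' (pk b id cs) (pk b (fun _ => 1) cs) (2 ^ b - 1) b s0 (pk b uf cs)
      (pk b df cs) k0 t0 ih off U D K TM TP j x (p &&& 65535) (p >>> 16) ((p >>> 1) &&& 7)
      ((p >>> 4) &&& 7)
      ((((p >>> 4) &&& 7) <<< ((p >>> 1) &&& 7)) - ((p >>> 4) &&& 7) + 4) = true) : G := by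
  have hb := h.hb
  set n := (p >>> 1) &&& 7 with hn
  set w' := (p >>> 4) &&& 7 with hw'
  set w1 := w' <<< n - w' + 4 with hw1
  have hn7 : n ≤ 7 := Nat.and_le_right
  have e1 : refStep2 rooted lv' (pk b id cs) (pk b (fun _ => 1) cs) (2 ^ b - 1) b s0 (pk b uf cs)
      (pk b df cs) k0 t0 ih off U D K TM TP j x (p &&& 65535) (p >>> 16) n w' w1 =
    andB (refStat rooted lv' (p &&& 65535) n x j)
    (andB (Nat.beq ((p >>> 16) >>> w1) 0)
      (addI b ih (x >>> (3 * n)) off U D K TM TP (w1 + s0)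
        (pk b uf cs + (dvec (pk b id cs) (pk b (fun _ => 1) cs) (2 ^ b - 1) n x w'
          (pk b (fun _ => 1) cs)) <<< (s0 + w' <<< j))
        (pk b df cs + (dvec (pk b id cs) (pk b (fun _ => 1) cs) (2 ^ b - 1) n x w'
          (pk b (fun _ => 1) cs)) <<< s0)
        (k0 + (1 <<< w1 - p >>> 16) <<< s0)
        (t0 + (1 <<< w1 - 1) <<< s0))) := rfl
  rw [e1, andB_eq, andB_eq, nbeq] at hl
  obtain ⟨h1, h2, h3⟩ := hl
  have h4 := addI_le h3
  have hone : ∀ q : ℕ, (1 : ℕ) <<< q = 2 ^ q := fun q => by simp [Nat.shiftLeft_eq]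
  have hw1' : w1 = w' * (2 ^ n - 1) + 4 := by
    rw [hw1, Nat.shiftLeft_eq, Nat.mul_sub, mul_one]
  -- static facts
  have s1 : en x j = 7 ∧ j < n := by
    have e2 : refStat rooted lv' (p &&& 65535) n x j =
      andB (Nat.beq ((x >>> (3 * j)) &&& 7) 7)
      (andB (Nat.ble (j + 1) n)
      (andB (@Bool.rec (fun _ => Bool)
        (Nat.beq ((p &&& 65535) >>> 7) (((p &&& 65535) >>> 7) &&& (gath lv' n x 0 0))) true
          (Nat.beq ((p &&& 65535) >>> 7) 0))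
      (andB (Nat.ble ((p &&& 65535) &&& 1) rooted)
        (Nat.beq (((p &&& 65535) &&& 1) * (x &&& 7)) 0)))) := rfl
    rw [e2, andB_eq, andB_eq, nbeq, nble] at h1
    exact ⟨h1.1, h1.2.1⟩
  have hdv : dvec (pk b id cs) (pk b (fun _ => 1) cs) (2 ^ b - 1) n x w' (pk b (fun _ => 1) cs) =
      pk b (fun c => 2 ^ expo n x w' c) cs := by
    rw [dvec_spec (by omega) h.cb]
    · exact pk_congr fun c _ => one_mul _
    · intro c _
      rw [one_mul]
      exact Nat.pow_lt_pow_right (by norm_num) (by omega)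
  rw [hdv, pk_shl, pk_shl, pk_add, pk_add, hone w1] at h3
  -- bound of the fields
  set Bm := 2 ^ (w' * (2 ^ n - 1)) with hBm
  have hBw : 2 ^ w1 = 16 * Bm := by rw [hw1', pow_add, hBm]; ring
  have hBpos : 1 ≤ Bm := Nat.one_le_two_pow
  have hu1 : ∀ c ∈ cs, 2 ^ (expo n x w' c + w' * 2 ^ j) ≤ Bm := fun c hc =>
    Nat.pow_le_pow_right (by norm_num) (expo_bound s1.2 s1.1 (h.ck c hc).b7 w')
  have hd1 : ∀ c ∈ cs, 2 ^ expo n x w' c ≤ Bm := fun c hc =>
    Nat.pow_le_pow_right (by norm_num) (expo_le n x w' c)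
  have hshift : ∀ c, (2 ^ expo n x w' c) <<< (s0 + w' <<< j) =
      (2 ^ (expo n x w' c + w' * 2 ^ j)) <<< s0 := by
    intro c
    simp only [Nat.shiftLeft_eq, pow_add]
    ring
  have hsplit : 2 ^ (w1 + s0 + 1) = 2 ^ s0 * (2 * 2 ^ w1) := by
    rw [pow_succ, pow_add]; ring
  have big : ∀ x y : ℕ, x < 2 ^ s0 → y < 2 * 2 ^ w1 → x + y <<< s0 < 2 ^ (w1 + s0 + 1) := by
    intro x y hx hy
    rw [hsplit, Nat.shiftLeft_eq]
    calc x + y * 2 ^ s0 < 2 ^ s0 + y * 2 ^ s0 := by omega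
      _ = 2 ^ s0 * (y + 1) := by ring
      _ ≤ _ := Nat.mul_le_mul_left _ hy
  rw [pk_congr (g := fun c => uf c + (2 ^ (expo n x w' c + w' * 2 ^ j)) <<< s0)
    (fun c _ => by rw [hshift])] at h3
  have hevs : ∀ ts, k0 + (2 ^ w1 - p >>> 16) <<< s0 +
      ev (fun c => uf c + (2 ^ (expo n x w' c + w' * 2 ^ j)) <<< s0)
        (fun c => df c + (2 ^ expo n x w' c) <<< s0) cs ts =
      (k0 + ev uf df cs ts) + 2 ^ s0 * ((2 ^ w1 - p >>> 16) +
        ev (fun c => 2 ^ (expo n x w' c + w' * 2 ^ j)) (fun c => 2 ^ expo n x w' c) cs ts) := by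
    intro ts
    rw [ev_add, Nat.shiftLeft_eq]; ring
  have hev1 : ∀ ts, adm cs ts →
      ev (fun c => 2 ^ (expo n x w' c + w' * 2 ^ j)) (fun c => 2 ^ expo n x w' c) cs ts <
        2 ^ w1 := by
    intro ts hts
    have := h.ev_bd hts hu1 hd1
    omega
  have ht1 : t0 + (2 ^ w1 - 1) <<< s0 = t0 + 2 ^ s0 * (2 ^ w1 - 1) := by
    rw [Nat.shiftLeft_eq, mul_comm]
  refine addI_spec (h.C.adm_trc T) hih hI (fun c hc => big _ _ (huf c hc) ?_)
    (fun c hc => big _ _ (hdf c hc) ?_) ?_ ?_ ?_ h3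
  · have := hu1 c hc; omega
  · have := hd1 c hc; omega
  · intro ts hts
    rw [hevs, mul_comm (2 ^ s0), ← Nat.shiftLeft_eq]
    refine big _ _ (hk0 ts hts) ?_
    have := hev1 ts hts
    omega
  · have h5 : 2 ^ (w1 + s0) = 2 ^ s0 * 2 ^ w1 := by rw [pow_add, mul_comm]
    have h6 : 1 ≤ 2 ^ w1 := Nat.one_le_two_pow
    rw [ht1, h5]
    calc t0 + 2 ^ s0 * (2 ^ w1 - 1) < 2 ^ s0 * 1 + 2 ^ s0 * (2 ^ w1 - 1) := by omega
      _ = 2 ^ s0 * (1 + (2 ^ w1 - 1)) := by ring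
      _ = 2 ^ s0 * 2 ^ w1 := by congr 1; omega
  · intro h0
    rw [hevs, ht1, land_two (hk0 _ (h.C.adm_trc T)) ht0] at h0
    have h5 : (k0 + ev uf df cs (trc cs cell T)) &&& t0 = 0 := by omega
    have h6 : 2 ^ s0 * (((2 ^ w1 - p >>> 16) +
        ev (fun c => 2 ^ (expo n x w' c + w' * 2 ^ j)) (fun c => 2 ^ expo n x w' c) cs
          (trc cs cell T)) &&& (2 ^ w1 - 1)) = 0 := by omega
    rw [mul_eq_zero] at h6
    rcases h6 with h6 | h6
    · have : 0 < 2 ^ s0 := by positivity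
      omega
    have h7 := ref_arith h2 (hev1 _ (h.C.adm_trc T)) (by rw [hone w1]; exact h6)
    refine hG h5 fun h8 => ?_
    refine h.ref_false hD hr h1 hlev h8 ?_
    rw [← h7, h.C.ev_trc, prf]
    refine sum_congr rfl fun e _ => ?_
    rw [← hn, ← hw', h.pat_cf hn7 s1.2 s1.1]
    split_ifs <;> simp

/-- kind 6 -/
theorem Ctx.lev_six (h : Ctx S b w k lv rooted cs X cell T) :
    lv.testBit 7 = true → S.w S.R < 2 * S.w T := by
  intro h7
  have h1 := h.lev 7 h7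
  rw [h.hX0 7 (h.k6.trans (by norm_num)), S.empty, mul_zero] at h1
  exact absurd h1 (not_lt.2 S.pos.le)

/-- kind 7 -/
theorem Ctx.lev_seven (h : Ctx S b w k lv rooted cs X cell T) (hr : rooted ≤ 1) :
    ∀ i, i ≠ 7 → (lv ||| rooted <<< 7).testBit i = true → S.w S.R < 2 * S.w (X i) := by
  intro i hi h7
  rw [Nat.testBit_or] at h7
  have h8 : (rooted <<< 7).testBit i = false := by
    rw [Nat.testBit_shiftLeft]
    by_cases h7i : 7 ≤ i
    · have : 1 ≤ i - 7 := by omega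
      rw [Nat.testBit_lt_two_pow (x := rooted) (i := i - 7)]
      · simp
      · calc rooted < 2 ^ 1 := by omega
          _ ≤ 2 ^ (i - 7) := Nat.pow_le_pow_right (by norm_num) this
    · simp [h7i]
  rw [h8, Bool.or_false] at h7
  exact h.lev i h7

end Pool.Agent.PB36
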