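import Pool.Agent.Lib_helper36.PB.Sem3

/-!
# The loop over the items and the potential
-/

namespace Pool.Agent.PB36

open Finset

variable {m : ℕ} {S : Sys m} {b w k lv rooted : ℕ} {cs : List ℕ} {X : ℕ → Finset (Fin m)}
  {cell : Fin m → ℕ} {T : Finset (Fin m)}

theorem Ctx.itemL_spec (h : Ctx S b w k lv rooted cs X cell T) (hr : rooted ≤ 1) {db : NL} {id' : ℕ}
    (hdb : ∀ rid < id', Dead S (getR db rid)) {G : Prop} {s0 k0 t0 : ℕ} {uf df : ℕ → ℕ}
    (huf : ∀ c ∈ cs, uf c < 2 ^ s0) (hdf : ∀ c ∈ cs, df c < 2 ^ s0)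
    (hk0 : ∀ ts, adm cs ts → k0 + ev uf df cs ts < 2 ^ s0) (ht0 : t0 < 2 ^ s0)
    (hG7 : (k0 + ev uf df cs (trc cs cell T)) &&& t0 = 0 → ¬ S.w S.R < 2 * S.w T → G)
    {fin : ℕ → ℕ → ℕ → ℕ → ℕ → ℕ → ℕ → Bool} (hfin : Snd b cs (trc cs cell T) G fin) (n : ℕ) :
    Snd b cs (trc cs cell T) G (itemL db id' rooted k lv (pk b id cs) (pk b (fun _ => 1) cs)
      (2 ^ b - 1) b s0 (pk b uf cs) (pk b df cs) k0 t0 fin n) := by
  induction n with
  | zero => exact hfin
  | succ n ih =>
    intro it off U D K TM TP hI hl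
    set f := itemL db id' rooted k lv (pk b id cs) (pk b (fun _ => 1) cs)
      (2 ^ b - 1) b s0 (pk b uf cs) (pk b df cs) k0 t0 fin n with hf
    have e1 : itemL db id' rooted k lv (pk b id cs) (pk b (fun _ => 1) cs)
      (2 ^ b - 1) b s0 (pk b uf cs) (pk b df cs) k0 t0 fin (n + 1) it off U D K TM TP =
      @Bool.rec (fun _ => Bool)
        (@Bool.rec (fun _ => Bool)
          (@Bool.rec (fun _ => Bool)
            (refStep id' rooted (lv ||| rooted <<< 7) (pk b id cs) (pk b (fun _ => 1) cs)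
              (2 ^ b - 1) b s0 (pk b uf cs) (pk b df cs) k0 t0 f it off U D K TM TP
              ((it >>> 3) &&& 8191) (getR db ((it >>> 3) &&& 8191)))
            (refStep id' rooted lv (pk b id cs) (pk b (fun _ => 1) cs) (2 ^ b - 1) b 0 0 0 0 0
              f it off U D K TM TP ((it >>> 3) &&& 8191) (getR db ((it >>> 3) &&& 8191)))
            (Nat.beq (it &&& 7) 6))
          (pickStep k (pk b id cs) (pk b (fun _ => 1) cs) b f it off U D K TM TP ((it &&& 7) - 3)
            ((it >>> 3) &&& 7))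
          (Nat.ble (it &&& 7) 5))
        (ruleStep (pk b (fun _ => 1) cs) b f it off U D K TM TP (it &&& 7) ((it >>> 3) &&& 7)
          (covV (pk b id cs) (pk b (fun _ => 1) cs) ((it >>> 3) &&& 7) (it >>> 6) 0))
        (Nat.ble (it &&& 7) 2) := rfl
    rw [e1] at hl
    cases h2 : Nat.ble (it &&& 7) 2 with
    | true =>
      rw [h2] at hl
      exact h.ruleStep_spec ih Nat.and_le_right hI hl
    | false =>
      rw [h2] at hl
      cases h5 : Nat.ble (it &&& 7) 5 with
      | true =>
        rw [h5] at hl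
        exact h.pickStep_spec ih hI hl
      | false =>
        rw [h5] at hl
        cases h6 : Nat.beq (it &&& 7) 6 with
        | true =>
          rw [h6] at hl
          set rid := (it >>> 3) &&& 8191 with hrid
          set p := getR db rid with hp
          have e2 : refStep id' rooted lv (pk b id cs) (pk b (fun _ => 1) cs) (2 ^ b - 1) b 0 0 0
              0 0 f it off U D K TM TP rid p =
            andB (Nat.ble (rid + 1) id')
            (refStep2 rooted lv (pk b id cs) (pk b (fun _ => 1) cs) (2 ^ b - 1) b 0 0 0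
              0 0 f off U D K TM TP ((it >>> 16) &&& 7) (it >>> 19) (p &&& 65535) (p >>> 16)
              ((p >>> 1) &&& 7) ((p >>> 4) &&& 7)
              ((((p >>> 4) &&& 7) <<< ((p >>> 1) &&& 7)) - ((p >>> 4) &&& 7) + 4)) := rfl
          have hl2 : refStep id' rooted lv (pk b id cs) (pk b (fun _ => 1) cs) (2 ^ b - 1) b 0 0 0
              0 0 f it off U D K TM TP rid p = true := hl
          rw [e2, andB_eq, nble] at hl2
          obtain ⟨h7, h8⟩ := hl2
          have hz : ∀ ts, ev (fun _ => 0) (fun _ => 0) cs ts = 0 := by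
            intro ts
            have : ∀ cs ts : List ℕ, ev (fun _ => 0) (fun _ => 0) cs ts = 0 := by
              intro cs
              induction cs with
              | nil => intro ts; rfl
              | cons c cs ih =>
                intro ts
                cases ts with
                | nil => rfl
                | cons t ts => rw [ev, ih]; simp
            exact this cs ts
          have h9 : refStep2 rooted lv (pk b id cs) (pk b (fun _ => 1) cs) (2 ^ b - 1) b 0
              (pk b (fun _ => 0) cs) (pk b (fun _ => 0) cs)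
              0 0 f off U D K TM TP ((it >>> 16) &&& 7) (it >>> 19) (p &&& 65535) (p >>> 16)
              ((p >>> 1) &&& 7) ((p >>> 4) &&& 7)
              ((((p >>> 4) &&& 7) <<< ((p >>> 1) &&& 7)) - ((p >>> 4) &&& 7) + 4) = true := by
            rw [pk_zero]; exact h8
          refine h.refStep2_spec ih hI (hdb rid (by omega)) hr (by simp) (by simp)
            (fun ts _ => by rw [hz]; simp) (by simp) (fun i _ hi => h.lev i hi) ?_ h9
          intro _ hF
          exact (hF h.lev_six).elim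
        | false =>
          rw [h6] at hl
          set rid := (it >>> 3) &&& 8191 with hrid
          set p := getR db rid with hp
          have e2 : refStep id' rooted (lv ||| rooted <<< 7) (pk b id cs) (pk b (fun _ => 1) cs)
              (2 ^ b - 1) b s0 (pk b uf cs) (pk b df cs) k0 t0 f it off U D K TM TP rid p =
            andB (Nat.ble (rid + 1) id')
            (refStep2 rooted (lv ||| rooted <<< 7) (pk b id cs) (pk b (fun _ => 1) cs)
              (2 ^ b - 1) b s0 (pk b uf cs) (pk b df cs) k0 t0 f off U D K TM TP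
              ((it >>> 16) &&& 7) (it >>> 19) (p &&& 65535) (p >>> 16)
              ((p >>> 1) &&& 7) ((p >>> 4) &&& 7)
              ((((p >>> 4) &&& 7) <<< ((p >>> 1) &&& 7)) - ((p >>> 4) &&& 7) + 4)) := rfl
          have hl2 : refStep id' rooted (lv ||| rooted <<< 7) (pk b id cs) (pk b (fun _ => 1) cs)
              (2 ^ b - 1) b s0 (pk b uf cs) (pk b df cs) k0 t0 f it off U D K TM TP rid p =
              true := hl
          rw [e2, andB_eq, nble] at hl2
          obtain ⟨h7, h8⟩ := hl2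
          refine h.refStep2_spec ih hI (hdb rid (by omega)) hr huf hdf hk0 ht0
            (h.lev_seven hr) ?_ h8
          intro hV hF
          exact hG7 hV fun hh => hF fun _ => hh

/-- potential of the points -/
def yy (cell : Fin m → ℕ) (e : Fin m) : ℤ := (yp (cell e) : ℤ) - ym (cell e)

/-- sum with weights -/
def sw (cs : List ℕ) (f β : ℕ → ℕ) : ℕ := (cs.map fun c => nc c * f c * β c).sum

theorem and_split (x : ℕ) : x &&& 268374015 = (x &&& 4095) + 2 ^ 16 * ((x >>> 16) &&& 4095) := by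
  have h1 : x = x % 2 ^ 16 + 2 ^ 16 * (x / 2 ^ 16) := (Nat.mod_add_div _ _).symm
  have h2 : (268374015 : ℕ) = 4095 + 2 ^ 16 * 4095 := by norm_num
  conv_lhs => rw [h1, h2]
  rw [land_two (Nat.mod_lt _ (by positivity)) (by norm_num), Nat.shiftRight_eq_div_pow]
  congr 1
  have h3 : (4095 : ℕ) = 2 ^ 12 - 1 := by norm_num
  rw [h3, Nat.and_two_pow_sub_one_eq_mod, Nat.and_two_pow_sub_one_eq_mod,
    Nat.mod_mod_of_dvd _ (pow_dvd_pow 2 (by norm_num))]

theorem nvf_eq (c : ℕ) : nvf c = nc c * yp c + 2 ^ 16 * (nc c * ym c) := by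
  rw [nvf, and_split, yp, ym, ← Nat.shiftRight_add]
  ring

theorem yp_le (c : ℕ) : yp c ≤ 4095 := Nat.and_le_right
theorem ym_le (c : ℕ) : ym c ≤ 4095 := Nat.and_le_right

theorem sw_le {cs : List ℕ} {f β : ℕ → ℕ} {B : ℕ} (hf : ∀ c, f c ≤ B) (hβ : ∀ c ∈ cs, β c ≤ 1) :
    sw cs f β ≤ (cs.map nc).sum * B := by
  induction cs with
  | nil => simp [sw]
  | cons c cs ih =>
    have h1 := ih fun c hc => hβ c (by simp [hc])
    have h2 : nc c * f c * β c ≤ nc c * B * 1 :=
      Nat.mul_le_mul (Nat.mul_le_mul_left _ (hf c)) (hβ c (by simp))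
    simp only [sw, List.map_cons, List.sum_cons] at h1 ⊢
    rw [add_mul]
    omega

theorem sw_split (cs : List ℕ) (β : ℕ → ℕ) :
    (cs.map fun c => nvf c * β c).sum = sw cs yp β + 2 ^ 16 * sw cs ym β := by
  induction cs with
  | nil => simp [sw]
  | cons c cs ih =>
    simp only [sw, List.map_cons, List.sum_cons] at ih ⊢
    rw [ih, nvf_eq]
    ring

theorem split16 {x y : ℕ} (hx : x < 2 ^ 16) :
    (x + 2 ^ 16 * y) &&& 65535 = x ∧ (x + 2 ^ 16 * y) >>> 16 = y := by
  have h3 : (65535 : ℕ) = 2 ^ 16 - 1 := by norm_num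
  rw [h3, Nat.and_two_pow_sub_one_eq_mod, Nat.shiftRight_eq_div_pow]
  omega

/-- the sums over the cells of `NV` -/
theorem nv_sum {cs : List ℕ} (hb : 45 ≤ b) (hm : (cs.map nc).sum ≤ 14) {β : ℕ → ℕ}
    (hβ : ∀ c ∈ cs, β c ≤ 1) :
    (pk b (fun c => nvf c * β c) cs % (2 ^ b - 1)) &&& 65535 = sw cs yp β ∧
    (pk b (fun c => nvf c * β c) cs % (2 ^ b - 1)) >>> 16 = sw cs ym β := by
  have h1 : sw cs yp β ≤ 14 * 4095 := (sw_le yp_le hβ).trans (Nat.mul_le_mul_right _ hm)
  have h2 : sw cs ym β ≤ 14 * 4095 := (sw_le ym_le hβ).trans (Nat.mul_le_mul_right _ hm)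
  have hbig : 2 ^ 45 ≤ 2 ^ b := Nat.pow_le_pow_right (by norm_num) hb
  rw [pk_mod, sw_split]
  · exact split16 (by norm_num; omega)
  · rw [sw_split]
    omega

theorem nvf_lt {cs : List ℕ} (hb : 45 ≤ b) : ∀ c ∈ cs, nvf c < 2 ^ b := by
  intro c _
  have hbig : 2 ^ 45 ≤ 2 ^ b := Nat.pow_le_pow_right (by norm_num) hb
  have h1 : nc c ≤ 15 := Nat.and_le_right
  have h2 : (c >>> 12) &&& 268374015 ≤ 268374015 := Nat.and_le_right
  have h3 : nvf c ≤ 15 * 268374015 := Nat.mul_le_mul h1 h2
  omega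

/-- sums over points and over cells -/
theorem Cells.sum_int (hC : Cells X cs cell) (F : ℕ → ℤ) :
    ∑ e, F (cell e) = (cs.map fun c => (nc c : ℤ) * F c).sum := by
  rw [← sum_fiberwise_of_maps_to (s := (univ : Finset (Fin m))) (t := cs.toFinset) (g := cell)
    (fun e _ => List.mem_toFinset.2 (hC.mem e)), List.sum_toFinset _ hC.nodup]
  congr 1
  refine List.map_congr_left fun c hc => ?_
  rw [sum_congr rfl (g := fun _ => F c), sum_const, hC.cnt c hc, nsmul_eq_mul]
  intro e he
  rw [(mem_filter.1 he).2]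

theorem sw_int (cs : List ℕ) (β : ℕ → ℕ) :
    (cs.map fun c => (nc c : ℤ) * (((yp c : ℤ) - ym c) * β c)).sum =
      (sw cs yp β : ℤ) - sw cs ym β := by
  induction cs with
  | nil => simp [sw]
  | cons c cs ih =>
    simp only [sw, List.map_cons, List.sum_cons] at ih ⊢
    rw [ih]
    push_cast
    ring

/-- value of a pick -/
theorem Cells.val_pick (hC : Cells X cs cell) {j : ℕ}
    (hbt : ∀ e, bt j (cell e) = if e ∈ X j then 1 else 0) (z : ℤ) :
    val (yy cell) z (X j) = (sw cs yp (bt j) : ℤ) - sw cs ym (bt j) - z := by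
  rw [val, ← sw_int, ← hC.sum_int fun c => ((yp c : ℤ) - ym c) * bt j c]
  congr 1
  have h1 : ∀ e, ((yp (cell e) : ℤ) - ym (cell e)) * (bt j (cell e) : ℤ) =
      if e ∈ X j then yy cell e else 0 := by
    intro e
    rw [hbt, yy]
    split_ifs <;> simp
  rw [sum_congr rfl fun e _ => h1 e, sum_ite_mem, univ_inter]

theorem Cells.sum_yy (hC : Cells X cs cell) :
    ∑ e, yy cell e = (sw cs yp (fun _ => 1) : ℤ) - sw cs ym (fun _ => 1) := by
  rw [← sw_int, ← hC.sum_int fun c => ((yp c : ℤ) - ym c) * ((1 : ℕ) : ℤ)]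
  exact sum_congr rfl fun e _ => by rw [yy]; simp

theorem ev_le_sum {u d : ℕ → ℕ} {cs ts : List ℕ} (hts : adm cs ts) :
    ev u d cs ts ≤ (cs.map fun c => nc c * (u c + d c)).sum := by
  induction cs generalizing ts with
  | nil => simp [ev]
  | cons c cs ih =>
    cases ts with
    | nil => exact hts.elim
    | cons t ts =>
      have h1 := ih hts.2
      have h2 : t * u c ≤ nc c * u c := Nat.mul_le_mul_right _ hts.1
      have h3 : (nc c - t) * d c ≤ nc c * d c := Nat.mul_le_mul_right _ (Nat.sub_le _ _)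
      rw [ev, List.map_cons, List.sum_cons, mul_add]
      omega

theorem sw_add (cs : List ℕ) : (cs.map fun c => nc c * (ym c + yp c)).sum =
    sw cs yp (fun _ => 1) + sw cs ym (fun _ => 1) := by
  induction cs with
  | nil => simp [sw]
  | cons c cs ih =>
    simp only [sw, List.map_cons, List.sum_cons] at ih ⊢
    rw [ih]
    ring

/-- the test of the potential -/
theorem Ctx.v_facts (h : Ctx S b w k lv rooted cs X cell T) {g mu z : ℕ}
    (hh : sw cs yp (fun _ => 1) + sw cs ym (fun _ => 1) + (mu + z) ≤ 2 ^ g - 1) :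
    (∀ ts, adm cs ts → (2 ^ g - 1 + z - (sw cs yp (fun _ => 1) + mu)) + ev ym yp cs ts <
      2 ^ (g + 1)) ∧
    (((2 ^ g - 1 + z - (sw cs yp (fun _ => 1) + mu)) + ev ym yp cs (trc cs cell T)) &&& 2 ^ g = 0 →
      0 ≤ val (yy cell) z T + mu) := by
  have h1 : 1 ≤ 2 ^ g := Nat.one_le_two_pow
  have h2 : ∀ ts, adm cs ts → (2 ^ g - 1 + z - (sw cs yp (fun _ => 1) + mu)) +
      ev ym yp cs ts < 2 ^ (g + 1) := by
    intro ts hts
    have h3 := ev_le_sum (u := ym) (d := yp) hts
    rw [sw_add] at h3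
    rw [pow_succ]
    omega
  refine ⟨h2, fun h0 => ?_⟩
  have h4 := h2 _ (h.C.adm_trc T)
  set V := (2 ^ g - 1 + z - (sw cs yp (fun _ => 1) + mu)) + ev ym yp cs (trc cs cell T) with hV
  have h5 : V < 2 ^ g := by
    by_contra hcon
    obtain ⟨q, hq⟩ := Nat.exists_eq_add_of_le (not_lt.1 hcon)
    have hq1 : q < 2 ^ g := by rw [pow_succ] at h4; omega
    have h6 : V = q + 2 ^ g * 1 := by omega
    have h7 : (2 ^ g : ℕ) = 0 + 2 ^ g * 1 := by ring
    rw [h6] at h0
    rw [show (q + 2 ^ g * 1) &&& 2 ^ g = (q + 2 ^ g * 1) &&& (0 + 2 ^ g * 1) by rw [← h7],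
      land_two hq1 (by omega)] at h0
    simp at h0
  have h8 : ((ev ym yp cs (trc cs cell T) : ℕ) : ℤ) =
      sw cs yp (fun _ => 1) - ∑ e ∈ T, yy cell e := by
    rw [h.C.ev_trc]
    have h9 : (sw cs yp (fun _ => 1) : ℤ) = ∑ e, (yp (cell e) : ℤ) := by
      rw [h.C.sum_int fun c => (yp c : ℤ), sw]
      push_cast
      simp only [mul_one, List.map_map]
      congr 1
    have h10 : ∑ e ∈ T, yy cell e = ∑ e, if e ∈ T then yy cell e else 0 := by
      rw [sum_ite_mem, univ_inter]
    rw [h9, h10, ← sum_sub_distrib]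
    push_cast
    refine sum_congr rfl fun e _ => ?_
    split_ifs
    · rw [yy]; ring
    · ring
  rw [val]
  omega

end Pool.Agent.PB36
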