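import Pool.Agent.Lib_helper36.PB.Sem4

/-!
# Soundness of the checker
-/

namespace Pool.Agent.PB36

open Finset

section bal

variable {m : ℕ} {b : ℕ} {cs : List ℕ}

/-- the sums of `NV` over a pick -/
theorem pick_sum (hb : 45 ≤ b) (hc : ∀ c ∈ cs, c < 2 ^ b) (hm : (cs.map nc).sum ≤ 14) {j : ℕ}
    (hj : j < 8) :
    ((pk b nvf cs &&& (((pk b id cs >>> j) &&& pk b (fun _ => 1) cs) * (2 ^ b - 1))) %
      (2 ^ b - 1)) &&& 65535 = sw cs yp (bt j) ∧
    ((pk b nvf cs &&& (((pk b id cs >>> j) &&& pk b (fun _ => 1) cs) * (2 ^ b - 1))) %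
      (2 ^ b - 1)) >>> 16 = sw cs ym (bt j) := by
  rw [mask_eq hc (by omega), pk_mul', pk_land (nvf_lt hb) fun c _ => bt_mul_lt _ _,
    pk_congr fun c hc' => and_bt (nvf_lt hb c hc')]
  exact nv_sum hb hm fun c _ => bt_le j c

/-- term of a pick in the balance -/
def gg (lv : ℕ) (v : ℕ → ℤ) (i : ℕ) : ℤ :=
  if v i < 0 then 2 * v i else if lv.testBit i = true then v i else 0

theorem land_one_bit (lv j : ℕ) : (lv >>> j) &&& 1 = if lv.testBit j = true then 1 else 0 := by
  rw [Nat.and_one_is_mod, Nat.testBit_eq_decide_div_mod_eq, Nat.shiftRight_eq_div_pow]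
  have := Nat.mod_two_eq_zero_or_one (lv / 2 ^ j)
  rcases this with h | h <;> simp [h]

theorem balL_spec (hb : 45 ≤ b) (hc : ∀ c ∈ cs, c < 2 ^ b) (hm : (cs.map nc).sum ≤ 14)
    {z lv : ℕ} (n j P N st : ℕ) (hst : st ≤ 1) (hj : j + n ≤ 8)
    (h : balL (pk b id cs) (pk b nvf cs) (pk b (fun _ => 1) cs) (2 ^ b - 1) z lv n j P N st =
      true) :
    0 < (P : ℤ) - N + ∑ i ∈ Ico j (j + n),
        gg lv (fun i => (sw cs yp (bt i) : ℤ) - sw cs ym (bt i) - z) i ∨
      (0 ≤ (P : ℤ) - N + ∑ i ∈ Ico j (j + n),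
        gg lv (fun i => (sw cs yp (bt i) : ℤ) - sw cs ym (bt i) - z) i ∧
      (st = 1 ∨ ∃ i ∈ Ico j (j + n), 0 < (sw cs yp (bt i) : ℤ) - sw cs ym (bt i) - z)) := by
  induction n generalizing j P N st with
  | zero =>
    have h0 : balL (pk b id cs) (pk b nvf cs) (pk b (fun _ => 1) cs) (2 ^ b - 1) z lv 0 j P N st =
      Nat.ble (N + (1 - st)) P := rfl
    rw [h0, nble] at h
    simp only [add_zero, Ico_self, sum_empty]
    rcases (by omega : st = 0 ∨ st = 1) with rfl | rfl
    · left; omega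
    · right; exact ⟨by omega, Or.inl rfl⟩
  | succ n ih =>
    obtain ⟨p1, p2⟩ := pick_sum hb hc hm (show j < 8 by omega)
    set Sj := (pk b nvf cs &&& (((pk b id cs >>> j) &&& pk b (fun _ => 1) cs) * (2 ^ b - 1))) %
      (2 ^ b - 1) with hSj
    have h0 : balL (pk b id cs) (pk b nvf cs) (pk b (fun _ => 1) cs) (2 ^ b - 1) z lv (n + 1) j
        P N st =
      @Bool.rec (fun _ => Bool)
          (balL (pk b id cs) (pk b nvf cs) (pk b (fun _ => 1) cs) (2 ^ b - 1) z lv n (j + 1)
            (P + 2 * (Sj &&& 65535)) (N + 2 * (z + Sj >>> 16)) st)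
          (balL (pk b id cs) (pk b nvf cs) (pk b (fun _ => 1) cs) (2 ^ b - 1) z lv n (j + 1)
            (P + ((lv >>> j) &&& 1) * ((Sj &&& 65535) - (z + Sj >>> 16))) N
            (@Bool.rec (fun _ => Nat) 1 st (Nat.beq (Sj &&& 65535) (z + Sj >>> 16))))
          (Nat.ble (z + Sj >>> 16) (Sj &&& 65535)) := rfl
    rw [h0, p1, p2] at h
    have hsum : ∑ i ∈ Ico j (j + (n + 1)),
        gg lv (fun i => (sw cs yp (bt i) : ℤ) - sw cs ym (bt i) - z) i =
        gg lv (fun i => (sw cs yp (bt i) : ℤ) - sw cs ym (bt i) - z) j +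
        ∑ i ∈ Ico (j + 1) (j + 1 + n),
          gg lv (fun i => (sw cs yp (bt i) : ℤ) - sw cs ym (bt i) - z) i := by
      rw [sum_eq_sum_Ico_succ_bot (by omega)]
      congr 2
      ring_nf
    have hmem : ∀ i, i ∈ Ico (j + 1) (j + 1 + n) → i ∈ Ico j (j + (n + 1)) := by
      intro i hi
      rw [mem_Ico] at hi ⊢
      omega
    rw [hsum]
    set v : ℕ → ℤ := fun i => (sw cs yp (bt i) : ℤ) - sw cs ym (bt i) - z with hv
    have hvj : v j = (sw cs yp (bt j) : ℤ) - sw cs ym (bt j) - z := rfl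
    cases hle : Nat.ble (z + sw cs ym (bt j)) (sw cs yp (bt j)) with
    | false =>
      rw [hle] at h
      rw [nblf] at hle
      have h1 := ih (j + 1) _ _ st hst (by omega) h
      have hneg : v j < 0 := by rw [hvj]; omega
      have hg : gg lv v j = 2 * v j := by rw [gg, if_pos hneg]
      have he : ((P + 2 * sw cs yp (bt j) : ℕ) : ℤ) - (N + 2 * (z + sw cs ym (bt j)) : ℕ) =
          (P : ℤ) - N + gg lv v j := by
        rw [hg, hvj]; push_cast; ring
      rw [he, add_assoc] at h1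
      rcases h1 with h1 | ⟨h1, h2 | ⟨i, hi, h2⟩⟩
      · exact Or.inl h1
      · exact Or.inr ⟨h1, Or.inl h2⟩
      · exact Or.inr ⟨h1, Or.inr ⟨i, hmem i hi, h2⟩⟩
    | true =>
      rw [hle] at h
      rw [nble] at hle
      have hpos : ¬ v j < 0 := by rw [hvj]; omega
      have hg : gg lv v j = (((lv >>> j) &&& 1 : ℕ) : ℤ) * v j := by
        rw [gg, if_neg hpos, land_one_bit]
        split_ifs <;> simp
      have he : ((P + ((lv >>> j) &&& 1) * (sw cs yp (bt j) - (z + sw cs ym (bt j))) : ℕ) : ℤ) -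
          (N : ℕ) = (P : ℤ) - N + gg lv v j := by
        rw [hg, hvj]
        push_cast [Nat.cast_sub hle]
        ring
      cases heq : Nat.beq (sw cs yp (bt j)) (z + sw cs ym (bt j)) with
      | true =>
        rw [heq] at h
        have h1 := ih (j + 1) _ _ _ hst (by omega) h
        rw [he, add_assoc] at h1
        rcases h1 with h1 | ⟨h1, h2 | ⟨i, hi, h2⟩⟩
        · exact Or.inl h1
        · exact Or.inr ⟨h1, Or.inl h2⟩
        · exact Or.inr ⟨h1, Or.inr ⟨i, hmem i hi, h2⟩⟩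
      | false =>
        rw [heq] at h
        rw [nbne] at heq
        have h1 := ih (j + 1) _ _ _ le_rfl (by omega) h
        rw [he, add_assoc] at h1
        have hjm : j ∈ Ico j (j + (n + 1)) := by rw [mem_Ico]; omega
        have hvp : 0 < v j := by rw [hvj]; omega
        rcases h1 with h1 | ⟨h1, -⟩
        · exact Or.inl h1
        · exact Or.inr ⟨h1, Or.inr ⟨j, hjm, hvp⟩⟩

theorem balU_spec (hb : 45 ≤ b) (hc : ∀ c ∈ cs, c < 2 ^ b) (hm : (cs.map nc).sum ≤ 14)
    {z : ℕ} (n j st : ℕ) (hj : j + n ≤ 8)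
    (h : balU (pk b id cs) (pk b nvf cs) (pk b (fun _ => 1) cs) (2 ^ b - 1) z n j st = true) :
    (∀ i ∈ Ico j (j + n), 0 ≤ (sw cs yp (bt i) : ℤ) - sw cs ym (bt i) - z) ∧
      (1 ≤ st ∨ ∃ i ∈ Ico j (j + n), 0 < (sw cs yp (bt i) : ℤ) - sw cs ym (bt i) - z) := by
  induction n generalizing j st with
  | zero =>
    have h0 : balU (pk b id cs) (pk b nvf cs) (pk b (fun _ => 1) cs) (2 ^ b - 1) z 0 j st =
      Nat.ble 1 st := rfl
    rw [h0, nble] at h
    exact ⟨by simp, Or.inl h⟩
  | succ n ih =>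
    obtain ⟨p1, p2⟩ := pick_sum hb hc hm (show j < 8 by omega)
    set Sj := (pk b nvf cs &&& (((pk b id cs >>> j) &&& pk b (fun _ => 1) cs) * (2 ^ b - 1))) %
      (2 ^ b - 1) with hSj
    have h0 : balU (pk b id cs) (pk b nvf cs) (pk b (fun _ => 1) cs) (2 ^ b - 1) z (n + 1) j st =
      andB (Nat.ble (z + Sj >>> 16) (Sj &&& 65535))
          (balU (pk b id cs) (pk b nvf cs) (pk b (fun _ => 1) cs) (2 ^ b - 1) z n (j + 1)
            (@Bool.rec (fun _ => Nat) 1 st (Nat.beq (Sj &&& 65535) (z + Sj >>> 16)))) := rfl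
    rw [h0, p1, p2, andB_eq, nble] at h
    obtain ⟨h1, h2⟩ := h
    obtain ⟨h3, h4⟩ := ih _ _ (by omega) h2
    have hmem : ∀ i, i ∈ Ico (j + 1) (j + 1 + n) → i ∈ Ico j (j + (n + 1)) := by
      intro i hi
      rw [mem_Ico] at hi ⊢
      omega
    have hjm : j ∈ Ico j (j + (n + 1)) := by rw [mem_Ico]; omega
    constructor
    · intro i hi
      by_cases hij : i = j
      · rw [hij]; omega
      · refine h3 i ?_
        rw [mem_Ico] at hi ⊢
        omega
    · cases heq : Nat.beq (sw cs yp (bt j)) (z + sw cs ym (bt j)) with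
      | true =>
        rw [heq] at h4
        rcases h4 with h4 | ⟨i, hi, h4⟩
        · exact Or.inl h4
        · exact Or.inr ⟨i, hmem i hi, h4⟩
      | false =>
        rw [nbne] at heq
        exact Or.inr ⟨j, hjm, by omega⟩

end bal

section rec

variable {m : ℕ} {S : Sys m} {b w k lv rooted : ℕ} {cs : List ℕ} {X : ℕ → Finset (Fin m)}

/-- the start of the loop over the items -/
theorem inv_zero (cs τ : List ℕ) (G : Prop) : Inv b cs τ G 0 0 0 0 0 0 := by
  refine ⟨⟨fun _ => 0, fun _ => 0, (pk_zero cs).symm, (pk_zero cs).symm, by simp, by simp, ?_, ?_⟩,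
    by simp, by simp, by simp⟩
  · intro ts _
    have : ∀ cs ts : List ℕ, ev (fun _ => 0) (fun _ => 0) cs ts = 0 := by
      intro cs
      induction cs with
      | nil => intro ts; rfl
      | cons c cs ih =>
        intro ts
        cases ts with
        | nil => rfl
        | cons t ts => rw [ev, ih]; simp
    rw [this]; simp
  · intro h; simp at h

theorem chkC_spec {db : NL} {id' mu z nI g r items pr prof : ℕ}
    (hm : m ≤ 14) (hb : 45 ≤ b) (hr : rooted ≤ 1) (hk7 : k ≤ 7) (hrC : r ≤ cs.length)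
    (hck : ∀ c ∈ cs, Chunk w c) (hpw : cs.Pairwise fun c c' => pt c < pt c')
    (hdb : ∀ rid < id', Dead S (getR db rid))
    (hpr : pr = (cs.map fun c => nc c <<< (w * pt c)).sum)
    (hX0 : ∀ i, k ≤ i → X i = ∅) (hprf : prf w X = prof)
    (h : chkC m db id' rooted k lv prof cs.length b z mu nI (g + 1) r items (2 ^ b - 1)
      (pk b (fun _ => 1) cs) (pk b id cs) (pk b nvf cs) pr
      ((pk b nvf cs % (2 ^ b - 1)) &&& 65535) ((pk b nvf cs % (2 ^ b - 1)) >>> 16)
      (1 <<< (g + 1 - 1)) ((pk b id cs >>> 12) &&& (pk b (fun _ => 1) cs * 4095))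
      ((pk b id cs >>> 28) &&& (pk b (fun _ => 1) cs * 4095)) = true) :
    (∀ i < k, X i ≠ ∅) ∧ ¬ ((∀ i < k, X i ∈ supp S.w) ∧ (rooted = 1 → X 0 = S.R) ∧
      ∀ i, lv.testBit i = true → S.w S.R < 2 * S.w (X i)) := by
  have hbig : 2 ^ 45 ≤ 2 ^ b := Nat.pow_le_pow_right (by norm_num) hb
  have h4445 : 2 ^ 44 < 2 ^ 45 := by norm_num
  have hcb : ∀ c ∈ cs, c < 2 ^ b := fun c hc => (hck c hc).lt.trans (h4445.trans_le hbig)
  set sp := (pk b nvf cs % (2 ^ b - 1)) &&& 65535 with hsp
  set sm := (pk b nvf cs % (2 ^ b - 1)) >>> 16 with hsm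
  set hh := (1 : ℕ) <<< (g + 1 - 1) with hhh
  set Yp := (pk b id cs >>> 12) &&& (pk b (fun _ => 1) cs * 4095) with hYp
  set Ym := (pk b id cs >>> 28) &&& (pk b (fun _ => 1) cs * 4095) with hYm
  have e1 : chkC m db id' rooted k lv prof cs.length b z mu nI (g + 1) r items (2 ^ b - 1)
      (pk b (fun _ => 1) cs) (pk b id cs) (pk b nvf cs) pr sp sm hh Yp Ym =
    andB (Nat.beq pr prof)
    (andB (Nat.beq (((pk b id cs >>> 8) &&& (pk b (fun _ => 1) cs * 15)) % (2 ^ b - 1)) m)
    (andB (sepL (pk b (fun _ => 1) cs) k (pk b id cs))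
    (andB (Nat.ble (sp + sm + (2 * mu + z)) (hh - 1))
    (andB (Nat.ble sp (sm + 2 * z))
    (andB (balB m rooted k lv z mu (pk b id cs) (pk b nvf cs) (pk b (fun _ => 1) cs) (2 ^ b - 1)
      sp sm)
    (andB (Nat.ble (g + 1 + 1 + 1) b)
    (itemL db id' rooted k lv (pk b id cs) (pk b (fun _ => 1) cs) (2 ^ b - 1) b (g + 1 + 1) Ym Yp
      (hh - 1 + z - (sp + 2 * mu)) hh
      (fun _ off U D K TM TP => andB (Nat.ble (off + 1) b)
        (lastB b (2 ^ b - 1) cs.length r (pk b id cs >>> 8) U D K TM TP))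
      nI items (g + 1 + 1) Ym Yp (hh - 1 + z - (sp + mu)) hh (1 <<< (g + 1))))))))) := rfl
  rw [e1, andB_eq, andB_eq, andB_eq, andB_eq, andB_eq, andB_eq, andB_eq, nbeq, nbeq, nble, nble,
    nble] at h
  obtain ⟨c1, c2, c3, c4, c5, c6, c7, c8⟩ := h
  -- number of points
  have hncs : (cs.map nc).sum = m := by
    have h15 : pk b (fun _ => 1) cs * 15 = pk b (fun _ => 15) cs := by
      rw [pk_mul']
    have hlt : (cs.map nc).sum < 2 ^ b - 1 := by
      have h1 : ∀ c, nc c ≤ 15 := fun c => Nat.and_le_right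
      have h2 : (cs.map nc).sum ≤ cs.length * 15 := by
        clear * - h1
        induction cs with
        | nil => simp
        | cons c cs ih =>
          have := h1 c
          simp only [List.map_cons, List.sum_cons, List.length_cons]
          omega
      have h3 : cs.length ≤ 64 := by
        have h4 : (cs.map pt).Nodup := by
          rw [List.nodup_iff_pairwise_ne]
          exact List.Pairwise.map _ (fun a b hab => hab.ne) hpw
        have h5 : (cs.map pt).toFinset ⊆ range 64 := by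
          intro p hp
          rw [List.mem_toFinset, List.mem_map] at hp
          obtain ⟨c, -, rfl⟩ := hp
          rw [mem_range]
          exact lt_of_le_of_lt Nat.and_le_right (by norm_num)
        have h6 := card_le_card h5
        rw [List.toFinset_card_of_nodup h4, List.length_map, card_range] at h6
        exact h6
      omega
    rw [h15, pk_shr_land (f := id) hcb (by
      have : (15 : ℕ) <<< 8 < 2 ^ 45 := by decide
      omega)] at c2
    have h7 : (fun c => (id c >>> 8) &&& 15) = nc := rfl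
    rw [h7, pk_mod hlt] at c2
    exact c2
  obtain ⟨s1, s2⟩ := nv_sum (b := b) hb (hncs ▸ hm) (β := fun _ => 1) (cs := cs) (fun _ _ => le_rfl)
  simp only [mul_one] at s1 s2
  have s1' : sp = sw cs yp (fun _ => 1) := s1
  have s2' : sm = sw cs ym (fun _ => 1) := s2
  -- the cells
  obtain ⟨cell, hC⟩ := exists_cells hck hpw hncs (hprf.trans (c1.symm.trans hpr))
  obtain ⟨q1, q2⟩ := sepL_spec c3
  have hk6 : k ≤ 6 := by
    by_contra hcon
    have := q1 6 (by omega)
    rw [mask_eq hcb (by omega)] at this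
    apply this
    rw [pk_congr (g := fun _ => 0) fun c hc => (hck c hc).b6, pk_zero]
  have h67 : ∀ e, e ∉ X 6 ∧ e ∉ X 7 := fun e => by
    rw [hX0 6 hk6, hX0 7 (by omega)]; simp
  have hbt : ∀ j < 8, ∀ e, bt j (cell e) = if e ∈ X j then 1 else 0 :=
    fun j hj e => hC.bt_eq hck h67 hj e
  have hne : ∀ i < k, X i ≠ ∅ := by
    intro i hi he
    have := q1 i hi
    rw [mask_eq hcb (by omega)] at this
    apply this
    rw [pk_congr (g := fun _ => 0), pk_zero]
    intro c hc
    obtain ⟨e, rfl⟩ := hC.pos c hc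
    rw [hbt i (by omega), he]
    simp
  refine ⟨hne, ?_⟩
  rintro ⟨hXs, hroot, hlev⟩
  have hinj : ∀ i < k, ∀ j < k, X i = X j → i = j := by
    have key : ∀ i < k, ∀ j < k, i < j → X i ≠ X j := by
      intro i hi j hj hij he
      have := q2 i hi j hj hij
      rw [mask_eq hcb (by omega), mask_eq hcb (by omega)] at this
      apply this
      refine pk_congr fun c hc => ?_
      obtain ⟨e, rfl⟩ := hC.pos c hc
      rw [hbt i (by omega), hbt j (by omega), he]
    intro i hi j hj he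
    rcases lt_trichotomy i j with hij | hij | hij
    · exact absurd he (key i hi j hj hij)
    · exact hij
    · exact absurd he.symm (key j hj i hi hij)
  have hh2 : hh = 2 ^ g := by simp [hhh, Nat.shiftLeft_eq]
  have hYp2 : Yp = pk b yp cs := by
    rw [hYp, pk_mul', pk_shr_land (f := id) hcb (by
      have : (1 * 4095 : ℕ) <<< 12 < 2 ^ 45 := by decide
      omega)]
    rfl
  have hYm2 : Ym = pk b ym cs := by
    rw [hYm, pk_mul', pk_shr_land (f := id) hcb (by
      have : (1 * 4095 : ℕ) <<< 28 < 2 ^ 45 := by decide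
      omega)]
    rfl
  -- the context of a type
  have ctx : ∀ T ∈ supp S.w, (∀ i < k, T ≠ X i) → Ctx S b w k lv rooted cs X cell T :=
    fun T hT hTn => ⟨hm, hb, hck, hncs, hC, hk6, hXs, hX0, hroot, hlev, hT, hTn⟩
  have hyb : ∀ c ∈ cs, ym c < 2 ^ (g + 1 + 1) ∧ yp c < 2 ^ (g + 1 + 1) := by
    intro c hc
    have h1 := (hck c hc).pos
    have h2 : nc c * yp c * 1 ≤ sw cs yp (fun _ => 1) :=
      List.single_le_sum (by simp) _ (List.mem_map.2 ⟨c, hc, rfl⟩)
    have h3 : nc c * ym c * 1 ≤ sw cs ym (fun _ => 1) :=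
      List.single_le_sum (by simp) _ (List.mem_map.2 ⟨c, hc, rfl⟩)
    have h4 : 1 * yp c ≤ nc c * yp c := Nat.mul_le_mul_right _ h1
    have h5 : 1 * ym c ≤ nc c * ym c := Nat.mul_le_mul_right _ h1
    rw [s1', s2', hh2] at c4
    have h6 : 2 ^ (g + 1 + 1) = 2 * (2 * 2 ^ g) := by ring
    have h7 : 1 ≤ 2 ^ g := Nat.one_le_two_pow
    omega
  have main : ∀ T ∈ supp S.w, (∀ i < k, T ≠ X i) → 0 ≤ val (yy cell) z T + mu ∨
      (2 * S.w T ≤ S.w S.R ∧ 0 ≤ val (yy cell) z T + 2 * mu) := by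
    intro T hT hTn
    have hctx := ctx T hT hTn
    rw [hh2, s1', s2'] at c4
    have v1 := hctx.v_facts (g := g) (mu := mu) (z := z) (by omega)
    have v2 := hctx.v_facts (g := g) (mu := 2 * mu) (z := z) (by omega)
    have hgg : 2 ^ g < 2 ^ (g + 1) := Nat.pow_lt_pow_right (by norm_num) (by omega)
    have hgg2 : 2 ^ (g + 1) < 2 ^ (g + 1 + 1) := Nat.pow_lt_pow_right (by norm_num) (by omega)
    set G : Prop := 0 ≤ val (yy cell) z T + mu ∨
      (2 * S.w T ≤ S.w S.R ∧ 0 ≤ val (yy cell) z T + 2 * mu) with hG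
    have hI := (inv_zero (b := b) cs (trc cs cell T) G).add (hC.adm_trc T) (w1 := g + 1)
      (k := 2 ^ g - 1 + z - (sw cs yp (fun _ => 1) + mu)) (t := 2 ^ g) (u' := ym) (d' := yp)
      (by omega) (fun c hc => (hyb c hc).1) (fun c hc => (hyb c hc).2)
      (fun ts hts => (v1.1 ts hts).trans hgg2) hgg (fun h0 => Or.inl (v1.2 h0))
    simp only [zero_add, Nat.shiftLeft_zero] at hI
    have hfin : Snd b cs (trc cs cell T) G (fun _ off U D K TM TP => andB (Nat.ble (off + 1) b)
        (lastB b (2 ^ b - 1) cs.length r (pk b id cs >>> 8) U D K TM TP)) := by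
      intro it off U D K TM TP hI' hl
      rw [andB_eq, nble] at hl
      exact lastB_spec (by omega) hcb hrC (hC.adm_trc T) hI' hl.1 hl.2
    have hit := hctx.itemL_spec hr hdb (G := G) (s0 := g + 1 + 1)
      (k0 := 2 ^ g - 1 + z - (sw cs yp (fun _ => 1) + 2 * mu)) (t0 := 2 ^ g) (uf := ym) (df := yp)
      (fun c hc => (hyb c hc).1) (fun c hc => (hyb c hc).2)
      (fun ts hts => (v2.1 ts hts).trans hgg2) (hgg.trans hgg2)
      (fun h0 hn => Or.inr ⟨not_lt.1 hn, by have := v2.2 h0; push_cast at this; exact this⟩)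
      hfin nI
    refine hit items (g + 1 + 1) _ _ _ _ _ ?_ (by
      rw [hh2, hYp2, hYm2, s1'] at c8
      exact c8)
    have e5 : 1 + (g + 1) = g + 1 + 1 := by ring
    rw [e5] at hI
    exact hI
  have hsum := hC.sum_yy
  rw [← s1', ← s2'] at hsum
  have hA : ∑ e, yy cell e ≤ 2 * (z : ℤ) := by rw [hsum]; omega
  have hval : ∀ j, j < 8 → val (yy cell) z (X j) =
      (sw cs yp (bt j) : ℤ) - sw cs ym (bt j) - z := fun j hj => hC.val_pick (hbt j hj) z
  by_cases hr0 : rooted = 0
  · -- unrooted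
    have e2 : balB m rooted k lv z mu (pk b id cs) (pk b nvf cs) (pk b (fun _ => 1) cs)
        (2 ^ b - 1) sp sm = andB (Nat.beq mu 0) (balU (pk b id cs) (pk b nvf cs)
          (pk b (fun _ => 1) cs) (2 ^ b - 1) z k 0
          (@Bool.rec (fun _ => Nat) 1 0 (Nat.beq sp (sm + 2 * z)))) := by
      rw [hr0]; rfl
    rw [e2, andB_eq, nbeq] at c6
    obtain ⟨m0, c6⟩ := c6
    obtain ⟨u1, u2⟩ := balU_spec hb hcb (hncs ▸ hm) k 0 _ (by omega) c6
    rw [zero_add] at u1 u2
    refine step_unrooted S k X hXs (yy cell) z hA ?_ ?_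
    · intro T hT
      by_cases hTn : ∀ i < k, T ≠ X i
      · have h1 := main T hT hTn
        rw [m0] at h1
        rcases h1 with h1 | ⟨-, h1⟩
        · simpa using h1
        · simpa using h1
      · push Not at hTn
        obtain ⟨i, hi, rfl⟩ := hTn
        rw [hval i (by omega)]
        exact u1 i (by rw [mem_Ico]; omega)
    · cases heq : Nat.beq sp (sm + 2 * z) with
      | false =>
        rw [nbne] at heq
        right
        rw [hsum]; omega
      | true =>
        rw [heq] at u2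
        rcases u2 with u2 | ⟨i, hi, u2⟩
        · exact absurd u2 (by norm_num)
        · rw [mem_Ico] at hi
          exact Or.inl ⟨i, hi.2, by rw [hval i (by omega)]; exact u2⟩
  · -- rooted
    have hr1 : rooted = 1 := by omega
    have hk : 0 < k := by
      by_contra hcon
      have h1 := hroot hr1
      rw [hX0 0 (by omega)] at h1
      have h2 := S.pos
      rw [← h1, S.empty] at h2
      exact lt_irrefl _ h2
    set S0 := (pk b nvf cs &&& ((pk b id cs &&& pk b (fun _ => 1) cs) * (2 ^ b - 1))) %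
      (2 ^ b - 1) with hS0
    have e2 : balB m rooted k lv z mu (pk b id cs) (pk b nvf cs) (pk b (fun _ => 1) cs)
        (2 ^ b - 1) sp sm = balL (pk b id cs) (pk b nvf cs) (pk b (fun _ => 1) cs) (2 ^ b - 1) z
          lv (k - 1) 1 (2 * (S0 &&& 65535)) (2 * (z + S0 >>> 16) + 2 * (mu * (m - k)))
          (@Bool.rec (fun _ => Nat) 1 0 (Nat.beq sp (sm + 2 * z))) := by
      rw [hr1]; rfl
    obtain ⟨p1, p2⟩ := pick_sum (b := b) hb hcb (hncs ▸ hm) (show 0 < 8 by norm_num)
    rw [Nat.shiftRight_zero] at p1 p2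
    rw [e2, p1, p2] at c6
    have hst : (@Bool.rec (fun _ => Nat) 1 0 (Nat.beq sp (sm + 2 * z)) : ℕ) ≤ 1 := by
      cases Nat.beq sp (sm + 2 * z) <;> simp
    have b1 := balL_spec hb hcb (hncs ▸ hm) (k - 1) 1 _ _ _ hst (by omega) c6
    have hk1 : 1 + (k - 1) = k := by omega
    rw [hk1] at b1
    have hgs : ∑ i ∈ Ico 1 k, gg lv (fun i => (sw cs yp (bt i) : ℤ) - sw cs ym (bt i) - z) i =
        ∑ j ∈ Ico 1 k, (if val (yy cell) z (X j) < 0 then 2 * val (yy cell) z (X j)
          else if lv.testBit j = true then val (yy cell) z (X j) else 0) := by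
      refine sum_congr rfl fun i hi => ?_
      rw [mem_Ico] at hi
      rw [gg, hval i (by omega)]
    rw [hgs] at b1
    have hD : ((2 * sw cs yp (bt 0) : ℕ) : ℤ) -
        (2 * (z + sw cs ym (bt 0)) + 2 * (mu * (m - k)) : ℕ) =
        2 * val (yy cell) z (X 0) - 2 * mu * ((m - k : ℕ) : ℤ) := by
      rw [hval 0 (by norm_num)]
      push_cast
      ring
    rw [hD] at b1
    refine step_rooted S k X hXs hinj hk (hroot hr1) lv (fun i _ hi => hlev i hi) (yy cell) z mu hA
      main ?_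
    rcases b1 with b1 | ⟨b1, b2⟩
    · left
      linarith
    · right
      refine ⟨by linarith, ?_⟩
      rcases b2 with b2 | ⟨i, hi, b2⟩
      · right
        cases heq : Nat.beq sp (sm + 2 * z) with
        | false =>
          rw [nbne] at heq
          rw [hsum]; omega
        | true =>
          rw [heq] at b2
          exact absurd b2 (by norm_num)
      · left
        refine ⟨i, hi, ?_⟩
        rw [mem_Ico] at hi
        rw [hval i (by omega)]; exact b2

/-- a record is sound -/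
theorem chkR_spec {db : NL} {id' d : ℕ} (hm : m ≤ 14) (hdb : ∀ rid < id', Dead S (getR db rid))
    (h : chkR m db id' d = true) : Dead S (getR db id') := by
  set p := getR db id' with hp
  set C := d &&& 15 with hC
  set b := (d >>> 4) &&& 8191 with hb'
  set hd := p &&& 65535 with hhd
  have e1 : chkR m db id' d =
    andB (andB (Nat.ble 45 b) (Nat.ble ((d >>> 37) &&& 15) C))
      (chkB m db id' (hd &&& 1) ((hd >>> 1) &&& 7) ((hd >>> 4) &&& 7) (hd >>> 7) (p >>> 16) C b
        ((d >>> 17) &&& 1023) ((d >>> 27) &&& 1023) ((d >>> 45) &&& 255)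
        (((d >>> 53) &&& 31) + 1) ((d >>> 37) &&& 15) (d >>> 58) (d >>> (58 + 44 * C))
        ((1 <<< b) - 1) (((1 <<< (b * C)) - 1) / ((1 <<< b) - 1))) := rfl
  rw [e1, andB_eq, andB_eq, nble, nble] at h
  obtain ⟨⟨hb, hr⟩, h⟩ := h
  have hone : ∀ q : ℕ, (1 : ℕ) <<< q = 2 ^ q := fun q => by simp [Nat.shiftLeft_eq]
  rw [hone, hone] at h
  set g := (d >>> 53) &&& 31 with hg
  set r := (d >>> 37) &&& 15 with hrr
  have hk : (hd >>> 1) &&& 7 = (p >>> 1) &&& 7 := and_shr _ _ _ _ (by decide)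
  have hw : (hd >>> 4) &&& 7 = (p >>> 4) &&& 7 := and_shr _ _ _ _ (by decide)
  rw [hk, hw] at h
  set ALL := (2 ^ (b * C) - 1) / (2 ^ b - 1) with hALL
  have e2 : chkB m db id' (hd &&& 1) ((p >>> 1) &&& 7) ((p >>> 4) &&& 7) (hd >>> 7) (p >>> 16) C b
        ((d >>> 17) &&& 1023) ((d >>> 27) &&& 1023) ((d >>> 45) &&& 255)
        (g + 1) r (d >>> 58) (d >>> (58 + 44 * C)) (2 ^ b - 1) ALL =
    cellL b ((p >>> 4) &&& 7) (fun RV NV pr =>
      chkC m db id' (hd &&& 1) ((p >>> 1) &&& 7) (hd >>> 7) (p >>> 16) C b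
        ((d >>> 17) &&& 1023) ((d >>> 27) &&& 1023) ((d >>> 45) &&& 255) (g + 1) r
        (d >>> (58 + 44 * C)) (2 ^ b - 1) ALL RV NV pr
        ((NV % (2 ^ b - 1)) &&& 65535) ((NV % (2 ^ b - 1)) >>> 16)
        (1 <<< (g + 1 - 1)) ((RV >>> 12) &&& (ALL * 4095)) ((RV >>> 28) &&& (ALL * 4095)))
      C (d >>> 58) (b * ([] : List ℕ).length) 0 (pk b id []) (pk b nvf [])
      ((([] : List ℕ).map fun c => nc c <<< (((p >>> 4) &&& 7) * pt c)).sum) := rfl
  rw [e2] at h
  obtain ⟨cs, h1, h2, -, h4, h5⟩ := cellL_spec C _ _ _ h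
  rw [List.nil_append] at h5
  have hA : ALL = pk b (fun _ => 1) cs := by
    rw [hALL, ← h1]
    exact pk_ones (by omega)
  rw [hA, ← h1] at h5
  intro X hX0 hprf
  exact chkC_spec hm hb Nat.and_le_right Nat.and_le_right (by rw [h1]; exact hr) h2 h4 hdb rfl
    hX0 hprf h5

/-- length of a list -/
def lenN : NL → ℕ
  | NL.nil => 0
  | NL.cons _ t => lenN t + 1

theorem chkL_spec {db : NL} {l : NL} {id' : ℕ} (hm : m ≤ 14)
    (hdb : ∀ rid < id', Dead S (getR db rid)) (h : chkL m db l id' = true) :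
    ∀ rid < id' + lenN l, Dead S (getR db rid) := by
  induction l generalizing id' with
  | nil => exact hdb
  | cons d t ih =>
    have e1 : chkL m db (NL.cons d t) id' = andB (chkR m db id' d) (chkL m db t (id' + 1)) := rfl
    rw [e1, andB_eq] at h
    have h1 := chkR_spec hm hdb h.1
    have h2 := ih (id' := id' + 1) (fun rid hrid => by
      rcases Nat.lt_succ_iff_lt_or_eq.1 hrid with h3 | rfl
      · exact hdb rid h3
      · exact h1) h.2
    intro rid hrid
    exact h2 rid (by rw [lenN] at hrid; omega)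

end rec

end Pool.Agent.PB36
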