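import Pool.Agent.Lib_helper36.PB.Red

/-!
# Minimal systems: the statements used by the checker
-/

namespace Pool.Agent.PB36

open Finset

/-- a minimal system of types, with total weight more than two and a root `R` of maximal weight -/
structure Sys (m : ℕ) where
  w : Finset (Fin m) → ℝ
  feas : w ∈ Feas m
  card : (supp w).card ≤ m
  int : ∀ T ∈ supp w, ∀ T' ∈ supp w, (T ∩ T').Nonempty
  tot : 2 < tot w
  R : Finset (Fin m)
  hR : R ∈ supp w
  hmax : ∀ T, w T ≤ w R

/-- number of members of the list which contain `e` -/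
def cov {m : ℕ} (L : List (Finset (Fin m))) (e : Fin m) : ℕ := L.countP (fun T => e ∈ T)

/-- value of a type -/
def val {m : ℕ} (y : Fin m → ℤ) (z : ℤ) (T : Finset (Fin m)) : ℤ := ∑ e ∈ T, y e - z

end Pool.Agent.PB36
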