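import Mathlib

/-!
# Vectors packed in natural numbers
-/

namespace Pool.Agent.PB36

theorem land_two {b a c x y : ℕ} (ha : a < 2 ^ b) (hc : c < 2 ^ b) :
    (a + 2 ^ b * x) &&& (c + 2 ^ b * y) = (a &&& c) + 2 ^ b * (x &&& y) := by
  have hac : a &&& c < 2 ^ b := lt_of_le_of_lt Nat.and_le_left ha
  apply Nat.eq_of_testBit_eq
  intro j
  rw [Nat.testBit_and, add_comm a, add_comm c, add_comm (a &&& c),
    Nat.testBit_two_pow_mul_add _ ha, Nat.testBit_two_pow_mul_add _ hc,
    Nat.testBit_two_pow_mul_add _ hac]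
  split_ifs <;> rw [Nat.testBit_and]

/-- vector with fields `f c` of `b` bits, `c ∈ cs` -/
def pk (b : ℕ) (f : ℕ → ℕ) : List ℕ → ℕ
  | [] => 0
  | c :: cs => f c + 2 ^ b * pk b f cs

variable {b : ℕ} {f g : ℕ → ℕ} {cs ds : List ℕ}

@[simp] theorem pk_nil : pk b f [] = 0 := rfl

theorem pk_cons (c : ℕ) : pk b f (c :: cs) = f c + 2 ^ b * pk b f cs := rfl

theorem pk_congr (h : ∀ c ∈ cs, f c = g c) : pk b f cs = pk b g cs := by
  induction cs with
  | nil => rfl
  | cons c cs ih =>
    rw [pk_cons, pk_cons, h c (by simp), ih fun c hc => h c (by simp [hc])]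

theorem pk_lt (h : ∀ c ∈ cs, f c < 2 ^ b) : pk b f cs < 2 ^ (b * cs.length) := by
  induction cs with
  | nil => simp
  | cons c cs ih =>
    have h1 := h c (by simp)
    have h2 := ih fun c hc => h c (by simp [hc])
    rw [pk_cons, List.length_cons, Nat.mul_succ, add_comm (b * _), pow_add]
    calc f c + 2 ^ b * pk b f cs < 2 ^ b + 2 ^ b * pk b f cs := by omega
      _ = 2 ^ b * (pk b f cs + 1) := by ring
      _ ≤ 2 ^ b * 2 ^ (b * cs.length) := Nat.mul_le_mul_left _ h2

theorem pk_add : pk b f cs + pk b g cs = pk b (fun c => f c + g c) cs := by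
  induction cs with
  | nil => rfl
  | cons c cs ih => rw [pk_cons, pk_cons, pk_cons, ← ih]; ring

theorem pk_mul (a : ℕ) : a * pk b f cs = pk b (fun c => a * f c) cs := by
  induction cs with
  | nil => rfl
  | cons c cs ih => rw [pk_cons, pk_cons, ← ih]; ring

theorem pk_mul' (a : ℕ) : pk b f cs * a = pk b (fun c => f c * a) cs := by
  rw [mul_comm, pk_mul]; exact pk_congr fun c _ => mul_comm _ _

theorem pk_shl (s : ℕ) : pk b f cs <<< s = pk b (fun c => f c <<< s) cs := by
  simp only [Nat.shiftLeft_eq]; exact pk_mul' _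

theorem pk_land (hf : ∀ c ∈ cs, f c < 2 ^ b) (hg : ∀ c ∈ cs, g c < 2 ^ b) :
    pk b f cs &&& pk b g cs = pk b (fun c => f c &&& g c) cs := by
  induction cs with
  | nil => simp
  | cons c cs ih =>
    rw [pk_cons, pk_cons, pk_cons, land_two (hf c (by simp)) (hg c (by simp)),
      ih (fun c hc => hf c (by simp [hc])) fun c hc => hg c (by simp [hc])]

theorem pk_sub (h : ∀ c ∈ cs, g c ≤ f c) :
    pk b f cs - pk b g cs = pk b (fun c => f c - g c) cs := by
  have : pk b g cs + pk b (fun c => f c - g c) cs = pk b f cs := by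
    rw [pk_add]
    exact pk_congr fun c hc => Nat.add_sub_cancel' (h c hc)
  omega

theorem pk_append : pk b f (cs ++ ds) = pk b f cs + 2 ^ (b * cs.length) * pk b f ds := by
  induction cs with
  | nil => simp
  | cons c cs ih =>
    rw [List.cons_append, pk_cons, pk_cons, ih, List.length_cons, Nat.mul_succ, add_comm (b * _),
      pow_add]
    ring

theorem pk_cons_shr (c : ℕ) (h : f c < 2 ^ b) : pk b f (c :: cs) >>> b = pk b f cs := by
  rw [pk_cons, Nat.shiftRight_eq_div_pow, Nat.add_mul_div_left _ _ (by positivity),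
    Nat.div_eq_of_lt h, zero_add]

theorem pk_cons_land (c : ℕ) (h : f c < 2 ^ b) : pk b f (c :: cs) &&& (2 ^ b - 1) = f c := by
  rw [Nat.and_two_pow_sub_one_eq_mod, pk_cons, Nat.add_mul_mod_self_left, Nat.mod_eq_of_lt h]

theorem pk_shr_land {j M : ℕ} (hf : ∀ c ∈ cs, f c < 2 ^ b) (hM : M <<< j < 2 ^ b) :
    (pk b f cs >>> j) &&& pk b (fun _ => M) cs = pk b (fun c => (f c >>> j) &&& M) cs := by
  have key : ∀ x y : ℕ, (x &&& (y <<< j)) = ((x >>> j) &&& y) <<< j := by
    intro x y
    apply Nat.eq_of_testBit_eq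
    intro i
    simp only [Nat.testBit_and, Nat.testBit_shiftLeft, Nat.testBit_shiftRight]
    by_cases h : j ≤ i
    · simp [h, Nat.add_sub_cancel' h]
    · simp [h]
  have h1 : ((pk b f cs >>> j) &&& pk b (fun _ => M) cs) <<< j =
      pk b (fun c => (f c >>> j) &&& M) cs <<< j := by
    rw [← key, pk_shl, pk_shl, pk_land hf fun c _ => hM]
    exact pk_congr fun c _ => key _ _
  have h2 := congrArg (· >>> j) h1
  simpa [Nat.shiftLeft_shiftRight] using h2

theorem pk_mod (h : (cs.map f).sum < 2 ^ b - 1) : pk b f cs % (2 ^ b - 1) = (cs.map f).sum := by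
  have h1 : ∀ cs : List ℕ, pk b f cs ≡ (cs.map f).sum [MOD 2 ^ b - 1] := by
    intro cs
    induction cs with
    | nil => simp [pk, Nat.ModEq]
    | cons c cs ih =>
      rw [pk_cons, List.map_cons, List.sum_cons]
      refine Nat.ModEq.add_left _ ?_
      have h2 : 2 ^ b ≡ 1 [MOD 2 ^ b - 1] := by
        have h3 : 1 ≤ 2 ^ b := Nat.one_le_two_pow
        exact ((Nat.modEq_iff_dvd' h3).2 (dvd_refl _)).symm
      calc 2 ^ b * pk b f cs ≡ 1 * (cs.map f).sum [MOD 2 ^ b - 1] := h2.mul ih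
        _ = (cs.map f).sum := one_mul _
  have h2 := h1 cs
  rw [Nat.ModEq, Nat.mod_eq_of_lt h] at h2
  exact h2

theorem pk_ones (hb : 0 < b) : (2 ^ (b * cs.length) - 1) / (2 ^ b - 1) = pk b (fun _ => 1) cs := by
  have h1 : ∀ cs : List ℕ, (2 ^ b - 1) * pk b (fun _ => 1) cs = 2 ^ (b * cs.length) - 1 := by
    intro cs
    induction cs with
    | nil => simp
    | cons c cs ih =>
      have h3 : 1 ≤ 2 ^ b := Nat.one_le_two_pow
      have h4 : 1 ≤ 2 ^ (b * cs.length) := Nat.one_le_two_pow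
      rw [pk_cons, List.length_cons, Nat.mul_succ, add_comm (b * _), pow_add, mul_add, mul_one,
        mul_left_comm, ih, Nat.mul_sub, mul_one]
      have h5 : 2 ^ b * 1 ≤ 2 ^ b * 2 ^ (b * cs.length) := Nat.mul_le_mul_left _ h4
      omega
  rw [← h1]
  refine Nat.mul_div_cancel_left _ ?_
  have : 2 ^ 1 ≤ 2 ^ b := Nat.pow_le_pow_right (by norm_num) hb
  omega

theorem pk_inj (hf : ∀ c ∈ cs, f c < 2 ^ b) (hg : ∀ c ∈ cs, g c < 2 ^ b)
    (h : pk b f cs = pk b g cs) : ∀ c ∈ cs, f c = g c := by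
  induction cs with
  | nil => simp
  | cons c cs ih =>
    have h1 := pk_cons_land (cs := cs) c (hf c (by simp))
    have h2 := pk_cons_land (cs := cs) c (hg c (by simp))
    have h3 := pk_cons_shr (cs := cs) c (hf c (by simp))
    have h4 := pk_cons_shr (cs := cs) c (hg c (by simp))
    rw [h] at h1 h3
    intro d hd
    rcases List.mem_cons.1 hd with rfl | hd
    · rw [← h1, h2]
    · exact ih (fun c hc => hf c (by simp [hc])) (fun c hc => hg c (by simp [hc]))
        (h3.symm.trans h4) d hd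

end Pool.Agent.PB36
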